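import Pool.Agent.Lib.MP_675adf_co.Api

/-! The algebraic identity: weighted block costs as a sum over pairs of positions. -/

open Real

namespace T3

theorem alg_sm_iff (h s p q : ℕ) : sm h s p q = true ↔ (h = p ∧ s = q) ∨ (h = q ∧ s = p) := by
  unfold sm
  simp only [Bool.or_eq_true, Bool.and_eq_true, Nat.beq_eq]

/-- sum over all pairs p < q < n -/
noncomputable def alg_psum (n : ℕ) (F : ℕ → ℕ → ℝ) : ℝ :=
  ∑ p ∈ Finset.range n, ∑ q ∈ Finset.range n, if p < q then F p q else 0

theorem alg_psum_add (n : ℕ) (F G : ℕ → ℕ → ℝ) :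
    alg_psum n (fun p q => F p q + G p q) = alg_psum n F + alg_psum n G := by
  unfold alg_psum
  rw [← Finset.sum_add_distrib]
  refine Finset.sum_congr rfl fun p _ => ?_
  rw [← Finset.sum_add_distrib]
  refine Finset.sum_congr rfl fun q _ => ?_
  split_ifs <;> simp

theorem alg_psum_smul (n : ℕ) (c : ℝ) (F : ℕ → ℕ → ℝ) :
    alg_psum n (fun p q => c * F p q) = c * alg_psum n F := by
  unfold alg_psum
  rw [Finset.mul_sum]
  refine Finset.sum_congr rfl fun p _ => ?_
  rw [Finset.mul_sum]
  refine Finset.sum_congr rfl fun q _ => ?_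
  split_ifs <;> simp

theorem alg_psum_zero (n : ℕ) : alg_psum n (fun _ _ => 0) = 0 := by
  unfold alg_psum
  simp

theorem alg_psum_congr (n : ℕ) {F G : ℕ → ℕ → ℝ} (h : ∀ p q, F p q = G p q) :
    alg_psum n F = alg_psum n G := by
  have : F = G := by funext p q; exact h p q
  rw [this]

theorem alg_pair_sum_lt {n h s : ℕ} (hs : s < n) (hlt : h < s) (c : ℝ) (e : ℕ → ℕ → ℝ) :
    alg_psum n (fun p q => (if sm h s p q = true then c else 0) * e p q) = c * e h s := by
  unfold alg_psum
  have hh : h < n := lt_trans hlt hs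
  rw [Finset.sum_eq_single h]
  · rw [Finset.sum_eq_single s]
    · rw [if_pos hlt]
      beta_reduce
      rw [if_pos ((alg_sm_iff _ _ _ _).mpr (Or.inl ⟨rfl, rfl⟩))]
    · intro q _ hq
      by_cases h1 : h < q
      · rw [if_pos h1]
        beta_reduce
        rw [if_neg, zero_mul]
        rw [alg_sm_iff]
        omega
      · rw [if_neg h1]
    · intro h1
      exact absurd (Finset.mem_range.mpr hs) h1
  · intro p _ hp
    refine Finset.sum_eq_zero fun q _ => ?_
    by_cases h1 : p < q
    · rw [if_pos h1]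
      beta_reduce
      rw [if_neg, zero_mul]
      rw [alg_sm_iff]
      omega
    · rw [if_neg h1]
  · intro h1
    exact absurd (Finset.mem_range.mpr hh) h1

theorem alg_sm_symm (h s p q : ℕ) : sm h s p q = sm s h p q := by
  rw [Bool.eq_iff_iff, alg_sm_iff, alg_sm_iff]
  omega

theorem alg_pair_sum {n h s : ℕ} (hh : h < n) (hs : s < n) (hne : h ≠ s) (c : ℝ) (e : ℕ → ℕ → ℝ)
    (hsym : ∀ p q, e p q = e q p) :
    alg_psum n (fun p q => (if sm h s p q = true then c else 0) * e p q) = c * e h s := by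
  rcases lt_or_gt_of_ne hne with h1 | h1
  · exact alg_pair_sum_lt hs h1 c e
  · rw [hsym h s, ← alg_pair_sum_lt hh h1 c e]
    refine alg_psum_congr n fun p q => ?_
    rw [alg_sm_symm]

theorem alg_one_sum {n s : ℕ} (hs : s < n) (r : ℕ → ℝ) :
    ∑ p ∈ Finset.range n, (if s = p then (1 : ℝ) else 0) * r p = r s := by
  rw [Finset.sum_eq_single s]
  · simp
  · intro p _ hp
    rw [if_neg (Ne.symm hp), zero_mul]
  · intro h1
    exact absurd (Finset.mem_range.mpr hs) h1

theorem alg_block_identity {n : ℕ} {b : List ℕ} (hb : ∀ p ∈ b, p < n) (hnd : b.Nodup)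
    (hl : b.length ≤ 3) (e : ℕ → ℕ → ℝ) (hsym : ∀ p q, e p q = e q p) (r : ℕ → ℝ) :
    1000 * bcR (367 / 1000) e r b = alg_psum n (fun p q => (pc b p q : ℝ) * e p q) -
      1000 * ∑ p ∈ Finset.range n, (nh b p : ℝ) * r p := by
  match b with
  | [] =>
    simp [bcR, pc, nh, alg_psum]
  | [_] =>
    simp [bcR, pc, nh, alg_psum]
  | [h, s] =>
    have h1 := hb h (by simp)
    have h2 := hb s (by simp)
    have h3 : h ≠ s := by
      simp only [List.nodup_cons, List.mem_singleton] at hnd
      exact hnd.1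
    have e1 : alg_psum n (fun p q => (pc [h, s] p q : ℝ) * e p q) = 1000 * e h s := by
      rw [← alg_pair_sum h1 h2 h3 1000 e hsym]
      refine alg_psum_congr n fun p q => ?_
      have : pc [h, s] p q = if sm h s p q = true then 1000 else 0 := by
        simp only [pc, Bool.cond_eq_ite]
      rw [this]
      split_ifs <;> simp
    have e2 : ∑ p ∈ Finset.range n, (nh [h, s] p : ℝ) * r p = r s := by
      rw [← alg_one_sum h2 r]
      refine Finset.sum_congr rfl fun p _ => ?_
      have : nh [h, s] p = if s = p then 1 else 0 := by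
        simp only [nh, Bool.cond_eq_ite, Nat.beq_eq]
      rw [this]
      split_ifs <;> simp
    rw [e1, e2]
    simp only [bcR]
    ring
  | [h, s, t] =>
    have h1 := hb h (by simp)
    have h2 := hb s (by simp)
    have h3 := hb t (by simp)
    have h4 : h ≠ s := by
      simp only [List.nodup_cons, List.mem_cons] at hnd
      tauto
    have h5 : h ≠ t := by
      simp only [List.nodup_cons, List.mem_cons] at hnd
      tauto
    have e1 : alg_psum n (fun p q => (pc [h, s, t] p q : ℝ) * e p q) =
        1367 * e h s + 1000 * e h t := by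
      rw [← alg_pair_sum h1 h2 h4 1367 e hsym, ← alg_pair_sum h1 h3 h5 1000 e hsym, ← alg_psum_add]
      refine alg_psum_congr n fun p q => ?_
      have : pc [h, s, t] p q = (if sm h s p q = true then 1367 else 0) +
          (if sm h t p q = true then 1000 else 0) := by
        simp only [pc, Bool.cond_eq_ite]
        rfl
      rw [this]
      split_ifs <;> simp <;> ring
    have e2 : ∑ p ∈ Finset.range n, (nh [h, s, t] p : ℝ) * r p = r s + r t := by
      rw [← alg_one_sum h2 r, ← alg_one_sum h3 r, ← Finset.sum_add_distrib]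
      refine Finset.sum_congr rfl fun p _ => ?_
      have : nh [h, s, t] p = (if s = p then 1 else 0) + (if t = p then 1 else 0) := by
        simp only [nh, Bool.cond_eq_ite, Nat.beq_eq]
        rfl
      rw [this]
      split_ifs <;> simp <;> ring
    rw [e1, e2]
    simp only [bcR]
    ring
  | _ :: _ :: _ :: _ :: l =>
    simp only [List.length_cons] at hl
    omega

theorem alg_bs_identity {n : ℕ} {bs : List (List ℕ)} (hb : bsOK n bs = true)
    (e : ℕ → ℕ → ℝ) (hsym : ∀ p q, e p q = e q p) (r : ℕ → ℝ) :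
    1000 * bcs (367 / 1000) e r bs = alg_psum n (fun p q => (pcs bs p q : ℝ) * e p q) -
      1000 * ∑ p ∈ Finset.range n, (nhs bs p : ℝ) * r p := by
  obtain ⟨b1, b2, rfl⟩ := bsOK_two hb
  obtain ⟨_, l1, _, l2, hperm⟩ := bsOK_iff.mp hb
  have hnd : (b1 ++ b2).Nodup := hperm.nodup_iff.mpr List.nodup_range
  have hm1 : ∀ p ∈ b1, p < n := fun p hp =>
    List.mem_range.mp (hperm.mem_iff.mp (List.mem_append_left _ hp))
  have hm2 : ∀ p ∈ b2, p < n := fun p hp =>
    List.mem_range.mp (hperm.mem_iff.mp (List.mem_append_right _ hp))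
  have i1 := alg_block_identity hm1 (List.Nodup.of_append_left hnd) l1 e hsym r
  have i2 := alg_block_identity hm2 (List.Nodup.of_append_right hnd) l2 e hsym r
  have e1 : alg_psum n (fun p q => (pcs [b1, b2] p q : ℝ) * e p q) =
      alg_psum n (fun p q => (pc b1 p q : ℝ) * e p q) + alg_psum n (fun p q => (pc b2 p q : ℝ) * e p q) := by
    rw [← alg_psum_add]
    refine alg_psum_congr n fun p q => ?_
    have : pcs [b1, b2] p q = pc b1 p q + pc b2 p q := rfl
    rw [this]
    push_cast
    ring
  have e2 : ∑ p ∈ Finset.range n, (nhs [b1, b2] p : ℝ) * r p =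
      ∑ p ∈ Finset.range n, (nh b1 p : ℝ) * r p + ∑ p ∈ Finset.range n, (nh b2 p : ℝ) * r p := by
    rw [← Finset.sum_add_distrib]
    refine Finset.sum_congr rfl fun p _ => ?_
    have : nhs [b1, b2] p = nh b1 p + nh b2 p := rfl
    rw [this]
    push_cast
    ring
  rw [e1, e2]
  simp only [bcs]
  linarith

theorem alg_ws_identity {n : ℕ} {ws : List (ℕ × List (List ℕ))} (hws : wsOK n ws = true)
    (e : ℕ → ℕ → ℝ) (hsym : ∀ p q, e p q = e q p) (r : ℕ → ℝ) :
    (ws.map (fun x => (x.1 : ℝ) * (1000 * bcs (367 / 1000) e r x.2))).sum =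
      alg_psum n (fun p q => (wC ws p q : ℝ) * e p q) -
        1000 * ∑ p ∈ Finset.range n, (wN ws p : ℝ) * r p := by
  induction ws with
  | nil => simp [wC, wN, alg_psum]
  | cons x l ih =>
    have hx : bsOK n x.2 = true := wsOK_iff.mp hws x (by simp)
    have hl : wsOK n l = true := wsOK_iff.mpr fun y hy => wsOK_iff.mp hws y (by simp [hy])
    rw [List.map_cons, List.sum_cons, ih hl, alg_bs_identity hx e hsym r]
    have e1 : alg_psum n (fun p q => (wC (x :: l) p q : ℝ) * e p q) =
        (x.1 : ℝ) * alg_psum n (fun p q => (pcs x.2 p q : ℝ) * e p q) +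
          alg_psum n (fun p q => (wC l p q : ℝ) * e p q) := by
      rw [← alg_psum_smul, ← alg_psum_add]
      refine alg_psum_congr n fun p q => ?_
      have : wC (x :: l) p q = x.1 * pcs x.2 p q + wC l p q := rfl
      rw [this]
      push_cast
      ring
    have e2 : ∑ p ∈ Finset.range n, (wN (x :: l) p : ℝ) * r p =
        (x.1 : ℝ) * ∑ p ∈ Finset.range n, (nhs x.2 p : ℝ) * r p +
          ∑ p ∈ Finset.range n, (wN l p : ℝ) * r p := by
      rw [Finset.mul_sum, ← Finset.sum_add_distrib]
      refine Finset.sum_congr rfl fun p _ => ?_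
      have : wN (x :: l) p = x.1 * nhs x.2 p + wN l p := rfl
      rw [this]
      push_cast
      ring
    rw [e1, e2]
    ring

theorem alg_identity {n : ℕ} {ws : List (ℕ × List (List ℕ))} (hws : wsOK n ws = true)
    (e : ℕ → ℕ → ℝ) (hsym : ∀ p q, e p q = e q p) (r : ℕ → ℝ) :
    (ws.map (fun x => (x.1 : ℝ) * (1000 * bcs (367 / 1000) e r x.2))).sum =
      ((mkC n ws).map (fun x => (x.2.2 : ℝ) * e x.1 x.2.1)).sum -
        1000 * ∑ p ∈ Finset.range n, (wN ws p : ℝ) * r p := by
  rw [mkC_sum', alg_ws_identity hws e hsym r]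
  rfl

end T3
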