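import Pool.Agent.Lib.MP_675adf_co.DBas

/-! Basic lemmas on the functions of the checker. -/

open Real

namespace T3

@[simp] theorem nth_nil {α : Type} (d : α) (i : ℕ) : nth d [] i = d := rfl
@[simp] theorem nth_cons_zero {α : Type} (d a : α) (l : List α) : nth d (a :: l) 0 = a := rfl
@[simp] theorem nth_cons_succ {α : Type} (d a : α) (l : List α) (i : ℕ) :
    nth d (a :: l) (i + 1) = nth d l i := rfl

theorem nth_eq {α : Type} (d : α) (l : List α) (i : ℕ) : nth d l i = l.getD i d := by
  induction l generalizing i with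
  | nil => simp
  | cons a l ih =>
    cases i with
    | zero => simp
    | succ i => simp [ih]

theorem nth_mem {α : Type} (d : α) {l : List α} {i : ℕ} (h : i < l.length) : nth d l i ∈ l := by
  rw [nth_eq, List.getD_eq_getElem _ _ h]
  exact List.getElem_mem h

theorem nth_ge {α : Type} (d : α) {l : List α} {i : ℕ} (h : l.length ≤ i) : nth d l i = d := by
  rw [nth_eq, List.getD_eq_default _ _ h]

theorem drp_eq {α : Type} (l : List α) (i : ℕ) : drp l i = l.drop i := by
  induction i generalizing l with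
  | zero => rfl
  | succ i ih =>
    cases l with
    | nil => rfl
    | cons a l => exact ih l

theorem len_eq {α : Type} (l : List α) : len l = l.length := by
  induction l with
  | nil => rfl
  | cons a l ih => exact congrArg Nat.succ ih

theorem mem_eq (i : ℕ) (l : List ℕ) : mem i l = true ↔ i ∈ l := by
  induction l with
  | nil => simp [mem]
  | cons a l ih =>
    have : mem i (a :: l) = (Nat.beq a i || mem i l) := rfl
    rw [this, Bool.or_eq_true, ih, Nat.beq_eq, List.mem_cons]
    constructor
    · rintro (h | h)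
      · exact Or.inl h.symm
      · exact Or.inr h
    · rintro (h | h)
      · exact Or.inl h.symm
      · exact Or.inr h

theorem lsum_eq (G : List ℕ) : lsum G = G.sum := by
  induction G with
  | nil => rfl
  | cons a l ih =>
    have : lsum (a :: l) = a + lsum l := rfl
    rw [this, ih, List.sum_cons]

theorem lsum_range {G : List ℕ} {n : ℕ} (h : G.length = n) :
    (lsum G : ℝ) = ∑ p ∈ Finset.range n, ((nth 0 G p : ℕ) : ℝ) := by
  induction G generalizing n with
  | nil => subst h; simp [lsum]
  | cons a l ih =>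
    subst h
    have : lsum (a :: l) = a + lsum l := rfl
    rw [this, List.length_cons, Finset.sum_range_succ']
    simp only [nth_cons_succ, nth_cons_zero]
    rw [← ih rfl]
    push_cast
    ring

theorem linG_range {G : List ℕ} {n : ℕ} (h : G.length = n) (f : ℕ → ℕ) :
    (linG G ((List.range n).map f) : ℝ) =
      ∑ p ∈ Finset.range n, ((nth 0 G p : ℕ) : ℝ) * (f p : ℝ) := by
  induction G generalizing n f with
  | nil => subst h; simp [linG]
  | cons a l ih =>
    subst h
    rw [List.length_cons, List.range_succ_eq_map, List.map_cons, List.map_map]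
    have : linG (a :: l) (f 0 :: List.map (f ∘ Nat.succ) (List.range l.length)) =
        a * f 0 + linG l (List.map (f ∘ Nat.succ) (List.range l.length)) := rfl
    rw [this, Finset.sum_range_succ']
    simp only [nth_cons_succ, nth_cons_zero]
    push_cast
    rw [ih rfl]
    simp [Function.comp]
    ring

theorem nrec_all (n : ℕ) (f : ℕ → Bool) :
    (Nat.rec (motive := fun _ => Bool) true (fun k ih => and (f k) ih) n : Bool) = true ↔
      ∀ k < n, f k = true := by
  induction n with
  | zero => simp
  | succ n ih =>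
    simp only [Bool.and_eq_true, ih]
    constructor
    · rintro ⟨h1, h2⟩ k hk
      rcases Nat.lt_succ_iff_lt_or_eq.mp hk with h | h
      · exact h2 k h
      · exact h ▸ h1
    · intro h
      exact ⟨h n (Nat.lt_succ_self n), fun k hk => h k (Nat.lt_succ_of_lt hk)⟩

theorem bsOK_two {n : ℕ} {bs : List (List ℕ)} (h : bsOK n bs = true) :
    ∃ b1 b2, bs = [b1, b2] := by
  match bs, h with
  | [b1, b2], _ => exact ⟨b1, b2, rfl⟩

theorem bsOK_iff {n : ℕ} {b1 b2 : List ℕ} : bsOK n [b1, b2] = true ↔
    1 ≤ b1.length ∧ b1.length ≤ 3 ∧ 1 ≤ b2.length ∧ b2.length ≤ 3 ∧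
      (b1 ++ b2).Perm (List.range n) := by
  have : bsOK n [b1, b2] = (Nat.ble 1 (len b1) && Nat.ble (len b1) 3 && Nat.ble 1 (len b2) &&
      Nat.ble (len b2) 3 && Nat.beq (Nat.add (len b1) (len b2)) n &&
      Nat.rec (motive := fun _ => Bool) true (fun k ih => and (mem k (b1 ++ b2)) ih) n) := rfl
  rw [this]
  simp only [Bool.and_eq_true, Nat.ble_eq, Nat.beq_eq, len_eq, nrec_all, mem_eq]
  constructor
  · rintro ⟨⟨⟨⟨⟨h1, h2⟩, h3⟩, h4⟩, h5⟩, h6⟩
    refine ⟨h1, h2, h3, h4, ?_⟩
    have hsub : List.range n ⊆ b1 ++ b2 := fun k hk => h6 k (List.mem_range.mp hk)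
    have hsp : (List.range n).Subperm (b1 ++ b2) := List.subperm_of_subset List.nodup_range hsub
    refine (hsp.perm_of_length_le ?_).symm
    rw [List.length_append, List.length_range]
    exact le_of_eq h5
  · rintro ⟨h1, h2, h3, h4, h5⟩
    refine ⟨⟨⟨⟨⟨h1, h2⟩, h3⟩, h4⟩, ?_⟩, ?_⟩
    · have := h5.length_eq
      rw [List.length_append, List.length_range] at this
      exact this
    · intro k hk
      exact h5.mem_iff.mpr (List.mem_range.mpr hk)

theorem wsOK_iff {n : ℕ} {ws : List (ℕ × List (List ℕ))} : wsOK n ws = true ↔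
    ∀ x ∈ ws, bsOK n x.2 = true := by
  induction ws with
  | nil => simp [wsOK]
  | cons a l ih =>
    have : wsOK n (a :: l) = (bsOK n a.2 && wsOK n l) := rfl
    rw [this, Bool.and_eq_true, ih]
    simp

theorem wC_eq (ws : List (ℕ × List (List ℕ))) (p q : ℕ) :
    wC ws p q = (ws.map (fun x => x.1 * pcs x.2 p q)).sum := by
  induction ws with
  | nil => rfl
  | cons a l ih =>
    have : wC (a :: l) p q = a.1 * pcs a.2 p q + wC l p q := rfl
    rw [this, ih, List.map_cons, List.sum_cons]

theorem wN_eq (ws : List (ℕ × List (List ℕ))) (p : ℕ) :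
    wN ws p = (ws.map (fun x => x.1 * nhs x.2 p)).sum := by
  induction ws with
  | nil => rfl
  | cons a l ih =>
    have : wN (a :: l) p = a.1 * nhs a.2 p + wN l p := rfl
    rw [this, ih, List.map_cons, List.sum_cons]

theorem wW_eq (ws : List (ℕ × List (List ℕ))) : wW ws = (ws.map (fun x => x.1)).sum := by
  induction ws with
  | nil => rfl
  | cons a l ih =>
    have : wW (a :: l) = a.1 + wW l := rfl
    rw [this, ih, List.map_cons, List.sum_cons]

theorem mkC_mem (n : ℕ) (ws : List (ℕ × List (List ℕ))) (x : ℕ × ℕ × ℕ) (hx : x ∈ mkC n ws) :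
    x.1 < x.2.1 ∧ x.2.1 < n := by
  unfold mkC at hx
  simp only [List.mem_flatMap, List.mem_range, List.mem_map] at hx
  obtain ⟨p, hp, d, hd, rfl⟩ := hx
  constructor <;> simp <;> omega

theorem range_map_sum (n : ℕ) (f : ℕ → ℝ) :
    ((List.range n).map f).sum = ∑ i ∈ Finset.range n, f i := by
  induction n with
  | zero => simp
  | succ n ih =>
    rw [List.range_succ, List.map_append, List.sum_append, ih, Finset.sum_range_succ]
    simp

theorem flatMap_sum {α β : Type} (L : List α) (g : α → List β) (f : β → ℝ) :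
    ((L.flatMap g).map f).sum = (L.map (fun a => ((g a).map f).sum)).sum := by
  induction L with
  | nil => simp
  | cons a l ih => simp [List.flatMap_cons, ih]

/-- the sum over mkC as a double sum -/
theorem mkC_sum (n : ℕ) (ws : List (ℕ × List (List ℕ))) (f : ℕ × ℕ × ℕ → ℝ) :
    ((mkC n ws).map f).sum =
      ∑ p ∈ Finset.range n, ∑ d ∈ Finset.range (n - 1 - p),
        f (p, p + 1 + d, wC ws p (p + 1 + d)) := by
  unfold mkC
  rw [flatMap_sum, range_map_sum]
  refine Finset.sum_congr rfl fun p _ => ?_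
  rw [List.map_map, range_map_sum]
  rfl

/-- the sum over mkC as a sum over all p < q < n -/
theorem mkC_sum' (n : ℕ) (ws : List (ℕ × List (List ℕ))) (f : ℕ × ℕ × ℕ → ℝ) :
    ((mkC n ws).map f).sum =
      ∑ p ∈ Finset.range n, ∑ q ∈ Finset.range n, if p < q then f (p, q, wC ws p q) else 0 := by
  rw [mkC_sum]
  refine Finset.sum_congr rfl fun p hp => ?_
  have hp' := Finset.mem_range.mp hp
  rw [← Finset.sum_filter]
  refine Finset.sum_nbij (fun d => p + 1 + d) ?_ ?_ ?_ ?_
  · intro d hd
    have := Finset.mem_range.mp hd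
    simp only [Finset.mem_filter, Finset.mem_range]
    omega
  · intro a _ b _ hab
    simpa using hab
  · intro q hq
    simp only [Finset.coe_filter, Finset.mem_range, Set.mem_ofPred_eq] at hq
    refine ⟨q - (p + 1), ?_, ?_⟩
    · simp only [Finset.coe_range, Set.mem_Iio]; omega
    · simp only; omega
  · intro d _
    rfl

theorem gval_def (gens : List (List ℕ)) (lam : ℕ → ℝ) (p : ℕ) : gval gens lam p =
    ∑ k ∈ Finset.range gens.length, lam k * ((nth 0 (nth [] gens k) p : ℕ) : ℝ) := rfl

theorem bcR_nonneg_congr {β : ℝ} {e e' : ℕ → ℕ → ℝ} {r r' : ℕ → ℝ} {n : ℕ} {b : List ℕ}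
    (hb : ∀ p ∈ b, p < n) (he : ∀ p < n, ∀ q < n, e p q = e' p q) (hr : ∀ p < n, r p = r' p) :
    bcR β e r b = bcR β e' r' b := by
  match b with
  | [] => rfl
  | [_] => rfl
  | [h, s] =>
    have h1 := hb h (by simp)
    have h2 := hb s (by simp)
    simp only [bcR]
    rw [he h h1 s h2, hr s h2]
  | [h, s, t] =>
    have h1 := hb h (by simp)
    have h2 := hb s (by simp)
    have h3 := hb t (by simp)
    simp only [bcR]
    rw [he h h1 s h2, hr s h2, he h h1 t h3, hr t h3]
  | _ :: _ :: _ :: _ :: _ => rfl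

theorem good_congr {n pt : ℕ} (hpt : pt < n) {r r' U : ℕ → ℝ} (h : ∀ p < n, r p = r' p)
    (hG : Good n pt r U) : Good n pt r' U := by
  obtain ⟨b1, b2, hb, hle⟩ := hG
  refine ⟨b1, b2, hb, ?_⟩
  have hperm := (bsOK_iff.mp hb).2.2.2.2
  have h1 : ∀ p ∈ b1, p < n := fun p hp =>
    List.mem_range.mp (hperm.mem_iff.mp (List.mem_append_left _ hp))
  have h2 : ∀ p ∈ b2, p < n := fun p hp =>
    List.mem_range.mp (hperm.mem_iff.mp (List.mem_append_right _ hp))
  have he : ∀ p < n, ∀ q < n, dd r U p q = dd r' U p q := by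
    intro p hp q hq
    unfold dd
    rw [h p hp, h q hq]
  rw [← bcR_nonneg_congr h1 he h, ← bcR_nonneg_congr h2 he h, ← h pt hpt,
    ← Finset.sum_congr rfl (fun p hp => h p (Finset.mem_range.mp hp))]
  exact hle

end T3
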