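import Pool.Agent.Lib.MP_675adf_co.Api

/-! Degree 3 spanning trees: the quadratic majorants of the table `base`. -/

open Real

namespace T3

/-- one majorant with rational bounds for the cosine and the sine of the base angle -/
theorem base_gen (hq : QuadStm) (k : ℕ) (hk : 1 ≤ k) (hk' : k ≤ 24) (clo chi slo shi al be : ℝ)
    (hc1 : clo ≤ Real.cos (k * π / 24)) (hc2 : Real.cos (k * π / 24) ≤ chi)
    (hs1 : slo ≤ Real.sin (k * π / 24)) (hs2 : Real.sin (k * π / 24) ≤ shi) (hs0 : 0 ≤ slo)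
    (hA : 10000000 * (2 * (1 - clo) * (48 / k) - 2 * 3.14159265358979323846 * slo) ≤ al)
    (hB : 10000000 * (2 * 3.14159265358979323847 * shi * (k / 48) - (1 - chi)) * (48 / k) ^ 2
      ≤ be)
    (x : ℝ) (h0 : 0 ≤ x) (h1 : x ≤ 1 / 2) :
    10000000 * (1 - Real.cos (2 * π * x)) ≤ al * x + be * x ^ 2 := by
  have hpi := Real.pi_pos
  have hkr : (1 : ℝ) ≤ k := by exact_mod_cast hk
  have hkr' : (k : ℝ) ≤ 24 := by exact_mod_cast hk'
  have hk0 : (0 : ℝ) < k := by linarith
  have ht0 : 0 < (k : ℝ) * π / 24 := by positivity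
  have ht0' : (k : ℝ) * π / 24 ≤ π := by nlinarith
  have ht : 0 ≤ 2 * π * x := by positivity
  have ht' : 2 * π * x ≤ π := by nlinarith
  have h := hq _ _ ht0 ht0' ht ht'
  set c := Real.cos ((k : ℝ) * π / 24) with hcdef
  set s := Real.sin ((k : ℝ) * π / 24) with hsdef
  have e1 : ((2 * (1 - c) - (k : ℝ) * π / 24 * s) / ((k : ℝ) * π / 24)) * (2 * π * x) =
      (2 * (1 - c) * (48 / k) - 2 * π * s) * x := by
    field_simp
    ring
  have e2 : ((c + (k : ℝ) * π / 24 * s - 1) / ((k : ℝ) * π / 24) ^ 2) * (2 * π * x) ^ 2 =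
      ((2 * π * s * (k / 48) - (1 - c)) * (48 / k) ^ 2) * x ^ 2 := by
    field_simp
    ring
  rw [e1, e2] at h
  have hp1 := Real.pi_gt_d20
  have hp2 := Real.pi_lt_d20
  have hs0' : 0 ≤ s := le_trans hs0 hs1
  have a1 : 2 * 3.14159265358979323846 * slo ≤ 2 * π * s := by
    have : 3.14159265358979323846 * slo ≤ π * s :=
      mul_le_mul hp1.le hs1 hs0 hpi.le
    linarith
  have a2 : 2 * π * s * (k / 48) ≤ 2 * 3.14159265358979323847 * shi * (k / 48) := by
    have : π * s ≤ 3.14159265358979323847 * shi :=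
      mul_le_mul hp2.le hs2 hs0' (by norm_num)
    have h48 : (0 : ℝ) ≤ k / 48 := by positivity
    nlinarith
  have a3 : 2 * (1 - c) * (48 / k) ≤ 2 * (1 - clo) * (48 / (k : ℝ)) := by
    have h48 : (0 : ℝ) ≤ 48 / k := by positivity
    nlinarith
  have hA' : 10000000 * (2 * (1 - c) * (48 / k) - 2 * π * s) ≤ al := by linarith
  have hB' : 10000000 * ((2 * π * s * (k / 48) - (1 - c)) * (48 / k) ^ 2) ≤ be := by
    have h48 : (0 : ℝ) ≤ (48 / (k : ℝ)) ^ 2 := by positivity
    have : (2 * π * s * (k / 48) - (1 - c)) * (48 / (k : ℝ)) ^ 2 ≤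
        (2 * 3.14159265358979323847 * shi * (k / 48) - (1 - chi)) * (48 / (k : ℝ)) ^ 2 :=
      mul_le_mul_of_nonneg_right (by linarith) h48
    linarith
  have b1 := mul_le_mul_of_nonneg_right hA' h0
  have b2 := mul_le_mul_of_nonneg_right hB' (sq_nonneg x)
  linarith

theorem sin_lo_form {k j : ℕ} (h : k + j = 12) :
    Real.sin ((k : ℝ) * π / 24) = Real.cos ((j : ℝ) * π / 24) := by
  rw [← Real.cos_pi_div_two_sub]
  congr 1
  have : (k : ℝ) + j = 12 := by exact_mod_cast h
  have hj : (j : ℝ) = 12 - k := by linarith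
  rw [hj]
  ring

theorem sin_hi_form {k j : ℕ} (h : k = 12 + j) :
    Real.sin ((k : ℝ) * π / 24) = Real.cos ((j : ℝ) * π / 24) := by
  rw [← Real.cos_pi_div_two_sub, ← Real.cos_neg]
  congr 1
  have hk : (k : ℝ) = 12 + j := by exact_mod_cast h
  rw [hk]
  ring

theorem cos_hi_form {k j : ℕ} (h : k + j = 24) :
    Real.cos ((k : ℝ) * π / 24) = - Real.cos ((j : ℝ) * π / 24) := by
  rw [← Real.cos_pi_sub]
  congr 1
  have : (k : ℝ) + j = 24 := by exact_mod_cast h
  have hk : (k : ℝ) = 24 - j := by linarith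
  rw [hk]
  ring

/-- case k <= 12: cosine number k, sine from number j = 12 - k -/
theorem base_lo (hq : QuadStm) (hc : CosBStm) (k j : ℕ) (hk : 1 ≤ k) (hkj : k + j = 12)
    (al be : ℤ) (c1 c2 s1 s2 : ℤ) (hb : nth (0, 0) base k = (al, be))
    (hcb : nth (0, 0) cosB k = (c1, c2))
    (hsb : nth (0, 0) cosB j = (s1, s2)) (hs0 : (0 : ℝ) ≤ s1)
    (hA : (10000000 : ℝ) * (2 * (1 - c1 / 100000000000000) * (48 / k) -
      2 * 3.14159265358979323846 * (s1 / 100000000000000)) ≤ al)
    (hB : (10000000 : ℝ) * (2 * 3.14159265358979323847 * (s2 / 100000000000000) * (k / 48) -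
      (1 - c2 / 100000000000000)) * (48 / k) ^ 2 ≤ be)
    (x : ℝ) (h0 : 0 ≤ x) (h1 : x ≤ 1 / 2) :
    10000000 * (1 - Real.cos (2 * π * x)) ≤
      ((nth (0, 0) base k).1 : ℝ) * x + ((nth (0, 0) base k).2 : ℝ) * x ^ 2 := by
  rw [hb]
  dsimp only
  have hk12 := hc k (by omega)
  have hj12 := hc j (by omega)
  rw [hcb] at hk12
  rw [hsb, ← sin_lo_form hkj] at hj12
  obtain ⟨p1, p2⟩ := hk12
  obtain ⟨q1, q2⟩ := hj12
  dsimp only at p1 p2 q1 q2
  refine base_gen hq k hk (by omega) (c1 / 100000000000000) (c2 / 100000000000000)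
    (s1 / 100000000000000) (s2 / 100000000000000) al be ?_ ?_ ?_ ?_ (by positivity) hA hB x h0 h1
  all_goals
    first
      | (rw [div_le_iff₀ (by norm_num)]; linarith)
      | (rw [le_div_iff₀ (by norm_num)]; linarith)

/-- case k > 12: minus the cosine number 24 - k, sine from number k - 12 -/
theorem base_hi (hq : QuadStm) (hc : CosBStm) (k i j : ℕ) (hki : k + i = 24) (hkj : k = 12 + j)
    (hj : j ≤ 12)
    (al be : ℤ) (c1 c2 s1 s2 : ℤ) (hb : nth (0, 0) base k = (al, be))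
    (hcb : nth (0, 0) cosB i = (c1, c2))
    (hsb : nth (0, 0) cosB j = (s1, s2)) (hs0 : (0 : ℝ) ≤ s1)
    (hA : (10000000 : ℝ) * (2 * (1 + c2 / 100000000000000) * (48 / k) -
      2 * 3.14159265358979323846 * (s1 / 100000000000000)) ≤ al)
    (hB : (10000000 : ℝ) * (2 * 3.14159265358979323847 * (s2 / 100000000000000) * (k / 48) -
      (1 + c1 / 100000000000000)) * (48 / k) ^ 2 ≤ be)
    (x : ℝ) (h0 : 0 ≤ x) (h1 : x ≤ 1 / 2) :
    10000000 * (1 - Real.cos (2 * π * x)) ≤
      ((nth (0, 0) base k).1 : ℝ) * x + ((nth (0, 0) base k).2 : ℝ) * x ^ 2 := by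
  rw [hb]
  dsimp only
  have hk12 := hc i (by omega)
  have hj12 := hc j (by omega)
  rw [hcb] at hk12
  rw [hsb, ← sin_hi_form hkj] at hj12
  obtain ⟨p1, p2⟩ := hk12
  obtain ⟨q1, q2⟩ := hj12
  dsimp only at p1 p2 q1 q2
  have hch := cos_hi_form hki
  refine base_gen hq k (by omega) (by omega) (-(c2 / 100000000000000))
    (-(c1 / 100000000000000))
    (s1 / 100000000000000) (s2 / 100000000000000) al be ?_ ?_ ?_ ?_ (by positivity)
    (by rw [sub_neg_eq_add]; exact hA) (by rw [sub_neg_eq_add]; exact hB) x h0 h1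
  · rw [hch, neg_le_neg_iff, le_div_iff₀ (by norm_num)]; linarith
  · rw [hch, neg_le_neg_iff, div_le_iff₀ (by norm_num)]; linarith
  · rw [div_le_iff₀ (by norm_num)]; linarith
  · rw [le_div_iff₀ (by norm_num)]; linarith

theorem base_zero (x : ℝ) :
    10000000 * (1 - Real.cos (2 * π * x)) ≤ ((0 : ℤ) : ℝ) * x + ((197392090 : ℤ) : ℝ) * x ^ 2 := by
  have h := Real.one_sub_sq_div_two_le_cos (x := 2 * π * x)
  have hp := Real.pi_lt_d20
  have hp0 := Real.pi_pos
  have h1 : π ^ 2 ≤ 3.14159265358979323847 ^ 2 := by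
    gcongr
  have h2 : 10000000 * (2 * π ^ 2) ≤ (197392090 : ℝ) := by
    have : (10000000 : ℝ) * (2 * 3.14159265358979323847 ^ 2) ≤ 197392090 := by norm_num
    linarith
  have h3 := mul_le_mul_of_nonneg_right h2 (sq_nonneg x)
  push_cast
  nlinarith

theorem base_ok (hq : QuadStm) (hc : CosBStm) : BaseStm := by
  intro k hk x h0 h1
  rcases Nat.eq_zero_or_pos k with rfl | hk1
  · exact base_zero x
  rcases Nat.lt_or_ge 12 k with h12 | h12
  · interval_cases k
    · exact base_hi hq hc 13 11 1 rfl rfl (by norm_num) _ _ _ _ _ _ rfl rfl rfl (by norm_num)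
        (by norm_num) (by norm_num) x h0 h1
    · exact base_hi hq hc 14 10 2 rfl rfl (by norm_num) _ _ _ _ _ _ rfl rfl rfl (by norm_num)
        (by norm_num) (by norm_num) x h0 h1
    · exact base_hi hq hc 15 9 3 rfl rfl (by norm_num) _ _ _ _ _ _ rfl rfl rfl (by norm_num)
        (by norm_num) (by norm_num) x h0 h1
    · exact base_hi hq hc 16 8 4 rfl rfl (by norm_num) _ _ _ _ _ _ rfl rfl rfl (by norm_num)
        (by norm_num) (by norm_num) x h0 h1
    · exact base_hi hq hc 17 7 5 rfl rfl (by norm_num) _ _ _ _ _ _ rfl rfl rfl (by norm_num)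
        (by norm_num) (by norm_num) x h0 h1
    · exact base_hi hq hc 18 6 6 rfl rfl (by norm_num) _ _ _ _ _ _ rfl rfl rfl (by norm_num)
        (by norm_num) (by norm_num) x h0 h1
    · exact base_hi hq hc 19 5 7 rfl rfl (by norm_num) _ _ _ _ _ _ rfl rfl rfl (by norm_num)
        (by norm_num) (by norm_num) x h0 h1
    · exact base_hi hq hc 20 4 8 rfl rfl (by norm_num) _ _ _ _ _ _ rfl rfl rfl (by norm_num)
        (by norm_num) (by norm_num) x h0 h1
    · exact base_hi hq hc 21 3 9 rfl rfl (by norm_num) _ _ _ _ _ _ rfl rfl rfl (by norm_num)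
        (by norm_num) (by norm_num) x h0 h1
    · exact base_hi hq hc 22 2 10 rfl rfl (by norm_num) _ _ _ _ _ _ rfl rfl rfl (by norm_num)
        (by norm_num) (by norm_num) x h0 h1
    · exact base_hi hq hc 23 1 11 rfl rfl (by norm_num) _ _ _ _ _ _ rfl rfl rfl (by norm_num)
        (by norm_num) (by norm_num) x h0 h1
    · exact base_hi hq hc 24 0 12 rfl rfl (by norm_num) _ _ _ _ _ _ rfl rfl rfl (by norm_num)
        (by norm_num) (by norm_num) x h0 h1
  · interval_cases k
    · exact base_lo hq hc 1 11 (by norm_num) rfl _ _ _ _ _ _ rfl rfl rfl (by norm_num)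
        (by norm_num) (by norm_num) x h0 h1
    · exact base_lo hq hc 2 10 (by norm_num) rfl _ _ _ _ _ _ rfl rfl rfl (by norm_num)
        (by norm_num) (by norm_num) x h0 h1
    · exact base_lo hq hc 3 9 (by norm_num) rfl _ _ _ _ _ _ rfl rfl rfl (by norm_num)
        (by norm_num) (by norm_num) x h0 h1
    · exact base_lo hq hc 4 8 (by norm_num) rfl _ _ _ _ _ _ rfl rfl rfl (by norm_num)
        (by norm_num) (by norm_num) x h0 h1
    · exact base_lo hq hc 5 7 (by norm_num) rfl _ _ _ _ _ _ rfl rfl rfl (by norm_num)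
        (by norm_num) (by norm_num) x h0 h1
    · exact base_lo hq hc 6 6 (by norm_num) rfl _ _ _ _ _ _ rfl rfl rfl (by norm_num)
        (by norm_num) (by norm_num) x h0 h1
    · exact base_lo hq hc 7 5 (by norm_num) rfl _ _ _ _ _ _ rfl rfl rfl (by norm_num)
        (by norm_num) (by norm_num) x h0 h1
    · exact base_lo hq hc 8 4 (by norm_num) rfl _ _ _ _ _ _ rfl rfl rfl (by norm_num)
        (by norm_num) (by norm_num) x h0 h1
    · exact base_lo hq hc 9 3 (by norm_num) rfl _ _ _ _ _ _ rfl rfl rfl (by norm_num)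
        (by norm_num) (by norm_num) x h0 h1
    · exact base_lo hq hc 10 2 (by norm_num) rfl _ _ _ _ _ _ rfl rfl rfl (by norm_num)
        (by norm_num) (by norm_num) x h0 h1
    · exact base_lo hq hc 11 1 (by norm_num) rfl _ _ _ _ _ _ rfl rfl rfl (by norm_num)
        (by norm_num) (by norm_num) x h0 h1
    · exact base_lo hq hc 12 0 (by norm_num) rfl _ _ _ _ _ _ rfl rfl rfl (by norm_num)
        (by norm_num) (by norm_num) x h0 h1

end T3
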