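import Pool.Agent.Lib.MP_675adf_co.Api

/-! Degree 3 spanning trees, module Bnd: the interpolated lines are upper bounds. -/

open Real

namespace T3

theorem cmb_cast (l x y : ℕ) (hl : l < 4096) :
    ((cmb l x y : ℕ) : ℝ) = (4096 - (l : ℝ)) * x + (l : ℝ) * y := by
  unfold cmb
  simp only [Nat.add_eq, Nat.mul_eq, Nat.sub_eq]
  rw [Nat.cast_add, Nat.cast_mul, Nat.cast_mul, Nat.cast_sub hl.le]
  norm_num

theorem bnd_aux {tab : List (List (List (ℕ × ℕ)))} (h : TabSound tab) (a b X : ℕ) (x : ℝ)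
    (h0 : 0 ≤ x) (h1 : x ≤ 1) :
    4096000000 * D a b x ≤ (1 - x) * ((bnd tab a b X).1 : ℝ) + x * ((bnd tab a b X).2 : ℝ) := by
  have hmem : ∀ ln ∈ drp (look tab a b) (Nat.div X 4096), ln ∈ look tab a b := by
    intro ln hln
    rw [drp_eq] at hln
    exact List.mem_of_mem_drop hln
  have hl : Nat.mod X 4096 < 4096 := Nat.mod_lt _ (by norm_num)
  unfold bnd
  generalize drp (look tab a b) (Nat.div X 4096) = L at hmem ⊢
  generalize Nat.mod X 4096 = l at hl ⊢
  rcases L with _ | ⟨y, _ | ⟨z, t⟩⟩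
  · have h2 := D_le_add (a : ℝ) b x (Nat.cast_nonneg _) (Nat.cast_nonneg _)
    simp only [Nat.add_eq, Nat.mul_eq]
    push_cast
    nlinarith
  · have h2 := h a b y (hmem y (by simp)) x h0 h1
    simp only [Nat.mul_eq]
    push_cast
    nlinarith
  · have h2 := h a b y (hmem y (by simp)) x h0 h1
    have h3 := h a b z (hmem z (by simp)) x h0 h1
    simp only [cmb_cast l _ _ hl]
    have hl1 : (0 : ℝ) ≤ 4096 - (l : ℝ) := by
      have : (l : ℝ) ≤ 4096 := by exact_mod_cast hl.le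
      linarith
    have hl0 : (0 : ℝ) ≤ (l : ℝ) := Nat.cast_nonneg _
    have h4 := mul_le_mul_of_nonneg_left h2 hl1
    have h5 := mul_le_mul_of_nonneg_left h3 hl0
    calc 4096000000 * D a b x = (4096 - (l : ℝ)) * (1000000 * D a b x) +
          (l : ℝ) * (1000000 * D a b x) := by ring
      _ ≤ (4096 - (l : ℝ)) * ((1 - x) * (y.1 : ℝ) + x * (y.2 : ℝ)) +
          (l : ℝ) * ((1 - x) * (z.1 : ℝ) + x * (z.2 : ℝ)) := add_le_add h4 h5
      _ = (1 - x) * ((4096 - (l : ℝ)) * y.1 + l * z.1) +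
          x * ((4096 - (l : ℝ)) * y.2 + l * z.2) := by ring

theorem bnd_sound {tab : List (List (List (ℕ × ℕ)))} (h : TabSound tab) : BndSound tab := by
  intro a b X x h0 h1
  unfold bndF
  rcases Nat.ble X 98304 with _ | _
  · have h2 := bnd_aux h a b (Nat.sub 196608 X) (1 - x) (by linarith) (by linarith)
    rw [D_one_sub] at h2
    simp only [cond_false]
    linarith
  · simp only [cond_true]
    exact bnd_aux h a b X x h0 h1

end T3
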