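import Pool.Agent.Lib.MP_675adf_co.CertAux

/-! Generated certificates (n = 4, types 1, 2, 3). -/

set_option maxRecDepth 100000

namespace T3

def c4_1 : Cert :=
  .leaf 215338562131992245855365863813258382077119935944 59238314714292413000212442176209448238084377757942622110723924078

theorem c4_1_e : chk tab 4 3 c4_1 [[1, 1, 1, 1], [0, 1, 1, 1], [0, 0, 1, 1], [0, 0, 0, 1]] = true := by decide +kernel

theorem c4_1_ok : chk tab 4 3 c4_1 (ginit 4 [0, 1, 2, 3]) = true := by
  have h : ginit 4 [0, 1, 2, 3] = [[1, 1, 1, 1], [0, 1, 1, 1], [0, 0, 1, 1], [0, 0, 0, 1]] := by decide +kernel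
  rw [h]; exact c4_1_e

def c4_2 : Cert :=
  .leaf 563767873509562038769551263586022047517315477065018892330952 59238314714292413000212442176209450021959695594621346599315759431

theorem c4_2_e : chk tab 4 2 c4_2 [[1, 1, 1, 1], [0, 1, 1, 1], [0, 0, 1, 1], [0, 0, 1, 0]] = true := by decide +kernel

theorem c4_2_ok : chk tab 4 2 c4_2 (ginit 4 [0, 1, 3, 2]) = true := by
  have h : ginit 4 [0, 1, 3, 2] = [[1, 1, 1, 1], [0, 1, 1, 1], [0, 0, 1, 1], [0, 0, 1, 0]] := by decide +kernel
  rw [h]; exact c4_2_e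

def c4_3 : Cert :=
  .leaf 200174055396987609008785007386568678514343785424 59238314714292413000216623581884906990787248275412975244370042951

theorem c4_3_e : chk tab 4 3 c4_3 [[1, 1, 1, 1], [0, 1, 1, 1], [0, 1, 0, 1], [0, 0, 0, 1]] = true := by decide +kernel

theorem c4_3_ok : chk tab 4 3 c4_3 (ginit 4 [0, 2, 1, 3]) = true := by
  have h : ginit 4 [0, 2, 1, 3] = [[1, 1, 1, 1], [0, 1, 1, 1], [0, 1, 0, 1], [0, 0, 0, 1]] := by decide +kernel
  rw [h]; exact c4_3_e

end T3
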