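import Pool.Agent.Lib.MP_675adf_co.Tab

/-! Gluing the certificates of two half cones. -/

namespace T3

theorem chk_node {tab : List (List (List (ℕ × ℕ)))} {n pt i j : ℕ} {v : List ℕ} {l r : Cert}
    {gens gl gr : List (List ℕ)}
    (h0 : (Nat.blt i gens.length && Nat.blt j gens.length && (i != j) &&
      (v == vadd (gens.getD i []) (gens.getD j []))) = true)
    (h1 : gens.set j v = gl) (h2 : gens.set i v = gr)
    (hl : chk tab n pt l gl = true) (hr : chk tab n pt r gr = true) :
    chk tab n pt (.node i j v l r) gens = true := by
  subst h1 h2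
  rw [chk, h0, hl, hr]
  rfl

end T3
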