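import Pool.Agent.Lib.MP_675adf_co.Api

/-! Soundness of the test of one generator. -/

open Real

namespace T3

namespace GenAux

/-- the gaps between consecutive angles, the last one closes the turn -/
noncomputable def vg (n : ℕ) (U : ℕ → ℝ) (s : ℕ) : ℝ :=
  (if s + 1 < n then U (s + 1) else 1) - U s

theorem U_mono {n : ℕ} {U : ℕ → ℝ} (hU : AngOK n U) {p q : ℕ} (hpq : p ≤ q) (hq : q < n) :
    U p ≤ U q := by
  induction q, hpq using Nat.le_induction with
  | base => exact le_refl _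
  | succ q _ ih => exact le_trans (ih (by omega)) (hU.2.1 q hq)

theorem U_le_one {n : ℕ} {U : ℕ → ℝ} (hU : AngOK n U) {p : ℕ} (hp : p < n) : U p ≤ 1 :=
  le_trans (U_mono hU (by omega : p ≤ n - 1) (by omega)) hU.2.2

theorem U_nonneg {n : ℕ} {U : ℕ → ℝ} (hU : AngOK n U) {p : ℕ} (hp : p < n) : 0 ≤ U p := by
  have := U_mono hU (Nat.zero_le p) hp
  rw [hU.1] at this
  exact this

theorem vg_nonneg {n : ℕ} {U : ℕ → ℝ} (hU : AngOK n U) {s : ℕ} (hs : s < n) :
    0 ≤ vg n U s := by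
  unfold vg
  split_ifs with h
  · linarith [hU.2.1 s h]
  · linarith [U_le_one hU hs]

theorem vg_Ico {n : ℕ} (U : ℕ → ℝ) {p q : ℕ} (hpq : p ≤ q) (hq : q < n) :
    ∑ s ∈ Finset.Ico p q, vg n U s = U q - U p := by
  induction q, hpq using Nat.le_induction with
  | base => simp
  | succ q hpq ih =>
    rw [Finset.sum_Ico_succ_top hpq, ih (by omega)]
    unfold vg
    rw [if_pos hq]
    ring

theorem vg_sum {n : ℕ} (hn : 1 ≤ n) {U : ℕ → ℝ} (hU : AngOK n U) :
    ∑ s ∈ Finset.range n, vg n U s = 1 := by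
  obtain ⟨m, rfl⟩ : ∃ m, n = m + 1 := ⟨n - 1, by omega⟩
  rw [Finset.sum_range_succ, Finset.range_eq_Ico, vg_Ico U (Nat.zero_le m) (by omega), hU.1]
  unfold vg
  rw [if_neg (by omega)]
  ring

/-- the contribution of one entry -/
theorem entry_sum {n : ℕ} (hn : 1 ≤ n) {U : ℕ → ℝ} (hU : AngOK n U) {p q : ℕ} (hpq : p < q)
    (hq : q < n) (a b : ℕ) :
    ∑ s ∈ Finset.range n, vg n U s *
      ((cond (and (Nat.ble p s) (Nat.blt s q)) b a : ℕ) : ℝ) =
      (1 - (U q - U p)) * (a : ℝ) + (U q - U p) * (b : ℝ) := by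
  have h1 : ∀ s ∈ Finset.range n, vg n U s *
      ((cond (and (Nat.ble p s) (Nat.blt s q)) b a : ℕ) : ℝ) =
      vg n U s * (a : ℝ) + (if p ≤ s ∧ s < q then vg n U s * ((b : ℝ) - (a : ℝ)) else 0) := by
    intro s _
    by_cases h : p ≤ s ∧ s < q
    · have hc : (and (Nat.ble p s) (Nat.blt s q)) = true := by
        rw [Bool.and_eq_true, Nat.ble_eq, Nat.blt_eq]
        exact h
      rw [hc, if_pos h]
      simp only [cond_true]
      ring
    · have hc : (and (Nat.ble p s) (Nat.blt s q)) = false := by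
        rw [Bool.eq_false_iff]
        intro hh
        rw [Bool.and_eq_true, Nat.ble_eq, Nat.blt_eq] at hh
        exact h hh
      rw [hc, if_neg h]
      simp only [cond_false]
      ring
  rw [Finset.sum_congr rfl h1, Finset.sum_add_distrib, ← Finset.sum_mul, vg_sum hn hU,
    ← Finset.sum_filter]
  have h2 : (Finset.range n).filter (fun s => p ≤ s ∧ s < q) = Finset.Ico p q := by
    ext s
    simp only [Finset.mem_filter, Finset.mem_range, Finset.mem_Ico]
    omega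
  rw [h2, ← Finset.sum_mul, vg_Ico U (le_of_lt hpq) hq]
  ring

theorem sumAt_cons (s : ℕ) (x : ℕ × ℕ × ℕ × ℕ) (l : List (ℕ × ℕ × ℕ × ℕ)) :
    sumAt s (x :: l) =
      (cond (and (Nat.ble x.1 s) (Nat.blt s x.2.1)) x.2.2.2 x.2.2.1) + sumAt s l := rfl

/-- the interpolated value of the list of entries -/
noncomputable def val (U : ℕ → ℝ) (T : List (ℕ × ℕ × ℕ × ℕ)) : ℝ :=
  (T.map (fun t => (1 - (U t.2.1 - U t.1)) * (t.2.2.1 : ℝ) +
    (U t.2.1 - U t.1) * (t.2.2.2 : ℝ))).sum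

theorem val_cons (U : ℕ → ℝ) (t : ℕ × ℕ × ℕ × ℕ) (T : List (ℕ × ℕ × ℕ × ℕ)) :
    val U (t :: T) = ((1 - (U t.2.1 - U t.1)) * (t.2.2.1 : ℝ) +
      (U t.2.1 - U t.1) * (t.2.2.2 : ℝ)) + val U T := by
  unfold val
  rw [List.map_cons, List.sum_cons]

theorem val_eq {n : ℕ} (hn : 1 ≤ n) {U : ℕ → ℝ} (hU : AngOK n U) (T : List (ℕ × ℕ × ℕ × ℕ))
    (hT : ∀ t ∈ T, t.1 < t.2.1 ∧ t.2.1 < n) :
    val U T = ∑ s ∈ Finset.range n, vg n U s * (sumAt s T : ℝ) := by
  induction T with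
  | nil => simp [val, sumAt]
  | cons t T ih =>
    rw [val_cons, ih (fun t' ht' => hT t' (List.mem_cons_of_mem _ ht'))]
    have ht := hT t (List.mem_cons_self ..)
    rw [← entry_sum hn hU ht.1 ht.2, ← Finset.sum_add_distrib]
    refine Finset.sum_congr rfl fun s _ => ?_
    rw [sumAt_cons]
    push_cast
    ring

theorem mkT_cons (tab : List (List (List (ℕ × ℕ)))) (G u : List ℕ) (x : ℕ × ℕ × ℕ)
    (C : List (ℕ × ℕ × ℕ)) :
    mkT tab G u (x :: C) = cond (Nat.beq x.2.2 0) (mkT tab G u C)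
      ((x.1, x.2.1,
        x.2.2 * (bndF tab (nth 0 G x.1) (nth 0 G x.2.1)
          (Nat.sub (nth 0 u x.2.1) (nth 0 u x.1))).1,
        x.2.2 * (bndF tab (nth 0 G x.1) (nth 0 G x.2.1)
          (Nat.sub (nth 0 u x.2.1) (nth 0 u x.1))).2) :: mkT tab G u C) := rfl

theorem mkT_mem {tab : List (List (List (ℕ × ℕ)))} {G u : List ℕ} {n : ℕ}
    (C : List (ℕ × ℕ × ℕ)) (hC : ∀ x ∈ C, x.1 < x.2.1 ∧ x.2.1 < n) :
    ∀ t ∈ mkT tab G u C, t.1 < t.2.1 ∧ t.2.1 < n := by
  induction C with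
  | nil =>
    intro t ht
    exact absurd ht (List.not_mem_nil)
  | cons x C ih =>
    have hx := hC x (List.mem_cons_self ..)
    have ih' := ih (fun y hy => hC y (List.mem_cons_of_mem _ hy))
    intro t ht
    rw [mkT_cons] at ht
    cases hb : Nat.beq x.2.2 0 with
    | true =>
      rw [hb] at ht
      exact ih' t ht
    | false =>
      rw [hb] at ht
      simp only [cond_false] at ht
      rcases List.mem_cons.mp ht with h | h
      · rw [h]
        exact hx
      · exact ih' t h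

theorem mkT_val {tab : List (List (List (ℕ × ℕ)))} (hT : BndSound tab) {G u : List ℕ} {n : ℕ}
    {U : ℕ → ℝ} (hU : AngOK n U)
    (C : List (ℕ × ℕ × ℕ)) (hC : ∀ x ∈ C, x.1 < x.2.1 ∧ x.2.1 < n) :
    4096000000 * (C.map (fun x => (x.2.2 : ℝ) * D (nth 0 G x.1 : ℕ) (nth 0 G x.2.1 : ℕ)
      (U x.2.1 - U x.1))).sum ≤ val U (mkT tab G u C) := by
  induction C with
  | nil => simp [val, mkT]
  | cons x C ih =>
    have hx := hC x (List.mem_cons_self ..)
    have ih' := ih (fun y hy => hC y (List.mem_cons_of_mem _ hy))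
    rw [List.map_cons, List.sum_cons, mkT_cons]
    cases hb : Nat.beq x.2.2 0 with
    | true =>
      have h0 : x.2.2 = 0 := Nat.eq_of_beq_eq_true hb
      simp only [cond_true]
      rw [h0]
      simp only [Nat.cast_zero, zero_mul, zero_add]
      exact ih'
    | false =>
      simp only [cond_false]
      rw [val_cons]
      have h0 : 0 ≤ U x.2.1 - U x.1 := by
        linarith [U_mono hU (le_of_lt hx.1) hx.2]
      have h1 : U x.2.1 - U x.1 ≤ 1 := by
        linarith [U_le_one hU hx.2, U_nonneg hU (lt_trans hx.1 hx.2)]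
      have hb' := hT (nth 0 G x.1) (nth 0 G x.2.1) (Nat.sub (nth 0 u x.2.1) (nth 0 u x.1))
        (U x.2.1 - U x.1) h0 h1
      have hc : (0 : ℝ) ≤ (x.2.2 : ℝ) := Nat.cast_nonneg _
      have hm := mul_le_mul_of_nonneg_left hb' hc
      push_cast
      nlinarith [hm, ih']

theorem nth_le_lsum (G : List ℕ) (i : ℕ) : nth 0 G i ≤ lsum G := by
  induction G generalizing i with
  | nil => simp
  | cons a l ih =>
    have h : lsum (a :: l) = a + lsum l := rfl
    cases i with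
    | zero =>
      rw [h, nth_cons_zero]
      omega
    | succ i =>
      rw [h, nth_cons_succ]
      have := ih i
      omega

end GenAux

open GenAux in
theorem genOK_sound {tab : List (List (List (ℕ × ℕ)))} (hT : BndSound tab) {n pt W : ℕ}
    {C : List (ℕ × ℕ × ℕ)} {N G u : List ℕ} (hn : 1 ≤ n)
    (hC : ∀ x ∈ C, x.1 < x.2.1 ∧ x.2.1 < n) (h : genOK tab n pt W C N G u = true)
    {U : ℕ → ℝ} (hU : AngOK n U) :
    (C.map (fun x => (x.2.2 : ℝ) * D (nth 0 G x.1 : ℕ) (nth 0 G x.2.1 : ℕ)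
      (U x.2.1 - U x.1))).sum ≤
    366 * (W : ℝ) * ((lsum G : ℝ) - (nth 0 G pt : ℕ)) + 1000 * (linG G N : ℝ) := by
  have h1 : ∀ s < n, Nat.ble (sumAt s (mkT tab G u C))
      (Nat.mul 4096000000 (Nat.add (Nat.mul (Nat.mul 366 W) (Nat.sub (lsum G) (nth 0 G pt)))
        (Nat.mul 1000 (linG G N)))) = true := (nrec_all n (fun s => Nat.ble (sumAt s (mkT tab G u C))
      (Nat.mul 4096000000 (Nat.add (Nat.mul (Nat.mul 366 W) (Nat.sub (lsum G) (nth 0 G pt)))
        (Nat.mul 1000 (linG G N)))))).mp h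
  have h2 : ∀ s < n, (sumAt s (mkT tab G u C) : ℝ) ≤ 4096000000 *
      (366 * (W : ℝ) * ((lsum G : ℝ) - (nth 0 G pt : ℕ)) + 1000 * (linG G N : ℝ)) := by
    intro s hs
    have h3 : sumAt s (mkT tab G u C) ≤ 4096000000 * (366 * W * (lsum G - nth 0 G pt) +
        1000 * linG G N) := Nat.le_of_ble_eq_true (h1 s hs)
    have h4 : (sumAt s (mkT tab G u C) : ℝ) ≤ ((4096000000 * (366 * W * (lsum G - nth 0 G pt) +
        1000 * linG G N) : ℕ) : ℝ) := by exact_mod_cast h3
    rw [Nat.cast_mul, Nat.cast_add, Nat.cast_mul, Nat.cast_mul, Nat.cast_mul,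
      Nat.cast_sub (nth_le_lsum G pt)] at h4
    exact_mod_cast h4
  have h5 := mkT_val hT (G := G) (u := u) hU C hC
  have h6 : val U (mkT tab G u C) ≤ 4096000000 *
      (366 * (W : ℝ) * ((lsum G : ℝ) - (nth 0 G pt : ℕ)) + 1000 * (linG G N : ℝ)) := by
    rw [val_eq hn hU _ (mkT_mem C hC)]
    calc ∑ s ∈ Finset.range n, vg n U s * (sumAt s (mkT tab G u C) : ℝ)
        ≤ ∑ s ∈ Finset.range n, vg n U s * (4096000000 *
          (366 * (W : ℝ) * ((lsum G : ℝ) - (nth 0 G pt : ℕ)) + 1000 * (linG G N : ℝ))) := by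
          refine Finset.sum_le_sum fun s hs => ?_
          have hs' := Finset.mem_range.mp hs
          exact mul_le_mul_of_nonneg_left (h2 s hs') (vg_nonneg hU hs')
      _ = _ := by rw [← Finset.sum_mul, vg_sum hn hU, one_mul]
  linarith

end T3
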