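import Pool.Agent.Lib.MP_675adf_co.Api
import Pool.Agent.Lib.MP_675adf_co.Gen
import Pool.Agent.Lib.MP_675adf_co.Alg

/-! Module Leaf: soundness of the leaves of the certificate. -/

open Real

namespace T3

namespace Leaf

theorem gensOK_get {tab : List (List (List (ℕ × ℕ)))} {n pt W : ℕ} {C : List (ℕ × ℕ × ℕ)}
    {N : List ℕ} (gens : List (List ℕ)) (u : ℕ) (h : gensOK tab n pt W C N gens u = true) :
    ∀ G ∈ gens, ∃ u', genOK tab n pt W C N G u' = true := by
  induction gens generalizing u with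
  | nil => intro G hG; exact absurd hG List.not_mem_nil
  | cons a l ih =>
    have h1 : gensOK tab n pt W C N (a :: l) u =
        (genOK tab n pt W C N a (0 :: decU (Nat.pred n) u) &&
          gensOK tab n pt W C N l (Nat.div u (Nat.pow 262144 (Nat.pred n)))) := rfl
    rw [h1, Bool.and_eq_true] at h
    intro G hG
    rcases List.mem_cons.mp hG with rfl | hG
    · exact ⟨_, h.1⟩
    · exact ih _ h.2 G hG

theorem dd_le (K : ℕ) (lam : ℕ → ℝ) (hl : ∀ k, 0 ≤ lam k) (Gk : ℕ → ℕ → ℝ) (U : ℕ → ℝ)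
    (p q : ℕ) : dd (fun p => ∑ k ∈ Finset.range K, lam k * Gk k p) U p q ≤
      ∑ k ∈ Finset.range K, lam k * dd (Gk k) U p q := by
  unfold dd
  exact D_sum (Finset.range K) lam (fun k => Gk k p) (fun k => Gk k q) (U q - U p)
    (fun k _ => hl k)

theorem block_le (K : ℕ) (lam : ℕ → ℝ) (hl : ∀ k, 0 ≤ lam k) (Gk : ℕ → ℕ → ℝ) (U : ℕ → ℝ)
    (β : ℝ) (hβ : 0 ≤ β) (b : List ℕ) :
    bcR β (dd (fun p => ∑ k ∈ Finset.range K, lam k * Gk k p) U)
        (fun p => ∑ k ∈ Finset.range K, lam k * Gk k p) b ≤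
      ∑ k ∈ Finset.range K, lam k * bcR β (dd (Gk k) U) (Gk k) b := by
  match b with
  | [] => simp [bcR]
  | [_] => simp [bcR]
  | [h, s] =>
    simp only [bcR]
    have h1 := dd_le K lam hl Gk U h s
    have h2 : ∑ k ∈ Finset.range K, lam k * (dd (Gk k) U h s - Gk k s) =
        ∑ k ∈ Finset.range K, lam k * dd (Gk k) U h s - ∑ k ∈ Finset.range K, lam k * Gk k s := by
      rw [← Finset.sum_sub_distrib]
      exact Finset.sum_congr rfl fun k _ => by ring
    rw [h2]
    linarith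
  | [h, s, t] =>
    simp only [bcR]
    have h1 := dd_le K lam hl Gk U h s
    have h1' := dd_le K lam hl Gk U h t
    have h2 : ∑ k ∈ Finset.range K, lam k *
        ((1 + β) * dd (Gk k) U h s - Gk k s + (dd (Gk k) U h t - Gk k t)) =
        (1 + β) * ∑ k ∈ Finset.range K, lam k * dd (Gk k) U h s -
          ∑ k ∈ Finset.range K, lam k * Gk k s +
          (∑ k ∈ Finset.range K, lam k * dd (Gk k) U h t -
          ∑ k ∈ Finset.range K, lam k * Gk k t) := by
      rw [Finset.mul_sum, ← Finset.sum_sub_distrib, ← Finset.sum_sub_distrib,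
        ← Finset.sum_add_distrib]
      exact Finset.sum_congr rfl fun k _ => by ring
    rw [h2]
    have h3 := mul_le_mul_of_nonneg_left h1 (show 0 ≤ 1 + β by linarith)
    linarith
  | _ :: _ :: _ :: _ :: _ => simp [bcR]

theorem bcs_le (K : ℕ) (lam : ℕ → ℝ) (hl : ∀ k, 0 ≤ lam k) (Gk : ℕ → ℕ → ℝ) (U : ℕ → ℝ)
    (β : ℝ) (hβ : 0 ≤ β) {n : ℕ} {bs : List (List ℕ)} (hb : bsOK n bs = true) :
    bcs β (dd (fun p => ∑ k ∈ Finset.range K, lam k * Gk k p) U)
        (fun p => ∑ k ∈ Finset.range K, lam k * Gk k p) bs ≤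
      ∑ k ∈ Finset.range K, lam k * bcs β (dd (Gk k) U) (Gk k) bs := by
  obtain ⟨b1, b2, rfl⟩ := bsOK_two hb
  have h1 := block_le K lam hl Gk U β hβ b1
  have h2 := block_le K lam hl Gk U β hβ b2
  have h3 : ∑ k ∈ Finset.range K, lam k * bcs β (dd (Gk k) U) (Gk k) [b1, b2] =
      ∑ k ∈ Finset.range K, lam k * bcR β (dd (Gk k) U) (Gk k) b1 +
        ∑ k ∈ Finset.range K, lam k * bcR β (dd (Gk k) U) (Gk k) b2 := by
    rw [← Finset.sum_add_distrib]
    exact Finset.sum_congr rfl fun k _ => by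
      show lam k * (bcR β (dd (Gk k) U) (Gk k) b1 + bcR β (dd (Gk k) U) (Gk k) b2) = _
      ring
  rw [h3]
  exact add_le_add h1 h2

theorem sum_swap (ws : List (ℕ × List (List ℕ))) (K : ℕ) (lam : ℕ → ℝ)
    (F : ℕ → ℕ × List (List ℕ) → ℝ) :
    (ws.map (fun x => (x.1 : ℝ) * ∑ k ∈ Finset.range K, lam k * F k x)).sum =
      ∑ k ∈ Finset.range K, lam k * (ws.map (fun x => (x.1 : ℝ) * F k x)).sum := by
  induction ws with
  | nil => simp
  | cons a l ih =>
    simp only [List.map_cons, List.sum_cons, ih]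
    rw [Finset.mul_sum, ← Finset.sum_add_distrib]
    exact Finset.sum_congr rfl fun k _ => by ring

theorem sum_mono (ws : List (ℕ × List (List ℕ))) (f g : ℕ × List (List ℕ) → ℝ)
    (h : ∀ x ∈ ws, f x ≤ g x) :
    (ws.map (fun x => (x.1 : ℝ) * f x)).sum ≤ (ws.map (fun x => (x.1 : ℝ) * g x)).sum := by
  induction ws with
  | nil => simp
  | cons a l ih =>
    simp only [List.map_cons, List.sum_cons]
    have h1 := ih fun x hx => h x (List.mem_cons_of_mem _ hx)
    have h2 := mul_le_mul_of_nonneg_left (h a List.mem_cons_self) (Nat.cast_nonneg a.1 : (0 : ℝ) ≤ _)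
    linarith

theorem exists_le (ws : List (ℕ × List (List ℕ))) (f : ℕ × List (List ℕ) → ℝ) (τ : ℝ)
    (hW : 0 < wW ws) (h : (ws.map (fun x => (x.1 : ℝ) * f x)).sum ≤ τ * (wW ws : ℝ)) :
    ∃ x ∈ ws, f x ≤ τ := by
  by_contra hcon
  push Not at hcon
  have key : ∀ l : List (ℕ × List (List ℕ)), (∀ x ∈ l, τ < f x) →
      (τ * (wW l : ℝ) ≤ (l.map (fun x => (x.1 : ℝ) * f x)).sum) ∧
      (0 < wW l → τ * (wW l : ℝ) < (l.map (fun x => (x.1 : ℝ) * f x)).sum) := by
    intro l
    induction l with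
    | nil => intro _; exact ⟨by simp [wW], fun h => absurd h (by simp [wW])⟩
    | cons a l ih =>
      intro hl
      obtain ⟨i1, i2⟩ := ih fun x hx => hl x (List.mem_cons_of_mem _ hx)
      have ha := hl a List.mem_cons_self
      have e1 : wW (a :: l) = a.1 + wW l := rfl
      rw [e1]
      simp only [List.map_cons, List.sum_cons]
      push_cast
      have h0 : (0 : ℝ) ≤ (a.1 : ℝ) := Nat.cast_nonneg _
      refine ⟨?_, ?_⟩
      · have := mul_le_mul_of_nonneg_left ha.le h0
        nlinarith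
      · intro hpos
        rcases Nat.eq_zero_or_pos a.1 with hz | hp
        · have h3 := i2 (by omega)
          rw [hz]
          simpa using h3
        · have h3 : (0 : ℝ) < (a.1 : ℝ) := by exact_mod_cast hp
          have := mul_lt_mul_of_pos_left ha h3
          nlinarith
  exact absurd h (not_le.mpr ((key ws hcon).2 hW))

end Leaf

open Leaf in
theorem leafOK_sound {tab : List (List (List (ℕ × ℕ)))} (hT : BndSound tab) {n pt : ℕ}
    (hn : 1 ≤ n) (hpt : pt < n) {ws : List (ℕ × List (List ℕ))} {gens : List (List ℕ)} {u : ℕ}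
    (hg : ∀ G ∈ gens, G.length = n) (h : leafOK tab n pt ws gens u = true) : CS n pt gens := by
  unfold leafOK at h
  rw [Bool.and_eq_true, Bool.and_eq_true] at h
  obtain ⟨⟨hws, hW⟩, hgens⟩ := h
  have hW' : 0 < wW ws := by
    have h0 : 1 ≤ wW ws := by simpa [Nat.blt, Nat.ble_eq] using hW
    omega
  intro lam hl U hU
  obtain ⟨Gk, hGk⟩ : ∃ Gk : ℕ → ℕ → ℝ, Gk = fun k p => ((nth 0 (nth [] gens k) p : ℕ) : ℝ) :=
    ⟨_, rfl⟩
  have hr : gval gens lam = fun p => ∑ k ∈ Finset.range gens.length, lam k * Gk k p := by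
    funext p
    rw [gval_def, hGk]
  obtain ⟨τ, hτ⟩ : ∃ τ : ℝ, τ = 366 / 1000 *
      (∑ p ∈ Finset.range n, gval gens lam p - gval gens lam pt) := ⟨_, rfl⟩
  -- the bound for a single generator
  have hgen : ∀ k ∈ Finset.range gens.length,
      (ws.map (fun x => (x.1 : ℝ) * (1000 * bcs (367 / 1000) (dd (Gk k) U) (Gk k) x.2))).sum ≤
        366 * (wW ws : ℝ) * (∑ p ∈ Finset.range n, Gk k p - Gk k pt) := by
    intro k hk
    have hk' := Finset.mem_range.mp hk
    have hmem : nth [] gens k ∈ gens := nth_mem [] hk'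
    obtain ⟨u', hu'⟩ := gensOK_get gens u hgens _ hmem
    have h1 := genOK_sound hT hn (mkC_mem n ws) hu' hU
    rw [alg_identity hws (dd (Gk k) U) (fun p q => dd_symm _ _ p q) (Gk k)]
    have h2 : ((mkC n ws).map (fun x => (x.2.2 : ℝ) * dd (Gk k) U x.1 x.2.1)).sum =
        ((mkC n ws).map (fun x => (x.2.2 : ℝ) * D (nth 0 (nth [] gens k) x.1 : ℕ)
          (nth 0 (nth [] gens k) x.2.1 : ℕ) (U x.2.1 - U x.1))).sum := by
      rw [hGk]
      rfl
    rw [h2]
    rw [linG_range (hg _ hmem), lsum_range (hg _ hmem)] at h1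
    have h3 : ∑ p ∈ Finset.range n, (wN ws p : ℝ) * Gk k p =
        ∑ p ∈ Finset.range n, ((nth 0 (nth [] gens k) p : ℕ) : ℝ) * (wN ws p : ℝ) := by
      rw [hGk]
      exact Finset.sum_congr rfl fun p _ => by ring
    rw [h3]
    have h4 : Gk k pt = ((nth 0 (nth [] gens k) pt : ℕ) : ℝ) := by rw [hGk]
    have h5 : ∑ p ∈ Finset.range n, Gk k p =
        ∑ p ∈ Finset.range n, ((nth 0 (nth [] gens k) p : ℕ) : ℝ) := by rw [hGk]
    rw [h4, h5]
    linarith
  -- the weighted sum
  have hsum : (ws.map (fun x => (x.1 : ℝ) *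
      (1000 * bcs (367 / 1000) (dd (gval gens lam) U) (gval gens lam) x.2))).sum ≤
      (1000 * τ) * (wW ws : ℝ) := by
    have h1 := sum_mono ws
      (fun x => 1000 * bcs (367 / 1000) (dd (gval gens lam) U) (gval gens lam) x.2)
      (fun x => ∑ k ∈ Finset.range gens.length,
        lam k * (1000 * bcs (367 / 1000) (dd (Gk k) U) (Gk k) x.2)) (by
        intro x hx
        have h2 := bcs_le gens.length lam hl Gk U (367 / 1000) (by norm_num)
          ((wsOK_iff.mp hws) x hx)
        rw [← hr] at h2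
        have h3 : ∑ k ∈ Finset.range gens.length,
            lam k * (1000 * bcs (367 / 1000) (dd (Gk k) U) (Gk k) x.2) =
            1000 * ∑ k ∈ Finset.range gens.length,
              lam k * bcs (367 / 1000) (dd (Gk k) U) (Gk k) x.2 := by
          rw [Finset.mul_sum]
          exact Finset.sum_congr rfl fun k _ => by ring
        show 1000 * bcs (367 / 1000) (dd (gval gens lam) U) (gval gens lam) x.2 ≤ _
        rw [h3]
        linarith)
    refine le_trans h1 ?_
    rw [sum_swap ws gens.length lam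
      (fun k x => 1000 * bcs (367 / 1000) (dd (Gk k) U) (Gk k) x.2)]
    have h4 : ∑ k ∈ Finset.range gens.length, lam k *
        (ws.map (fun x => (x.1 : ℝ) * (1000 * bcs (367 / 1000) (dd (Gk k) U) (Gk k) x.2))).sum ≤
        ∑ k ∈ Finset.range gens.length, lam k *
          (366 * (wW ws : ℝ) * (∑ p ∈ Finset.range n, Gk k p - Gk k pt)) :=
      Finset.sum_le_sum fun k hk => mul_le_mul_of_nonneg_left (hgen k hk) (hl k)
    refine le_trans h4 (le_of_eq ?_)
    rw [hτ, hr]
    simp only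
    rw [Finset.sum_comm]
    have h5 : ∑ k ∈ Finset.range gens.length, ∑ p ∈ Finset.range n, lam k * Gk k p =
        ∑ k ∈ Finset.range gens.length, lam k * ∑ p ∈ Finset.range n, Gk k p :=
      Finset.sum_congr rfl fun k _ => by rw [Finset.mul_sum]
    rw [h5, ← Finset.sum_sub_distrib]
    rw [show 1000 * (366 / 1000 * ∑ k ∈ Finset.range gens.length,
        (lam k * ∑ p ∈ Finset.range n, Gk k p - lam k * Gk k pt)) * (wW ws : ℝ) =
        (366 * (wW ws : ℝ)) * ∑ k ∈ Finset.range gens.length,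
        (lam k * ∑ p ∈ Finset.range n, Gk k p - lam k * Gk k pt) by ring, Finset.mul_sum]
    exact Finset.sum_congr rfl fun k _ => by ring
  obtain ⟨x, hx, hxle⟩ := exists_le ws
    (fun x => 1000 * bcs (367 / 1000) (dd (gval gens lam) U) (gval gens lam) x.2) (1000 * τ)
    hW' hsum
  have hxle' : 1000 * bcs (367 / 1000) (dd (gval gens lam) U) (gval gens lam) x.2 ≤ 1000 * τ :=
    hxle
  have hbs := (wsOK_iff.mp hws) x hx
  obtain ⟨b1, b2, hb⟩ := bsOK_two hbs
  rw [hb] at hbs hxle'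
  refine ⟨b1, b2, hbs, ?_⟩
  have h6 : bcs (367 / 1000) (dd (gval gens lam) U) (gval gens lam) [b1, b2] =
      bcR (367 / 1000) (dd (gval gens lam) U) (gval gens lam) b1 +
        bcR (367 / 1000) (dd (gval gens lam) U) (gval gens lam) b2 := rfl
  rw [h6] at hxle'
  rw [← hτ]
  linarith

end T3
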