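import Pool.Agent.Lib.MP_675adf_co.Api
import Pool.Agent.Lib.MP_675adf_co.Leaf

/-! Soundness of the certificate checker (module Chk). -/

open Real

namespace T3

theorem Chk_vadd (a : List ℕ) : ∀ b : List ℕ, a.length = b.length →
    (vadd a b).length = a.length ∧ ∀ p, nth 0 (vadd a b) p = nth 0 a p + nth 0 b p := by
  induction a with
  | nil =>
    intro b hb
    have : b = [] := by
      rw [← List.length_eq_zero_iff, ← hb]
      rfl
    subst this
    simp [vadd]
  | cons x a ih =>
    intro b hb
    cases b with
    | nil => simp at hb
    | cons y b =>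
      obtain ⟨h1, h2⟩ := ih b (by simpa using hb)
      refine ⟨by simp [vadd, h1], ?_⟩
      intro p
      cases p with
      | zero => simp [vadd]
      | succ p =>
        have e : vadd (x :: a) (y :: b) = (x + y) :: vadd a b := rfl
        rw [e, nth_cons_succ, nth_cons_succ, nth_cons_succ, h2]

theorem Chk_set (gens : List (List ℕ)) (j : ℕ) (v : List ℕ) (hj : j < gens.length) (k : ℕ) :
    nth [] (gens.set j v) k = if k = j then v else nth [] gens k := by
  rw [nth_eq, nth_eq]
  split_ifs with h
  · subst h
    simp [List.getD, hj]
  · rw [List.getD_eq_getElem?_getD, List.getD_eq_getElem?_getD, List.getElem?_set_ne (Ne.symm h)]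

theorem Chk_gval (gens : List (List ℕ)) (i j : ℕ) (v : List ℕ) (hi : i < gens.length)
    (hj : j < gens.length) (hij : i ≠ j)
    (hv : ∀ p, nth 0 v p = nth 0 (nth [] gens i) p + nth 0 (nth [] gens j) p) (lam : ℕ → ℝ)
    (p : ℕ) :
    gval (gens.set j v) (Function.update lam i (lam i - lam j)) p = gval gens lam p := by
  unfold gval
  rw [List.length_set]
  have key : ∀ k ∈ Finset.range gens.length,
      Function.update lam i (lam i - lam j) k * ((nth 0 (nth [] (gens.set j v) k) p : ℕ) : ℝ) =
      lam k * ((nth 0 (nth [] gens k) p : ℕ) : ℝ) +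
        ((if k = j then lam j * ((nth 0 (nth [] gens i) p : ℕ) : ℝ) else 0) -
          (if k = i then lam j * ((nth 0 (nth [] gens i) p : ℕ) : ℝ) else 0)) := by
    intro k _
    rw [Chk_set gens j v hj k]
    by_cases h1 : k = j
    · subst h1
      rw [if_pos rfl, if_pos rfl, if_neg (Ne.symm hij), Function.update_of_ne (Ne.symm hij), hv]
      push_cast
      ring
    · by_cases h2 : k = i
      · subst h2
        rw [if_neg h1, if_neg h1, if_pos rfl, Function.update_self]
        ring
      · rw [if_neg h1, if_neg h1, if_neg h2, Function.update_of_ne h2]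
        ring
  rw [Finset.sum_congr rfl key, Finset.sum_add_distrib, Finset.sum_sub_distrib,
    Finset.sum_ite_eq' , Finset.sum_ite_eq', if_pos (Finset.mem_range.mpr hi),
    if_pos (Finset.mem_range.mpr hj)]
  ring

theorem chk_sound {tab : List (List (List (ℕ × ℕ)))} (hT : BndSound tab) {n pt : ℕ}
    (hn : 1 ≤ n) (hpt : pt < n) (c : Cert) : ∀ gens : List (List ℕ),
    (∀ G ∈ gens, G.length = n) → chk tab n pt c gens = true → CS n pt gens := by
  induction c with
  | leaf a u =>
    intro gens hg h
    exact leafOK_sound hT hn hpt hg h
  | node i j v l r ihl ihr =>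
    intro gens hg h
    have e : chk tab n pt (.node i j v l r) gens =
      (Nat.blt i gens.length && Nat.blt j gens.length && (i != j) &&
      (v == vadd (gens.getD i []) (gens.getD j [])) &&
      chk tab n pt l (gens.set j v) &&
      chk tab n pt r (gens.set i v)) := rfl
    rw [e] at h
    simp only [Bool.and_eq_true, Nat.blt_eq, bne_iff_ne, ne_eq, beq_iff_eq] at h
    obtain ⟨⟨⟨⟨⟨hi, hj⟩, hij⟩, hv⟩, hl⟩, hr⟩ := h
    rw [← nth_eq, ← nth_eq] at hv
    have hGi := hg _ (nth_mem [] hi)
    have hGj := hg _ (nth_mem [] hj)
    obtain ⟨hv1, hv2⟩ := Chk_vadd (nth [] gens i) (nth [] gens j) (hGi.trans hGj.symm)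
    rw [← hv] at hv1 hv2
    have hvn : v.length = n := hv1.trans hGi
    have hset : ∀ k, ∀ G ∈ gens.set k v, G.length = n := by
      intro k G hG
      rcases List.mem_or_eq_of_mem_set hG with h | h
      · exact hg G h
      · rw [h]
        exact hvn
    have hL := ihl (gens.set j v) (hset j) hl
    have hR := ihr (gens.set i v) (hset i) hr
    intro lam hlam U hU
    by_cases hc : lam j ≤ lam i
    · have hnn : ∀ k, 0 ≤ Function.update lam i (lam i - lam j) k := by
        intro k
        by_cases hk : k = i
        · subst hk
          rw [Function.update_self]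
          linarith
        · rw [Function.update_of_ne hk]
          exact hlam k
      have h1 := hL _ hnn U hU
      have e1 : gval (gens.set j v) (Function.update lam i (lam i - lam j)) = gval gens lam :=
        funext (Chk_gval gens i j v hi hj hij hv2 lam)
      rwa [e1] at h1
    · have hnn : ∀ k, 0 ≤ Function.update lam j (lam j - lam i) k := by
        intro k
        by_cases hk : k = j
        · subst hk
          rw [Function.update_self]
          linarith [not_le.mp hc]
        · rw [Function.update_of_ne hk]
          exact hlam k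
      have h1 := hR _ hnn U hU
      have e1 : gval (gens.set i v) (Function.update lam j (lam j - lam i)) = gval gens lam :=
        funext (Chk_gval gens j i v hj hi (Ne.symm hij) (fun p => by rw [hv2, add_comm]) lam)
      rwa [e1] at h1

end T3
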