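import Pool.Agent.Lib.MP_675adf_co.Api

/-! Length vectors ascending along `ord` are nonnegative combinations of the generators. -/

open Real

namespace T3

theorem nth_ginit {n : ℕ} {ord : List ℕ} {i p : ℕ} (hi : i < n) (hp : p < n) :
    nth 0 (nth [] (ginit n ord) i) p = if p ∈ ord.drop i then 1 else 0 := by
  have h1 : nth [] (ginit n ord) i =
      (List.range n).map (fun p => cond (mem p (ord.drop i)) 1 0) := by
    rw [nth_eq, List.getD_eq_getElem _ _ (by simpa [ginit] using hi)]
    simp [ginit]
  have h2 : nth 0 ((List.range n).map (fun p => cond (mem p (ord.drop i)) 1 0)) p =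
      cond (mem p (ord.drop i)) 1 0 := by
    rw [nth_eq, List.getD_eq_getElem _ _ (by simpa using hp)]
    simp
  rw [h1, h2]
  by_cases h : p ∈ ord.drop i
  · rw [if_pos h, (mem_eq _ _).2 h]; rfl
  · rw [if_neg h]
    have : mem p (ord.drop i) = false := by
      cases hb : mem p (ord.drop i)
      · rfl
      · exact absurd ((mem_eq _ _).1 hb) h
    rw [this]; rfl

theorem cone_sound {n : ℕ} (hn : 1 ≤ n) {ord : List ℕ} (hord : ord.Perm (List.range n))
    (h : CS n (ord.getLastD 0) (ginit n ord)) : Pst n ord := by
  intro r U hr hU
  have hlen : ord.length = n := by rw [hord.length_eq, List.length_range]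
  have hnd : ord.Nodup := hord.nodup_iff.2 List.nodup_range
  set lam : ℕ → ℝ := fun i => if i < n then
    (if i = 0 then r (nth 0 ord 0) else r (nth 0 ord i) - r (nth 0 ord (i - 1))) else 0 with hlam
  have hlam0 : ∀ k, 0 ≤ lam k := by
    intro k
    simp only [hlam]
    split_ifs with h1 h2
    · exact hr.1 _ (nth_mem 0 (by omega))
    · have := List.pairwise_iff_getElem.1 hr.2 (k - 1) k (by omega) (by omega) (by omega)
      rw [nth_eq, nth_eq, List.getD_eq_getElem _ _ (by omega),
        List.getD_eq_getElem _ _ (by omega)]
      linarith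
    · exact le_rfl
  have htel : ∀ j, j < n → ∑ i ∈ Finset.range (j + 1), lam i = r (nth 0 ord j) := by
    intro j
    induction j with
    | zero =>
      intro hj
      simp [hlam, hj]
    | succ j ih =>
      intro hj
      rw [Finset.sum_range_succ, ih (by omega)]
      simp only [hlam, hj, if_true, Nat.succ_ne_zero, if_false, Nat.add_sub_cancel]
      ring
  have hg := h lam hlam0 U hU
  have hpt : ord.getLastD 0 < n := by
    have h0 : ord.getLastD 0 ∈ ord := by
      have hne : ord ≠ [] := by
        rintro rfl
        simp at hlen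
        omega
      rw [List.getLastD_eq_getLast?, List.getLast?_eq_getLast_of_ne_nil hne]
      exact List.getLast_mem hne
    exact List.mem_range.1 (hord.mem_iff.1 h0)
  refine good_congr hpt (fun p hp => ?_) hg
  have hpo : p ∈ ord := hord.mem_iff.2 (List.mem_range.2 hp)
  obtain ⟨j, hj, hjp⟩ := List.getElem_of_mem hpo
  have hjn : j < n := by omega
  have hnj : nth 0 ord j = p := by
    rw [nth_eq, List.getD_eq_getElem _ _ hj, hjp]
  have hmem : ∀ i, i < n → (p ∈ ord.drop i ↔ i ≤ j) := by
    intro i hi
    constructor
    · intro hm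
      obtain ⟨k, hk, hkp⟩ := List.getElem_of_mem hm
      rw [List.getElem_drop] at hkp
      rw [List.length_drop] at hk
      have := (hnd.getElem_inj_iff (hi := by omega) (hj := hj)).1 (hkp.trans hjp.symm)
      omega
    · intro hij
      rw [List.mem_iff_getElem]
      refine ⟨j - i, by rw [List.length_drop]; omega, ?_⟩
      rw [List.getElem_drop]
      have : i + (j - i) = j := by omega
      simp only [this, hjp]
  have hgl : (ginit n ord).length = n := by simp [ginit]
  have hsum : gval (ginit n ord) lam p = ∑ i ∈ Finset.range n, if i ≤ j then lam i else 0 := by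
    rw [gval_def, hgl]
    refine Finset.sum_congr rfl fun i hi => ?_
    have hi' := Finset.mem_range.1 hi
    rw [nth_ginit hi' hp]
    by_cases hij : i ≤ j
    · rw [if_pos hij, if_pos ((hmem i hi').2 hij)]
      simp
    · rw [if_neg hij, if_neg (fun hm => hij ((hmem i hi').1 hm))]
      simp
  rw [hsum, ← Finset.sum_filter]
  have hfil : (Finset.range n).filter (fun i => i ≤ j) = Finset.range (j + 1) := by
    ext i
    simp only [Finset.mem_filter, Finset.mem_range]
    omega
  rw [hfil, htel j hjn, hnj]

end T3
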