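import Pool.Agent.Lib.MP_675adf_co.RDef

/-! Degree 3 spanning trees: the table of cosines (half angle steps). -/

open Real

namespace T3

/-- one half angle step -/
theorem cosB_half (x y lo hi a b : ℝ) (hx : x = 2 * y) (h0 : 0 ≤ y) (h1 : y ≤ π / 2)
    (hc : lo ≤ Real.cos x ∧ Real.cos x ≤ hi) (ha : a ^ 2 ≤ (1 + lo) / 2)
    (hb0 : 0 ≤ b) (hb : (1 + hi) / 2 ≤ b ^ 2) : a ≤ Real.cos y ∧ Real.cos y ≤ b := by
  subst hx
  have hcy : 0 ≤ Real.cos y :=
    Real.cos_nonneg_of_mem_Icc ⟨by linarith [Real.pi_pos], h1⟩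
  have hsq : Real.cos y ^ 2 = 1 / 2 + Real.cos (2 * y) / 2 := Real.cos_sq y
  refine ⟨?_, ?_⟩
  · exact abs_le_of_sq_le_sq' (by linarith [hc.1]) hcy |>.2
  · exact abs_le_of_sq_le_sq' (by linarith [hc.2]) hb0 |>.2

/-- bounds of the cosine of the supplementary angle -/
theorem cosB_neg (x y lo hi : ℝ) (hx : x = π - y)
    (hc : lo ≤ Real.cos y ∧ Real.cos y ≤ hi) : -hi ≤ Real.cos x ∧ Real.cos x ≤ -lo := by
  subst hx
  rw [Real.cos_pi_sub]
  exact ⟨by linarith [hc.2], by linarith [hc.1]⟩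

theorem cosB_c4 : ((866025403784438646763723 : ℝ) / 10 ^ 24 ≤ Real.cos (4 * π / 24)) ∧
    (Real.cos (4 * π / 24) ≤ (866025403784438646763724 : ℝ) / 10 ^ 24) := by
  have h : Real.cos (4 * π / 24) = Real.sqrt 3 / 2 := by
    rw [show (4 * π / 24 : ℝ) = π / 6 by ring, Real.cos_pi_div_six]
  rw [h]
  refine ⟨?_, ?_⟩
  · have : (2 * 866025403784438646763723 / 10 ^ 24 : ℝ) ≤ Real.sqrt 3 := Real.le_sqrt_of_sq_le (by norm_num)
    linarith
  · have : Real.sqrt 3 ≤ (2 * 866025403784438646763724 / 10 ^ 24 : ℝ) := Real.sqrt_le_iff.mpr ⟨by norm_num, by norm_num⟩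
    linarith

theorem cosB_c6 : ((707106781186547524400844 : ℝ) / 10 ^ 24 ≤ Real.cos (6 * π / 24)) ∧
    (Real.cos (6 * π / 24) ≤ (707106781186547524400845 : ℝ) / 10 ^ 24) := by
  have h : Real.cos (6 * π / 24) = Real.sqrt 2 / 2 := by
    rw [show (6 * π / 24 : ℝ) = π / 4 by ring, Real.cos_pi_div_four]
  rw [h]
  refine ⟨?_, ?_⟩
  · have : (2 * 707106781186547524400844 / 10 ^ 24 : ℝ) ≤ Real.sqrt 2 := Real.le_sqrt_of_sq_le (by norm_num)
    linarith
  · have : Real.sqrt 2 ≤ (2 * 707106781186547524400845 / 10 ^ 24 : ℝ) := Real.sqrt_le_iff.mpr ⟨by norm_num, by norm_num⟩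
    linarith

theorem cosB_c2 : ((965925826289068286749743 : ℝ) / 10 ^ 24 ≤ Real.cos (2 * π / 24)) ∧
    (Real.cos (2 * π / 24) ≤ (965925826289068286749744 : ℝ) / 10 ^ 24) := by
  exact cosB_half (4 * π / 24) _ _ _ _ _ (by ring) (by positivity) (by linarith [Real.pi_pos])
    cosB_c4 (by norm_num) (by norm_num) (by norm_num)

theorem cosB_c1 : ((991444861373810411144557 : ℝ) / 10 ^ 24 ≤ Real.cos (1 * π / 24)) ∧
    (Real.cos (1 * π / 24) ≤ (991444861373810411144558 : ℝ) / 10 ^ 24) := by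
  exact cosB_half (2 * π / 24) _ _ _ _ _ (by ring) (by positivity) (by linarith [Real.pi_pos])
    cosB_c2 (by norm_num) (by norm_num) (by norm_num)

theorem cosB_c3 : ((923879532511286756128183 : ℝ) / 10 ^ 24 ≤ Real.cos (3 * π / 24)) ∧
    (Real.cos (3 * π / 24) ≤ (923879532511286756128184 : ℝ) / 10 ^ 24) := by
  exact cosB_half (6 * π / 24) _ _ _ _ _ (by ring) (by positivity) (by linarith [Real.pi_pos])
    cosB_c6 (by norm_num) (by norm_num) (by norm_num)

theorem cosB_c10 : ((258819045102520762348898 : ℝ) / 10 ^ 24 ≤ Real.cos (10 * π / 24)) ∧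
    (Real.cos (10 * π / 24) ≤ (258819045102520762348900 : ℝ) / 10 ^ 24) := by
  exact cosB_half (20 * π / 24) _ _ _ _ _ (by ring) (by positivity) (by linarith [Real.pi_pos])
    (cosB_neg (20 * π / 24) (4 * π / 24) _ _ (by ring) cosB_c4) (by norm_num) (by norm_num) (by norm_num)

theorem cosB_c5 : ((793353340291235164579776 : ℝ) / 10 ^ 24 ≤ Real.cos (5 * π / 24)) ∧
    (Real.cos (5 * π / 24) ≤ (793353340291235164579778 : ℝ) / 10 ^ 24) := by
  exact cosB_half (10 * π / 24) _ _ _ _ _ (by ring) (by positivity) (by linarith [Real.pi_pos])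
    cosB_c10 (by norm_num) (by norm_num) (by norm_num)

theorem cosB_c9 : ((382683432365089771728459 : ℝ) / 10 ^ 24 ≤ Real.cos (9 * π / 24)) ∧
    (Real.cos (9 * π / 24) ≤ (382683432365089771728461 : ℝ) / 10 ^ 24) := by
  exact cosB_half (18 * π / 24) _ _ _ _ _ (by ring) (by positivity) (by linarith [Real.pi_pos])
    (cosB_neg (18 * π / 24) (6 * π / 24) _ _ (by ring) cosB_c6) (by norm_num) (by norm_num) (by norm_num)

theorem cosB_c11 : ((130526192220051591548404 : ℝ) / 10 ^ 24 ≤ Real.cos (11 * π / 24)) ∧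
    (Real.cos (11 * π / 24) ≤ (130526192220051591548407 : ℝ) / 10 ^ 24) := by
  exact cosB_half (22 * π / 24) _ _ _ _ _ (by ring) (by positivity) (by linarith [Real.pi_pos])
    (cosB_neg (22 * π / 24) (2 * π / 24) _ _ (by ring) cosB_c2) (by norm_num) (by norm_num) (by norm_num)

theorem cosB_c7 : ((608761429008720639416097 : ℝ) / 10 ^ 24 ≤ Real.cos (7 * π / 24)) ∧
    (Real.cos (7 * π / 24) ≤ (608761429008720639416098 : ℝ) / 10 ^ 24) := by
  exact cosB_half (14 * π / 24) _ _ _ _ _ (by ring) (by positivity) (by linarith [Real.pi_pos])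
    (cosB_neg (14 * π / 24) (10 * π / 24) _ _ (by ring) cosB_c10) (by norm_num) (by norm_num) (by norm_num)

theorem cosB_ok : CosBStm := by
  intro j hj
  interval_cases j
  · show ((100000000000000 : ℤ) : ℝ) ≤ _ ∧ _ ≤ ((100000000000000 : ℤ) : ℝ)
    have h : Real.cos (((0 : ℕ) : ℝ) * π / 24) = 1 := by norm_num
    rw [h]; norm_num
  · show ((99144486137380 : ℤ) : ℝ) ≤ _ ∧ _ ≤ ((99144486137383 : ℤ) : ℝ)
    have h := cosB_c1
    push_cast
    constructor <;> linarith [h.1, h.2]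
  · show ((96592582628905 : ℤ) : ℝ) ≤ _ ∧ _ ≤ ((96592582628908 : ℤ) : ℝ)
    have h := cosB_c2
    push_cast
    constructor <;> linarith [h.1, h.2]
  · show ((92387953251127 : ℤ) : ℝ) ≤ _ ∧ _ ≤ ((92387953251130 : ℤ) : ℝ)
    have h := cosB_c3
    push_cast
    constructor <;> linarith [h.1, h.2]
  · show ((86602540378442 : ℤ) : ℝ) ≤ _ ∧ _ ≤ ((86602540378445 : ℤ) : ℝ)
    have h := cosB_c4
    push_cast
    constructor <;> linarith [h.1, h.2]
  · show ((79335334029122 : ℤ) : ℝ) ≤ _ ∧ _ ≤ ((79335334029125 : ℤ) : ℝ)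
    have h := cosB_c5
    push_cast
    constructor <;> linarith [h.1, h.2]
  · show ((70710678118653 : ℤ) : ℝ) ≤ _ ∧ _ ≤ ((70710678118656 : ℤ) : ℝ)
    have h := cosB_c6
    push_cast
    constructor <;> linarith [h.1, h.2]
  · show ((60876142900871 : ℤ) : ℝ) ≤ _ ∧ _ ≤ ((60876142900874 : ℤ) : ℝ)
    have h := cosB_c7
    push_cast
    constructor <;> linarith [h.1, h.2]
  · show ((50000000000000 : ℤ) : ℝ) ≤ _ ∧ _ ≤ ((50000000000000 : ℤ) : ℝ)
    have h : Real.cos (((8 : ℕ) : ℝ) * π / 24) = 1 / 2 := by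
      rw [show (((8 : ℕ) : ℝ) * π / 24 : ℝ) = π / 3 by push_cast; ring, Real.cos_pi_div_three]
    rw [h]; norm_num
  · show ((38268343236507 : ℤ) : ℝ) ≤ _ ∧ _ ≤ ((38268343236510 : ℤ) : ℝ)
    have h := cosB_c9
    push_cast
    constructor <;> linarith [h.1, h.2]
  · show ((25881904510251 : ℤ) : ℝ) ≤ _ ∧ _ ≤ ((25881904510254 : ℤ) : ℝ)
    have h := cosB_c10
    push_cast
    constructor <;> linarith [h.1, h.2]
  · show ((13052619222004 : ℤ) : ℝ) ≤ _ ∧ _ ≤ ((13052619222007 : ℤ) : ℝ)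
    have h := cosB_c11
    push_cast
    constructor <;> linarith [h.1, h.2]
  · show ((0 : ℤ) : ℝ) ≤ _ ∧ _ ≤ ((0 : ℤ) : ℝ)
    have h : Real.cos (((12 : ℕ) : ℝ) * π / 24) = 0 := by
      rw [show (((12 : ℕ) : ℝ) * π / 24 : ℝ) = π / 2 by push_cast; ring, Real.cos_pi_div_two]
    rw [h]; norm_num

end T3
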