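import Pool.Agent.Lib.MP_675adf_co.RDef

/-! Basic properties of the distance function D. -/

open Real

namespace T3

theorem D_nonneg (m n x : ℝ) : 0 ≤ D m n x := Real.sqrt_nonneg _

theorem D_comm (m n x : ℝ) : D m n x = D n m x := by
  unfold D
  congr 1
  ring

theorem D_neg (m n x : ℝ) : D m n (-x) = D m n x := by
  unfold D
  rw [show 2 * π * -x = -(2 * π * x) by ring, Real.cos_neg]

theorem D_one_sub (m n x : ℝ) : D m n (1 - x) = D m n x := by
  unfold D
  rw [show 2 * π * (1 - x) = 2 * π - 2 * π * x by ring, Real.cos_two_pi_sub]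

theorem D_zero (n x : ℝ) (hn : 0 ≤ n) : D 0 n x = n := by
  unfold D
  rw [show (0 - n) ^ 2 + 2 * 0 * n * (1 - Real.cos (2 * π * x)) = n ^ 2 by ring]
  exact Real.sqrt_sq hn

theorem D_sq (m n x : ℝ) (hm : 0 ≤ m) (hn : 0 ≤ n) :
    D m n x ^ 2 = (m - n) ^ 2 + 2 * m * n * (1 - Real.cos (2 * π * x)) := by
  unfold D
  refine Real.sq_sqrt ?_
  have h1 : 0 ≤ 1 - Real.cos (2 * π * x) := by linarith [Real.cos_le_one (2 * π * x)]
  positivity

theorem D_le_add (m n x : ℝ) (hm : 0 ≤ m) (hn : 0 ≤ n) : D m n x ≤ m + n := by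
  have h := D_sq m n x hm hn
  have h1 : 1 - Real.cos (2 * π * x) ≤ 2 := by linarith [Real.neg_one_le_cos (2 * π * x)]
  have h2 : 2 * m * n * (1 - Real.cos (2 * π * x)) ≤ 2 * m * n * 2 :=
    mul_le_mul_of_nonneg_left h1 (by positivity)
  refine le_of_sq_le_sq ?_ (by positivity)
  nlinarith

/-- polar form: D is a distance in the complex plane -/
theorem D_norm (m n x y : ℝ) :
    ‖(m : ℂ) * Complex.exp ((2 * π * x : ℝ) * Complex.I) -
      (n : ℂ) * Complex.exp ((2 * π * y : ℝ) * Complex.I)‖ = D m n (y - x) := by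
  unfold D
  rw [Complex.norm_eq_sqrt_sq_add_sq]
  congr 1
  have hc : ∀ t : ℝ, Complex.exp ((t : ℂ) * Complex.I) = ⟨Real.cos t, Real.sin t⟩ := by
    intro t
    apply Complex.ext
    · simp [Complex.exp_ofReal_mul_I_re]
    · simp [Complex.exp_ofReal_mul_I_im]
  rw [hc, hc]
  have h1 : Real.cos (2 * π * (y - x)) = Real.cos (2 * π * y) * Real.cos (2 * π * x) +
      Real.sin (2 * π * y) * Real.sin (2 * π * x) := by
    rw [show 2 * π * (y - x) = 2 * π * y - 2 * π * x by ring, Real.cos_sub]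
  rw [h1]
  simp only [Complex.sub_re, Complex.sub_im, Complex.mul_re, Complex.mul_im, Complex.ofReal_re,
    Complex.ofReal_im]
  have e1 := Real.sin_sq_add_cos_sq (2 * π * x)
  have e2 := Real.sin_sq_add_cos_sq (2 * π * y)
  linear_combination (m ^ 2) * e1 + (n ^ 2) * e2

theorem D_smul (c m n x : ℝ) (hc : 0 ≤ c) : D (c * m) (c * n) x = c * D m n x := by
  have h := D_norm (c * m) (c * n) 0 x
  have h' := D_norm m n 0 x
  rw [sub_zero] at h h'
  rw [← h, ← h', ← Complex.norm_of_nonneg hc, ← norm_mul, Complex.norm_of_nonneg hc]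
  congr 1
  push_cast
  ring

theorem D_add (m n m' n' x : ℝ) : D (m + m') (n + n') x ≤ D m n x + D m' n' x := by
  have h := D_norm (m + m') (n + n') 0 x
  have h1 := D_norm m n 0 x
  have h2 := D_norm m' n' 0 x
  rw [sub_zero] at h h1 h2
  rw [← h, ← h1, ← h2]
  refine le_trans (le_of_eq ?_) (norm_add_le _ _)
  congr 1
  push_cast
  ring

theorem D_sum {ι : Type} (s : Finset ι) (c m n : ι → ℝ) (x : ℝ) (hc : ∀ i ∈ s, 0 ≤ c i) :
    D (∑ i ∈ s, c i * m i) (∑ i ∈ s, c i * n i) x ≤ ∑ i ∈ s, c i * D (m i) (n i) x := by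
  classical
  induction s using Finset.induction_on with
  | empty => simp [D]
  | insert a s ha ih =>
    rw [Finset.sum_insert ha, Finset.sum_insert ha, Finset.sum_insert ha]
    refine le_trans (D_add _ _ _ _ _) ?_
    rw [D_smul _ _ _ _ (hc a (Finset.mem_insert_self a s))]
    have := ih (fun i hi => hc i (Finset.mem_insert_of_mem hi))
    linarith

theorem dd_symm (r U : ℕ → ℝ) (p q : ℕ) : dd r U p q = dd r U q p := by
  unfold dd
  rw [D_comm, ← D_neg]
  congr 1
  ring

end T3
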