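import Mathlib

namespace T3

/-!
# Degree 3 spanning trees: the certificate checker (computable part)

Positions 0..n-1 are the items in angular order (position 0 is the reference item); a length vector
lists the lengths position by position.  A block is a list: host first, then its one or two other
members; in a block of size three the second entry carries the bonus term.  All functions are
written with recursors and Nat.add etc. so that the kernel evaluates them quickly.
Scales: weights of distances 1000 (bonus 367, budget 366), lines 10^6, a full turn is 48 * 4096.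
-/

/-- list access with default, by recursors (fast in the kernel) -/
def nth {α : Type} (d : α) (l : List α) : ℕ → α :=
  List.rec (motive := fun _ => ℕ → α) (fun _ => d)
    (fun a _ ih i => Nat.rec (motive := fun _ => α) a (fun k _ => ih k) i) l

def drp {α : Type} (l : List α) (i : ℕ) : List α :=
  Nat.rec (motive := fun _ => List α → List α) (fun l => l)
    (fun _ ih l => List.rec (motive := fun _ => List α) [] (fun _ t _ => ih t) l) i l

def len {α : Type} (l : List α) : ℕ :=
  List.rec (motive := fun _ => ℕ) 0 (fun _ _ ih => Nat.succ ih) l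

/-- decode a base 8 word (7 is the separator) into blocks -/
def decB (f c : ℕ) (acc : List ℕ) : List (List ℕ) :=
  Nat.rec (motive := fun _ => ℕ → List ℕ → List (List ℕ)) (fun _ _ => [])
    (fun _ ih c acc => cond (Nat.beq c 0) []
      (cond (Nat.beq (Nat.mod c 8) 7) (acc.reverse :: ih (Nat.div c 8) [])
        (ih (Nat.div c 8) (Nat.mod c 8 :: acc)))) f c acc

def decA (f a : ℕ) : List (ℕ × List (List ℕ)) :=
  Nat.rec (motive := fun _ => ℕ → List (ℕ × List (List ℕ))) (fun _ => [])
    (fun _ ih a => cond (Nat.beq a 0) []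
      ((Nat.div (Nat.mod a 2199023255552) 16777216, decB 8 (Nat.mod a 16777216) []) ::
        ih (Nat.div a 2199023255552))) f a

def decU (f a : ℕ) : List ℕ :=
  Nat.rec (motive := fun _ => ℕ → List ℕ) (fun _ => [])
    (fun _ ih a => Nat.mod a 262144 :: ih (Nat.div a 262144)) f a

def sm (h s p q : ℕ) : Bool := or (and (Nat.beq h p) (Nat.beq s q)) (and (Nat.beq h q) (Nat.beq s p))

def pc (b : List ℕ) (p q : ℕ) : ℕ :=
  match b with
  | [h, s] => cond (sm h s p q) 1000 0
  | [h, s, t] => Nat.add (cond (sm h s p q) 1367 0) (cond (sm h t p q) 1000 0)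
  | _ => 0

def nh (b : List ℕ) (p : ℕ) : ℕ :=
  match b with
  | [_, s] => cond (Nat.beq s p) 1 0
  | [_, s, t] => Nat.add (cond (Nat.beq s p) 1 0) (cond (Nat.beq t p) 1 0)
  | _ => 0

def mem (i : ℕ) (l : List ℕ) : Bool :=
  List.rec (motive := fun _ => Bool) false (fun a _ ih => or (Nat.beq a i) ih) l

def bsOK (n : ℕ) (bs : List (List ℕ)) : Bool :=
  match bs with
  | [b1, b2] => Nat.ble 1 (len b1) && Nat.ble (len b1) 3 && Nat.ble 1 (len b2) &&
      Nat.ble (len b2) 3 && Nat.beq (Nat.add (len b1) (len b2)) n &&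
      Nat.rec (motive := fun _ => Bool) true (fun k ih => and (mem k (b1 ++ b2)) ih) n
  | _ => false

def pcs (bs : List (List ℕ)) (p q : ℕ) : ℕ :=
  match bs with
  | [b1, b2] => Nat.add (pc b1 p q) (pc b2 p q)
  | _ => 0

def nhs (bs : List (List ℕ)) (p : ℕ) : ℕ :=
  match bs with
  | [b1, b2] => Nat.add (nh b1 p) (nh b2 p)
  | _ => 0

def wC (ws : List (ℕ × List (List ℕ))) (p q : ℕ) : ℕ :=
  List.rec (motive := fun _ => ℕ) 0 (fun x _ ih => Nat.add (Nat.mul x.1 (pcs x.2 p q)) ih) ws

def wN (ws : List (ℕ × List (List ℕ))) (p : ℕ) : ℕ :=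
  List.rec (motive := fun _ => ℕ) 0 (fun x _ ih => Nat.add (Nat.mul x.1 (nhs x.2 p)) ih) ws

def wW (ws : List (ℕ × List (List ℕ))) : ℕ :=
  List.rec (motive := fun _ => ℕ) 0 (fun x _ ih => Nat.add x.1 ih) ws

def look (tab : List (List (List (ℕ × ℕ)))) (a b : ℕ) : List (ℕ × ℕ) :=
  cond (Nat.ble a b) (nth [] (nth [] tab a) (Nat.sub b a)) (nth [] (nth [] tab b) (Nat.sub a b))

def cmb (l : ℕ) (x y : ℕ) : ℕ := Nat.add (Nat.mul (Nat.sub 4096 l) x) (Nat.mul l y)

def bnd (tab : List (List (List (ℕ × ℕ)))) (a b X : ℕ) : ℕ × ℕ :=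
  match drp (look tab a b) (Nat.div X 4096) with
  | [] => (Nat.mul 4096000000 (Nat.add a b), Nat.mul 4096000000 (Nat.add a b))
  | [x] => (Nat.mul 4096 x.1, Nat.mul 4096 x.2)
  | x :: y :: _ => (cmb (Nat.mod X 4096) x.1 y.1, cmb (Nat.mod X 4096) x.2 y.2)

def bndF (tab : List (List (List (ℕ × ℕ)))) (a b X : ℕ) : ℕ × ℕ :=
  cond (Nat.ble X 98304) (bnd tab a b X)
    ((bnd tab a b (Nat.sub 196608 X)).2, (bnd tab a b (Nat.sub 196608 X)).1)

def mkT (tab : List (List (List (ℕ × ℕ)))) (G u : List ℕ) (C : List (ℕ × ℕ × ℕ)) :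
    List (ℕ × ℕ × ℕ × ℕ) :=
  List.rec (motive := fun _ => List (ℕ × ℕ × ℕ × ℕ)) []
    (fun x _ ih => cond (Nat.beq x.2.2 0) ih
      ((x.1, x.2.1,
        Nat.mul x.2.2 (bndF tab (nth 0 G x.1) (nth 0 G x.2.1) (Nat.sub (nth 0 u x.2.1) (nth 0 u x.1))).1,
        Nat.mul x.2.2 (bndF tab (nth 0 G x.1) (nth 0 G x.2.1) (Nat.sub (nth 0 u x.2.1) (nth 0 u x.1))).2) :: ih)) C

def sumAt (s : ℕ) (T : List (ℕ × ℕ × ℕ × ℕ)) : ℕ :=
  List.rec (motive := fun _ => ℕ) 0
    (fun x _ ih => Nat.add (cond (and (Nat.ble x.1 s) (Nat.blt s x.2.1)) x.2.2.2 x.2.2.1) ih) T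

def mkC (n : ℕ) (ws : List (ℕ × List (List ℕ))) : List (ℕ × ℕ × ℕ) :=
  (List.range n).flatMap (fun p => (List.range (n - 1 - p)).map (fun d =>
    (p, p + 1 + d, wC ws p (p + 1 + d))))

def linG (G N : List ℕ) : ℕ :=
  List.rec (motive := fun _ => List ℕ → ℕ) (fun _ => 0)
    (fun g _ ih N => List.rec (motive := fun _ => ℕ) 0 (fun m N _ => Nat.add (Nat.mul g m) (ih N)) N) G N

def lsum (G : List ℕ) : ℕ := List.rec (motive := fun _ => ℕ) 0 (fun g _ ih => Nat.add g ih) G

def genOK (tab : List (List (List (ℕ × ℕ)))) (n pt W : ℕ) (C : List (ℕ × ℕ × ℕ)) (N : List ℕ)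
    (G u : List ℕ) : Bool :=
  Nat.rec (motive := fun _ => Bool) true
    (fun s ih => and (Nat.ble (sumAt s (mkT tab G u C))
      (Nat.mul 4096000000 (Nat.add (Nat.mul (Nat.mul 366 W) (Nat.sub (lsum G) (nth 0 G pt)))
        (Nat.mul 1000 (linG G N))))) ih) n

def gensOK (tab : List (List (List (ℕ × ℕ)))) (n pt W : ℕ) (C : List (ℕ × ℕ × ℕ)) (N : List ℕ)
    (gens : List (List ℕ)) (u : ℕ) : Bool :=
  List.rec (motive := fun _ => ℕ → Bool) (fun _ => true)
    (fun G _ ih u => and (genOK tab n pt W C N G (0 :: decU (Nat.pred n) u))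
      (ih (Nat.div u (Nat.pow 262144 (Nat.pred n))))) gens u

def wsOK (n : ℕ) (ws : List (ℕ × List (List ℕ))) : Bool :=
  List.rec (motive := fun _ => Bool) true (fun x _ ih => and (bsOK n x.2) ih) ws

def leafOK (tab : List (List (List (ℕ × ℕ)))) (n pt : ℕ) (ws : List (ℕ × List (List ℕ)))
    (gens : List (List ℕ)) (u : ℕ) : Bool :=
  wsOK n ws && Nat.blt 0 (wW ws) &&
    gensOK tab n pt (wW ws) (mkC n ws) ((List.range n).map (wN ws)) gens u

inductive Cert
  | leaf (a u : ℕ) : Cert
  | node (i j : ℕ) (v : List ℕ) (l r : Cert) : Cert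

def vadd : List ℕ → List ℕ → List ℕ
  | a :: l, b :: m => (a + b) :: vadd l m
  | _, _ => []

def chk (tab : List (List (List (ℕ × ℕ)))) (n pt : ℕ) : Cert → List (List ℕ) → Bool
  | .leaf a u, gens => leafOK tab n pt (decA 64 a) gens u
  | .node i j v l r, gens =>
    Nat.blt i gens.length && Nat.blt j gens.length && (i != j) &&
    (v == vadd (gens.getD i []) (gens.getD j [])) &&
    chk tab n pt l (gens.set j v) &&
    chk tab n pt r (gens.set i v)

/-- the generators of the cone of length vectors ascending along ord -/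
def ginit (n : ℕ) (ord : List ℕ) : List (List ℕ) :=
  (List.range n).map (fun i => (List.range n).map (fun p => cond (mem p (ord.drop i)) 1 0))

end T3
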