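import Pool.Agent.Lib.MP_675adf_co.Api

/-! Project T3, module Geo: the local inequality from the positional statement. -/

open Real

namespace T3

/-- the relative angle of f x in turns, in [0, 1) -/
private noncomputable def geoPhi {α : Type} (f : α → ℂ) (x0 x : α) : ℝ :=
  Int.fract ((Complex.arg (f x) - Complex.arg (f x0)) / (2 * π))

private theorem geoPhi_self {α : Type} (f : α → ℂ) (x0 : α) : geoPhi f x0 x0 = 0 := by
  unfold geoPhi
  rw [sub_self, zero_div, Int.fract_zero]

private theorem geo_polar {α : Type} (f : α → ℂ) (x0 x : α) :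
    f x = ((‖f x‖ : ℝ) : ℂ) * Complex.exp ((2 * π * geoPhi f x0 x : ℝ) * Complex.I) *
      Complex.exp ((Complex.arg (f x0) : ℂ) * Complex.I) := by
  have hpi : (2 * π : ℝ) ≠ 0 := by positivity
  have h1 : (2 * π * geoPhi f x0 x : ℝ) = Complex.arg (f x) - Complex.arg (f x0) -
      2 * π * (⌊(Complex.arg (f x) - Complex.arg (f x0)) / (2 * π)⌋ : ℝ) := by
    unfold geoPhi
    rw [Int.fract, mul_sub, mul_div_cancel₀ _ hpi]
  have h2 : Complex.exp ((2 * π * geoPhi f x0 x : ℝ) * Complex.I) *
      Complex.exp ((Complex.arg (f x0) : ℂ) * Complex.I) =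
      Complex.exp ((Complex.arg (f x) : ℂ) * Complex.I) := by
    rw [← Complex.exp_add, h1]
    rw [Complex.exp_eq_exp_iff_exists_int]
    refine ⟨-⌊(Complex.arg (f x) - Complex.arg (f x0)) / (2 * π)⌋, ?_⟩
    push_cast
    ring
  rw [mul_assoc, h2]
  exact (Complex.norm_mul_exp_arg_mul_I (f x)).symm

private theorem geo_dist {α : Type} (f : α → ℂ) (x0 x y : α) :
    ‖f x - f y‖ = D ‖f x‖ ‖f y‖ (geoPhi f x0 y - geoPhi f x0 x) := by
  rw [← D_norm]
  conv_lhs => rw [geo_polar f x0 x, geo_polar f x0 y, ← sub_mul, norm_mul,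
    Complex.norm_exp_ofReal_mul_I, mul_one]

private theorem geo_last (r : ℕ → ℝ) : ∀ (l : List ℕ) (a : ℕ),
    (a :: l).Pairwise (fun p q => r p ≤ r q) → ∀ x ∈ a :: l, r x ≤ r ((a :: l).getLastD 0) := by
  intro l
  induction l with
  | nil =>
    intro a _ x hx
    rw [List.mem_singleton] at hx
    rw [hx]
    exact le_refl _
  | cons b l ih =>
    intro a h x hx
    have h1 : (a :: b :: l).getLastD 0 = (b :: l).getLastD 0 := by
      simp
    rw [h1]
    rw [List.pairwise_cons] at h
    rcases List.mem_cons.mp hx with rfl | hx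
    · exact le_trans (h.1 b (by simp)) (ih b h.2 b (by simp))
    · exact ih b h.2 x hx

private theorem geo_last_mem : ∀ (l : List ℕ) (a : ℕ), (a :: l).getLastD 0 ∈ a :: l := by
  intro l
  induction l with
  | nil => intro a; simp
  | cons b l ih =>
    intro a
    have h1 : (a :: b :: l).getLastD 0 = (b :: l).getLastD 0 := by
      simp
    rw [h1]
    exact List.mem_cons_of_mem _ (ih b)

private theorem geo_min {α : Type} (h : α → ℝ) : ∀ (L : List α), L ≠ [] →
    ∃ x ∈ L, ∀ y ∈ L, h x ≤ h y := by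
  intro L
  induction L with
  | nil => intro h; exact absurd rfl h
  | cons a l ih =>
    intro _
    by_cases hl : l = []
    · subst hl
      exact ⟨a, by simp, fun y hy => by rw [List.mem_singleton.mp hy]⟩
    · obtain ⟨x, hx, hmin⟩ := ih hl
      by_cases hax : h a ≤ h x
      · refine ⟨a, by simp, fun y hy => ?_⟩
        rcases List.mem_cons.mp hy with rfl | hy
        · exact le_refl _
        · exact le_trans hax (hmin y hy)
      · refine ⟨x, List.mem_cons_of_mem _ hx, fun y hy => ?_⟩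
        rcases List.mem_cons.mp hy with rfl | hy
        · exact le_of_lt (not_le.mp hax)
        · exact hmin y hy

private theorem geo_sort {α : Type} (h : α → ℝ) (L : List α) :
    ∃ M : List α, M.Perm L ∧ M.Pairwise (fun a b => h a ≤ h b) := by
  classical
  refine ⟨L.insertionSort (fun a b => h a ≤ h b), List.perm_insertionSort _ _, ?_⟩
  have : Std.Total (fun a b : α => h a ≤ h b) := ⟨fun a b => le_total (h a) (h b)⟩
  have : IsTrans α (fun a b : α => h a ≤ h b) := ⟨fun a b c => le_trans⟩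
  exact List.pairwise_insertionSort _ _

private theorem geo_cost {α : Type} (X : ℕ → α) (d : α → α → ℝ) (s : α → ℝ) (g : ℝ)
    (hg0 : 0 ≤ g) (hg' : g ≤ 367 / 1000) (hd : ∀ a b, 0 ≤ d a b) (e : ℕ → ℕ → ℝ) (r : ℕ → ℝ)
    (he : ∀ p q, e p q = d (X p) (X q)) (hr : ∀ p, r p = s (X p)) (h : ℕ) (t : List ℕ)
    (ht : t.length ≤ 2) :
    bcost g d s (X h) (t.map X) ≤ bcR (367 / 1000) e r (h :: t) := by
  match t, ht with
  | [], _ => simp [bcost, bonus, bcR]
  | [a], _ => simp [bcost, bonus, bcR, he, hr]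
  | [a, b], _ =>
    simp only [bcost, bonus, bcR, List.map_cons, List.map_nil, List.sum_cons, List.sum_nil, he, hr,
      add_zero]
    have h1 : g * min (d (X h) (X a)) (d (X h) (X b)) ≤ 367 / 1000 * d (X h) (X a) := by
      calc g * min (d (X h) (X a)) (d (X h) (X b)) ≤ g * d (X h) (X a) :=
            mul_le_mul_of_nonneg_left (min_le_left _ _) hg0
        _ ≤ 367 / 1000 * d (X h) (X a) := mul_le_mul_of_nonneg_right hg' (hd _ _)
    linarith

theorem loc_of_pst {n : ℕ} (hn : 2 ≤ n)
    (hP : ∀ l : List ℕ, l.Perm (List.range n).tail → Pst n (0 :: l)) {g : ℝ}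
    (hg : 366 / 1000 ≤ g) (hg' : g ≤ 367 / 1000) {α : Type} (f : α → ℂ) (L : List α)
    (hL : L.length = n) : Loc g (fun a b => ‖f a - f b‖) (fun a => ‖f a‖) L := by
  classical
  have hg0 : 0 ≤ g := by linarith
  have hLne : L ≠ [] := by
    intro h
    rw [h, List.length_nil] at hL
    omega
  obtain ⟨x0, hx0, hmin⟩ := geo_min (fun a => ‖f a‖) L hLne
  obtain ⟨M, hM, hMs⟩ := geo_sort (geoPhi f x0) (L.erase x0)
  have hxs : (x0 :: M).Perm L := (hM.cons x0).trans (List.perm_cons_erase hx0).symm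
  have hlen : (x0 :: M).length = n := hxs.length_eq.trans hL
  set xs := x0 :: M with hxsdef
  have hpw : xs.Pairwise (fun a b => geoPhi f x0 a ≤ geoPhi f x0 b) := by
    rw [hxsdef, List.pairwise_cons]
    refine ⟨fun b _ => ?_, hMs⟩
    rw [geoPhi_self]
    exact Int.fract_nonneg _
  set X : ℕ → α := fun p => xs.getD p x0 with hX
  have hX0 : X 0 = x0 := rfl
  have hXget : ∀ p (hp : p < xs.length), X p = xs[p] := fun p hp => List.getD_eq_getElem _ _ hp
  have hXmem : ∀ p < n, X p ∈ L := by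
    intro p hp
    rw [hXget p (by rw [hlen]; exact hp)]
    exact hxs.mem_iff.mp (List.getElem_mem _)
  have hmap : (List.range n).map X = xs := by
    apply List.ext_getElem
    · rw [List.length_map, List.length_range, hlen]
    · intro i h1 h2
      rw [List.getElem_map, List.getElem_range, hXget i h2]
  set r : ℕ → ℝ := fun p => ‖f (X p)‖ with hr
  set U : ℕ → ℝ := fun p => geoPhi f x0 (X p) with hU
  have hdd : ∀ p q, dd r U p q = ‖f (X p) - f (X q)‖ := by
    intro p q
    unfold dd
    exact (geo_dist f x0 (X p) (X q)).symm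
  have hang : AngOK n U := by
    refine ⟨?_, ?_, ?_⟩
    · change geoPhi f x0 (X 0) = 0
      rw [hX0, geoPhi_self]
    · intro p hp
      change geoPhi f x0 (X p) ≤ geoPhi f x0 (X (p + 1))
      rw [hXget p (by rw [hlen]; omega), hXget (p + 1) (by rw [hlen]; exact hp)]
      exact List.pairwise_iff_getElem.mp hpw p (p + 1) _ _ (Nat.lt_succ_self p)
    · exact le_of_lt (Int.fract_lt_one _)
  obtain ⟨l, hl, hls⟩ := geo_sort r (List.range n).tail
  have hrange : (0 :: l).Perm (List.range n) := by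
    have h1 : List.range n = 0 :: (List.range n).tail := by
      obtain ⟨m, rfl⟩ : ∃ m, n = m + 1 := ⟨n - 1, by omega⟩
      rw [List.range_succ_eq_map]
      rfl
    rw [h1]
    exact hl.cons 0
  have hlmem : ∀ p, p ∈ 0 :: l ↔ p < n := by
    intro p
    rw [hrange.mem_iff, List.mem_range]
  have hasc : Asc r (0 :: l) := by
    refine ⟨fun p _ => norm_nonneg _, ?_⟩
    rw [List.pairwise_cons]
    refine ⟨fun p hp => ?_, hls⟩
    have h1 : p < n := (hlmem p).mp (List.mem_cons_of_mem _ hp)
    exact hmin (X p) (hXmem p h1)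
  have hG := hP l hl r U hasc hang
  set pt := (0 :: l).getLastD 0 with hpt
  have hptn : pt < n := (hlmem pt).mp (geo_last_mem l 0)
  have hptmax : ∀ p < n, r p ≤ r pt := fun p hp =>
    geo_last r l 0 hasc.2 p ((hlmem p).mpr hp)
  obtain ⟨b1, b2, hb, hle⟩ := hG
  obtain ⟨h1, h2, h3, h4, hperm⟩ := bsOK_iff.mp hb
  obtain ⟨p1, t1, rfl⟩ : ∃ p t, b1 = p :: t := by
    cases b1 with
    | nil => simp at h1
    | cons p t => exact ⟨p, t, rfl⟩
  obtain ⟨p2, t2, rfl⟩ : ∃ p t, b2 = p :: t := by
    cases b2 with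
    | nil => simp at h3
    | cons p t => exact ⟨p, t, rfl⟩
  have ht1 : t1.length ≤ 2 := by
    rw [List.length_cons] at h2
    omega
  have ht2 : t2.length ≤ 2 := by
    rw [List.length_cons] at h4
    omega
  have hsum : (L.map (fun a => ‖f a‖)).sum = ∑ p ∈ Finset.range n, r p := by
    rw [← range_map_sum, ← (hxs.map (fun a => ‖f a‖)).sum_eq, ← hmap, List.map_map]
    rfl
  have hc1 := geo_cost X (fun a b => ‖f a - f b‖) (fun a => ‖f a‖) g hg0 hg'
    (fun a b => norm_nonneg _) (dd r U) r hdd (fun p => rfl) p1 t1 ht1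
  have hc2 := geo_cost X (fun a b => ‖f a - f b‖) (fun a => ‖f a‖) g hg0 hg'
    (fun a b => norm_nonneg _) (dd r U) r hdd (fun p => rfl) p2 t2 ht2
  refine ⟨X p1, t1.map X, X p2, t2.map X, ?_, by simpa using ht1, by simpa using ht2, ?_⟩
  · have h5 : (X p1 :: t1.map X) ++ (X p2 :: t2.map X) = ((p1 :: t1) ++ (p2 :: t2)).map X := by
      simp
    rw [h5]
    refine ((hperm.map X).trans ?_)
    rw [hmap]
    exact hxs
  · intro x hx
    have hx' : x ∈ xs := hxs.mem_iff.mpr hx
    rw [← hmap, List.mem_map] at hx'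
    obtain ⟨p, hp, rfl⟩ := hx'
    have hpn := List.mem_range.mp hp
    have h6 : r p ≤ r pt := hptmax p hpn
    have h7 : r pt ≤ ∑ p ∈ Finset.range n, r p :=
      Finset.single_le_sum (f := r) (fun i _ => norm_nonneg _) (Finset.mem_range.mpr hptn)
    rw [hsum]
    have h8 : 366 / 1000 * (∑ p ∈ Finset.range n, r p - r pt) ≤
        g * (∑ p ∈ Finset.range n, r p - r pt) :=
      mul_le_mul_of_nonneg_right hg (by linarith)
    have h9 : g * (∑ p ∈ Finset.range n, r p - r pt) ≤ g * (∑ q ∈ Finset.range n, r q - r p) :=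
      mul_le_mul_of_nonneg_left (by linarith) hg0
    calc _ ≤ _ := add_le_add hc1 hc2
      _ ≤ _ := hle
      _ ≤ _ := h8
      _ ≤ _ := h9

end T3
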