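import Mathlib

/-!
MP_675adf_co, project T3, module Hex: no six points in the half-open hexagonal position.
-/

open Real

namespace T3

namespace HexAux

/-- norm form of the hexagonal lattice -/
def Q (x y : ℝ) : ℝ := x ^ 2 + x * y + y ^ 2

theorem same {a b c d : ℝ} (ha : 0 ≤ a) (hb : 0 < b) (hc : 0 ≤ c) (hd : 0 < d)
    (h1 : Q a b ≤ Q (a - c) (b - d)) (h2 : Q c d ≤ Q (a - c) (b - d)) : False := by
  unfold Q at h1 h2
  have hN1 : 2 * a * c + 2 * b * d + a * d + b * c ≤ c ^ 2 + c * d + d ^ 2 := by linarith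
  have hN2 : 2 * a * c + 2 * b * d + a * d + b * c ≤ a ^ 2 + a * b + b ^ 2 := by linarith
  have hN0 : 0 ≤ 2 * a * c + 2 * b * d + a * d + b * c := by positivity
  have h3 := mul_le_mul hN1 hN2 hN0 (by positivity)
  have p1 : 0 ≤ a ^ 2 * c ^ 2 := by positivity
  have p2 : 0 < b ^ 2 * d ^ 2 := by positivity
  have p3 : 0 ≤ a * b * c * d := by positivity
  have p4 : 0 ≤ a ^ 2 * c * d := by positivity
  have p5 : 0 ≤ a * b * c ^ 2 := by positivity
  have p6 : 0 ≤ a * b * d ^ 2 := by positivity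
  have p7 : 0 ≤ b ^ 2 * c * d := by positivity
  nlinarith

/-- the sector of a point in hexagonal coordinates -/
noncomputable def sec (x y : ℝ) : Fin 6 :=
  if 0 < y then (if 0 ≤ x then 0 else if 0 ≤ x + y then 1 else 2)
  else if y = 0 then (if 0 < x then 5 else 2)
  else (if x ≤ 0 then 3 else if x + y ≤ 0 then 4 else 5)

theorem sec_spec (x y : ℝ) (h0 : ¬ (x = 0 ∧ y = 0)) :
    (sec x y = 0 ∧ 0 ≤ x ∧ 0 < y) ∨ (sec x y = 1 ∧ 0 ≤ x + y ∧ 0 < -x) ∨
    (sec x y = 2 ∧ 0 ≤ y ∧ 0 < -x - y) ∨ (sec x y = 3 ∧ 0 ≤ -x ∧ 0 < -y) ∨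
    (sec x y = 4 ∧ 0 ≤ -x - y ∧ 0 < x) ∨ (sec x y = 5 ∧ 0 ≤ -y ∧ 0 < x + y) := by
  unfold sec
  by_cases hy : 0 < y
  · rw [if_pos hy]
    by_cases hx : 0 ≤ x
    · rw [if_pos hx]
      exact Or.inl ⟨rfl, hx, hy⟩
    · rw [if_neg hx]
      rw [not_le] at hx
      by_cases hxy : 0 ≤ x + y
      · rw [if_pos hxy]
        exact Or.inr (Or.inl ⟨rfl, hxy, by linarith⟩)
      · rw [if_neg hxy]
        rw [not_le] at hxy
        exact Or.inr (Or.inr (Or.inl ⟨rfl, hy.le, by linarith⟩))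
  · rw [if_neg hy]
    by_cases hy0 : y = 0
    · rw [if_pos hy0]
      by_cases hx : 0 < x
      · rw [if_pos hx]
        exact Or.inr (Or.inr (Or.inr (Or.inr (Or.inr ⟨rfl, by linarith, by linarith⟩))))
      · rw [if_neg hx]
        have hx0 : x ≠ 0 := fun hx0 => h0 ⟨hx0, hy0⟩
        have hx1 : x < 0 := lt_of_le_of_ne (not_lt.mp hx) hx0
        exact Or.inr (Or.inr (Or.inl ⟨rfl, by linarith, by linarith⟩))
    · rw [if_neg hy0]
      have hy1 : y < 0 := lt_of_le_of_ne (not_lt.mp hy) hy0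
      by_cases hx : x ≤ 0
      · rw [if_pos hx]
        exact Or.inr (Or.inr (Or.inr (Or.inl ⟨rfl, by linarith, by linarith⟩)))
      · rw [if_neg hx]
        rw [not_le] at hx
        by_cases hxy : x + y ≤ 0
        · rw [if_pos hxy]
          exact Or.inr (Or.inr (Or.inr (Or.inr (Or.inl ⟨rfl, by linarith, hx⟩))))
        · rw [if_neg hxy]
          rw [not_le] at hxy
          exact Or.inr (Or.inr (Or.inr (Or.inr (Or.inr ⟨rfl, by linarith, hxy⟩))))

theorem sec_inj {x y x' y' : ℝ} (h0 : ¬ (x = 0 ∧ y = 0)) (h0' : ¬ (x' = 0 ∧ y' = 0))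
    (h : sec x y = sec x' y')
    (h1 : Q x y ≤ Q (x - x') (y - y')) (h2 : Q x' y' ≤ Q (x - x') (y - y')) : False := by
  unfold Q at h1 h2
  rcases sec_spec x y h0 with ⟨e, a, b⟩ | ⟨e, a, b⟩ | ⟨e, a, b⟩ | ⟨e, a, b⟩ | ⟨e, a, b⟩ | ⟨e, a, b⟩ <;>
  rcases sec_spec x' y' h0' with ⟨f, c, d⟩ | ⟨f, c, d⟩ | ⟨f, c, d⟩ | ⟨f, c, d⟩ | ⟨f, c, d⟩ |
    ⟨f, c, d⟩ <;>
  rw [e, f] at h <;>
  first
  | exact absurd h (by decide)
  | exact same a b c d (by unfold Q; linarith) (by unfold Q; linarith)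

/-- the sixth root of unity -/
noncomputable def w : ℂ := ⟨1 / 2, Real.sqrt 3 / 2⟩

theorem s3 : Real.sqrt 3 ^ 2 = 3 := Real.sq_sqrt (by norm_num)

theorem w_sq : w ^ 2 = w - 1 := by
  have h := s3
  apply Complex.ext
  · simp [w, sq]
    nlinarith
  · simp [w, sq]
    ring

theorem normSq_comb (x y : ℝ) : Complex.normSq ((x : ℂ) + (y : ℂ) * w) = Q x y := by
  have h := s3
  rw [Complex.normSq_apply]
  simp [w, Q]
  nlinarith

theorem exists_coord (u : ℂ) : ∃ x y : ℝ, u = (x : ℂ) + (y : ℂ) * w := by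
  have h := s3
  have h0 : Real.sqrt 3 ≠ 0 := by
    intro h1
    rw [h1] at h
    norm_num at h
  refine ⟨u.re - u.im / Real.sqrt 3, 2 * u.im / Real.sqrt 3, ?_⟩
  apply Complex.ext
  · simp [w]
    field_simp
    ring
  · simp [w]
    field_simp

theorem step (z : Fin 6 → ℂ) (h0 : ∀ i, z i ≠ 0)
    (h : ∀ i j, i ≠ j → ‖z i‖ ≤ ‖z i - z j‖) (i : Fin 6) : ∃ j, z j = w * z i := by
  choose X Y hXY using fun j => exists_coord (z j / z i)
  have hz : ∀ j, z j = ((X j : ℂ) + (Y j : ℂ) * w) * z i := by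
    intro j
    rw [← hXY j, div_mul_cancel₀ _ (h0 i)]
  have hn0 : 0 < Complex.normSq (z i) := Complex.normSq_pos.mpr (h0 i)
  have hQ : ∀ j k, j ≠ k → Q (X j) (Y j) ≤ Q (X j - X k) (Y j - Y k) := by
    intro j k hjk
    have h1 := h j k hjk
    have h2 : Complex.normSq (z j) ≤ Complex.normSq (z j - z k) := by
      rw [Complex.normSq_eq_norm_sq, Complex.normSq_eq_norm_sq]
      exact pow_le_pow_left₀ (norm_nonneg _) h1 2
    have e1 : z j - z k = (((X j - X k : ℝ) : ℂ) + ((Y j - Y k : ℝ) : ℂ) * w) * z i := by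
      rw [hz j, hz k]
      push_cast
      ring
    rw [e1, hz j, Complex.normSq_mul, Complex.normSq_mul, normSq_comb, normSq_comb] at h2
    exact le_of_mul_le_mul_right h2 hn0
  have hne : ∀ j, ¬ (X j = 0 ∧ Y j = 0) := by
    rintro j ⟨hx, hy⟩
    apply h0 j
    rw [hz j, hx, hy]
    simp
  have hinj : Function.Injective (fun j => sec (X j) (Y j)) := by
    intro j k hjk
    by_contra hne'
    refine sec_inj (hne j) (hne k) hjk (hQ j k hne') ?_
    have := hQ k j (Ne.symm hne')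
    unfold Q at this ⊢
    linarith
  obtain ⟨j, hj⟩ := (Finite.injective_iff_surjective.mp hinj) 0
  have hj' : sec (X j) (Y j) = 0 := hj
  have hs : 0 ≤ X j ∧ 0 < Y j := by
    rcases sec_spec (X j) (Y j) (hne j) with ⟨e, a, b⟩ | ⟨e, a, b⟩ | ⟨e, a, b⟩ | ⟨e, a, b⟩ |
      ⟨e, a, b⟩ | ⟨e, a, b⟩ <;> first
      | exact ⟨a, b⟩
      | (rw [hj'] at e; exact absurd e (by decide))
  have hi : X i = 1 ∧ Y i = 0 := by
    have e := hXY i
    rw [div_self (h0 i)] at e
    have e1 := congrArg Complex.im e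
    have e2 := congrArg Complex.re e
    simp [w] at e1 e2
    have hs3 : Real.sqrt 3 ≠ 0 := by
      intro h1
      have h := s3
      rw [h1] at h
      norm_num at h
    have hy : Y i = 0 := e1
    rw [hy] at e2
    exact ⟨by linarith, hy⟩
  have hji : j ≠ i := by
    rintro rfl
    rw [hi.2] at hs
    exact lt_irrefl _ hs.2
  have q1 := hQ i j (Ne.symm hji)
  have q2 := hQ j i hji
  rw [hi.1, hi.2] at q1 q2
  unfold Q at q1 q2
  obtain ⟨hc, hd⟩ := hs
  refine ⟨j, ?_⟩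
  have r1 : 2 * X j + Y j ≤ X j ^ 2 + X j * Y j + Y j ^ 2 := by linarith
  have r2 : 2 * X j + Y j ≤ 1 := by linarith
  have r0 : 0 ≤ 2 * X j + Y j := by linarith
  have r3 := mul_le_mul r1 r2 r0 (by positivity)
  have hc0 : X j = 0 := by
    by_contra hne0
    have hcp : 0 < X j := lt_of_le_of_ne hc (Ne.symm hne0)
    nlinarith [mul_pos hcp hd, mul_pos hcp hcp]
  rw [hc0] at r1 r2
  have hd1 : Y j = 1 := by
    have r4 : 1 ≤ Y j := by
      by_contra hlt
      rw [not_le] at hlt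
      nlinarith
    linarith
  rw [hz j, hc0, hd1]
  simp

theorem re_w_mul (s : ℂ) : (w * s).re = s.re / 2 - Real.sqrt 3 / 2 * s.im := by
  simp [w]
  ring

end HexAux

open HexAux in
theorem hex (z : Fin 6 → ℂ) (h0 : ∀ i, z i ≠ 0)
    (h : ∀ i j, i ≠ j → ‖z i‖ < ‖z i - z j‖ ∨
      (‖z i‖ = ‖z i - z j‖ ∧ (z i).re ^ 2 ≤ (z i - z j).re ^ 2)) : False := by
  have hle : ∀ i j, i ≠ j → ‖z i‖ ≤ ‖z i - z j‖ := by
    intro i j hij
    rcases h i j hij with h1 | h1
    · exact h1.le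
    · exact h1.1.le
  have hw2 := w_sq
  have hw3 : w ^ 3 = -1 := by linear_combination (w + 1) * hw2
  have hnw : ‖w‖ = 1 := by
    have h6 : w ^ 6 = 1 := by linear_combination (w ^ 3 - 1) * hw3
    exact (Complex.norm_eq_one_of_pow_eq_one h6 (by norm_num))
  have hw1 : w ≠ 1 := by
    intro e
    rw [e] at hw3
    norm_num at hw3
  -- key: the square of the real part does not decrease under multiplication by w
  have key : ∀ i, (z i).re ^ 2 ≤ (w * z i).re ^ 2 := by
    intro i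
    obtain ⟨i1, e1⟩ := step z h0 hle i
    obtain ⟨i2, e2⟩ := step z h0 hle i1
    obtain ⟨i3, e3⟩ := step z h0 hle i2
    obtain ⟨i4, e4⟩ := step z h0 hle i3
    obtain ⟨i5, e5⟩ := step z h0 hle i4
    have e : z i - z i5 = w * z i := by
      rw [e5, e4, e3, e2, e1]
      linear_combination (z i) * hw2 - (z i) * w ^ 2 * hw3
    have hne : i ≠ i5 := by
      rintro rfl
      rw [sub_self] at e
      have hw0 : w * z i ≠ 0 := by
        refine mul_ne_zero ?_ (h0 i)
        intro hw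
        rw [hw] at hnw
        simp at hnw
      exact hw0 e.symm
    have hn : ‖z i‖ = ‖z i - z i5‖ := by rw [e, norm_mul, hnw, one_mul]
    rcases h i i5 hne with h1 | h1
    · exact absurd hn h1.ne
    · rw [e] at h1
      exact h1.2
  obtain ⟨i1, e1⟩ := step z h0 hle 0
  obtain ⟨i2, e2⟩ := step z h0 hle i1
  have k0 := key 0
  have k1 := key i1
  have k2 := key i2
  rw [e1] at k1
  rw [e2, e1] at k2
  have e3 : w * (w * z 0) = w * z 0 - z 0 := by linear_combination (z 0) * hw2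
  have e4 : w * (w * (w * z 0)) = - z 0 := by linear_combination (z 0) * hw3
  rw [e3] at k1
  rw [e4, e3] at k2
  rw [Complex.sub_re] at k1 k2
  rw [Complex.neg_re] at k2
  have hx0 : (z 0).re = 0 := by
    have a1 : (w * z 0).re ^ 2 = (z 0).re ^ 2 := by nlinarith
    have a2 : (z 0).re ^ 2 = 2 * (z 0).re * (w * z 0).re := by nlinarith
    have a3 : (z 0).re ^ 2 = 0 := by
      by_contra hne
      have hx : (z 0).re ≠ 0 := fun hx => hne (by rw [hx]; ring)
      have a4 : (z 0).re = 2 * (w * z 0).re := by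
        have : (z 0).re * ((z 0).re - 2 * (w * z 0).re) = 0 := by linarith [a2, sq ((z 0).re)]
        rcases mul_eq_zero.mp this with h5 | h5
        · exact absurd h5 hx
        · linarith
      apply hne
      rw [a4] at a1
      nlinarith
    exact pow_eq_zero_iff (two_ne_zero) |>.mp a3
  have hx1 : (w * z 0).re = 0 := by
    have : (w * z 0).re ^ 2 = 0 := by
      rw [hx0] at k0 k1 k2
      nlinarith
    exact pow_eq_zero_iff (two_ne_zero) |>.mp this
  rw [re_w_mul, hx0] at hx1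
  have hs : Real.sqrt 3 ≠ 0 := by
    intro h1
    have h := s3
    rw [h1] at h
    norm_num at h
  have hy0 : (z 0).im = 0 := by
    have : Real.sqrt 3 * (z 0).im = 0 := by linarith
    rcases mul_eq_zero.mp this with h5 | h5
    · exact absurd h5 hs
    · exact h5
  exact h0 0 (Complex.ext hx0 hy0)

end T3
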