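import Pool.Agent.Lib.MP_675adf_co.Api

/-! The reflected order of positions. -/

open Real

namespace T3

namespace MirAux

/-- the reflection p goes to n - p with 0 fixed -/
def sgm (n p : ℕ) : ℕ := if p = 0 then 0 else n - p

/-- the angles of the reflected configuration -/
noncomputable def Um (n : ℕ) (U : ℕ → ℝ) (p : ℕ) : ℝ := if p = 0 then 0 else 1 - U (n - p)

theorem sgm_zero (n : ℕ) : sgm n 0 = 0 := by simp [sgm]

theorem sgm_lt {n p : ℕ} (hp : p < n) : sgm n p < n := by
  unfold sgm
  split_ifs with h <;> omega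

theorem sgm_sgm {n p : ℕ} (hp : p < n) : sgm n (sgm n p) = p := by
  unfold sgm
  by_cases h : p = 0
  · simp [h]
  · have h1 : n - p ≠ 0 := by omega
    simp only [h, h1, if_false]
    omega

theorem cons_mir {n : ℕ} {l : List ℕ} (hl : ∀ p ∈ l, 0 < p) :
    0 :: mir n l = (0 :: l).map (sgm n) := by
  rw [List.map_cons, sgm_zero]
  congr 1
  unfold mir
  refine List.map_congr_left fun p hp => ?_
  have := hl p hp
  unfold sgm
  rw [if_neg (by omega)]

theorem range_sgm (n : ℕ) : ((List.range n).map (sgm n)).Perm (List.range n) := by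
  refine (List.perm_ext_iff_of_nodup ?_ List.nodup_range).mpr ?_
  · refine (List.nodup_map_iff_inj_on List.nodup_range).mpr ?_
    intro a ha b hb hab
    rw [← sgm_sgm (List.mem_range.mp ha), ← sgm_sgm (List.mem_range.mp hb), hab]
  · intro a
    constructor
    · intro h
      obtain ⟨b, hb, rfl⟩ := List.mem_map.mp h
      exact List.mem_range.mpr (sgm_lt (List.mem_range.mp hb))
    · intro h
      have h' := List.mem_range.mp h
      exact List.mem_map.mpr ⟨sgm n a, List.mem_range.mpr (sgm_lt h'), sgm_sgm h'⟩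

theorem sum_sgm (n : ℕ) (r : ℕ → ℝ) :
    ∑ p ∈ Finset.range n, r (sgm n p) = ∑ p ∈ Finset.range n, r p := by
  refine Finset.sum_nbij' (sgm n) (sgm n) ?_ ?_ ?_ ?_ ?_
  · intro p hp
    exact Finset.mem_range.mpr (sgm_lt (Finset.mem_range.mp hp))
  · intro p hp
    exact Finset.mem_range.mpr (sgm_lt (Finset.mem_range.mp hp))
  · intro p hp
    exact sgm_sgm (Finset.mem_range.mp hp)
  · intro p hp
    exact sgm_sgm (Finset.mem_range.mp hp)
  · intro p _
    rfl

theorem angOK_bounds {n : ℕ} {U : ℕ → ℝ} (hU : AngOK n U) (p : ℕ) (hp : p < n) :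
    0 ≤ U p ∧ U p ≤ 1 := by
  obtain ⟨h0, h1, h2⟩ := hU
  constructor
  · induction p with
    | zero => exact le_of_eq h0.symm
    | succ p ih => exact le_trans (ih (by omega)) (h1 p hp)
  · have key : ∀ k, k < n → U (n - 1 - k) ≤ 1 := by
      intro k
      induction k with
      | zero => intro _; exact h2
      | succ k ih =>
        intro hk
        have h3 := ih (by omega)
        have h4 := h1 (n - 1 - (k + 1)) (by omega)
        rw [show n - 1 - (k + 1) + 1 = n - 1 - k by omega] at h4
        exact le_trans h4 h3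
    have := key (n - 1 - p) (by omega)
    rwa [show n - 1 - (n - 1 - p) = p by omega] at this

theorem angOK_Um {n : ℕ} (hn : 2 ≤ n) {U : ℕ → ℝ} (hU : AngOK n U) : AngOK n (Um n U) := by
  refine ⟨by simp [Um], ?_, ?_⟩
  · intro p hp
    unfold Um
    rw [if_neg (Nat.succ_ne_zero p)]
    by_cases h : p = 0
    · rw [if_pos h]
      have := (angOK_bounds hU (n - (p + 1)) (by omega)).2
      linarith
    · rw [if_neg h]
      have := hU.2.1 (n - (p + 1)) (by omega)
      rw [show n - (p + 1) + 1 = n - p by omega] at this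
      linarith
  · unfold Um
    rw [if_neg (by omega)]
    have := (angOK_bounds hU (n - (n - 1)) (by omega)).1
    linarith

theorem dd_Um {n : ℕ} {U : ℕ → ℝ} (h0 : U 0 = 0) (r : ℕ → ℝ) (p q : ℕ) :
    dd (fun p => r (sgm n p)) (Um n U) p q = dd r U (sgm n p) (sgm n q) := by
  unfold dd Um
  by_cases hp : p = 0
  · by_cases hq : q = 0
    · simp [hp, hq]
    · have e : sgm n q = n - q := by simp [sgm, hq]
      simp only [hp, hq, if_true, if_false, sgm_zero, h0, e, sub_zero]
      exact D_one_sub _ _ _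
  · have e1 : sgm n p = n - p := by simp [sgm, hp]
    by_cases hq : q = 0
    · simp only [hp, hq, if_true, if_false, sgm_zero, h0, e1, zero_sub]
      rw [D_neg, D_neg]
      exact D_one_sub _ _ _
    · have e2 : sgm n q = n - q := by simp [sgm, hq]
      simp only [hp, hq, if_false, e1, e2]
      rw [← D_neg]
      congr 1
      ring

theorem bcR_Um {n : ℕ} {U : ℕ → ℝ} (h0 : U 0 = 0) (β : ℝ) (r : ℕ → ℝ) (b : List ℕ) :
    bcR β (dd r U) r (b.map (sgm n)) =
      bcR β (dd (fun p => r (sgm n p)) (Um n U)) (fun p => r (sgm n p)) b := by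
  match b with
  | [] => rfl
  | [_] => rfl
  | [h, s] =>
    simp only [List.map_cons, List.map_nil, bcR]
    rw [dd_Um h0]
  | [h, s, t] =>
    simp only [List.map_cons, List.map_nil, bcR]
    rw [dd_Um h0, dd_Um h0]
  | _ :: _ :: _ :: _ :: _ => rfl

theorem getLastD_map_sgm (n : ℕ) (l : List ℕ) (a : ℕ) :
    (l.map (sgm n)).getLastD (sgm n a) = sgm n (l.getLastD a) := by
  induction l generalizing a with
  | nil => rfl
  | cons b l ih =>
    rw [List.map_cons, List.getLastD_cons, List.getLastD_cons]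
    exact ih b

end MirAux

open MirAux in
theorem mir_sound {n : ℕ} (hn : 2 ≤ n) {l : List ℕ} (hl : l.Perm (List.range n).tail)
    (h : Pst n (0 :: l)) : Pst n (0 :: mir n l) := by
  have hpos : ∀ p ∈ l, 0 < p := by
    intro p hp
    have h1 := hl.mem_iff.mp hp
    have h2 : (List.range n).tail = (List.range (n - 1)).map Nat.succ := by
      obtain ⟨m, rfl⟩ : ∃ m, n = m + 1 := ⟨n - 1, by omega⟩
      rw [List.range_succ_eq_map]
      rfl
    rw [h2] at h1
    obtain ⟨k, _, rfl⟩ := List.mem_map.mp h1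
    exact Nat.succ_pos k
  intro r U hr hU
  rw [cons_mir hpos] at hr ⊢
  have hA : Asc (fun p => r (sgm n p)) (0 :: l) := by
    refine ⟨fun p hp => hr.1 _ (List.mem_map_of_mem hp), ?_⟩
    have h2 := hr.2
    rw [List.pairwise_map] at h2
    exact h2
  obtain ⟨b1, b2, hb, hle⟩ := h _ (Um n U) hA (angOK_Um hn hU)
  obtain ⟨q1, q2, q3, q4, q5⟩ := bsOK_iff.mp hb
  refine ⟨b1.map (sgm n), b2.map (sgm n), ?_, ?_⟩
  · refine bsOK_iff.mpr ⟨?_, ?_, ?_, ?_, ?_⟩
    · rwa [List.length_map]
    · rwa [List.length_map]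
    · rwa [List.length_map]
    · rwa [List.length_map]
    · rw [← List.map_append]
      exact (q5.map _).trans (range_sgm n)
  · rw [bcR_Um hU.1, bcR_Um hU.1]
    have e1 : ((0 :: l).map (sgm n)).getLastD 0 = sgm n ((0 :: l).getLastD 0) := by
      have := getLastD_map_sgm n (0 :: l) 0
      rwa [sgm_zero] at this
    rw [e1, ← sum_sgm n r]
    exact hle

end T3
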