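import Pool.Agent.Lib.MP_675adf_co.LineDef

/-! Degree 3 spanning trees: real side definitions. -/

open Real

namespace T3

/-- distance between the points with polar coordinates (m, 0) and (n, 2 pi x) -/
noncomputable def D (m n x : ℝ) : ℝ :=
  Real.sqrt ((m - n) ^ 2 + 2 * m * n * (1 - Real.cos (2 * π * x)))

/-- cost of a block (host first, bonus on the second entry) -/
noncomputable def bcR (β : ℝ) (dd : ℕ → ℕ → ℝ) (r : ℕ → ℝ) : List ℕ → ℝ
  | [h, s] => dd h s - r s
  | [h, s, t] => (1 + β) * dd h s - r s + (dd h t - r t)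
  | _ => 0

noncomputable def bcs (β : ℝ) (dd : ℕ → ℕ → ℝ) (r : ℕ → ℝ) : List (List ℕ) → ℝ
  | [b1, b2] => bcR β dd r b1 + bcR β dd r b2
  | _ => 0

/-- every stored line is an upper bound (scale 10^6) -/
def TabSound (tab : List (List (List (ℕ × ℕ)))) : Prop :=
  ∀ a b : ℕ, ∀ ln ∈ look tab a b, ∀ x : ℝ, 0 ≤ x → x ≤ 1 →
    1000000 * D a b x ≤ (1 - x) * (ln.1 : ℝ) + x * (ln.2 : ℝ)

def BndSound (tab : List (List (List (ℕ × ℕ)))) : Prop :=
  ∀ a b X : ℕ, ∀ x : ℝ, 0 ≤ x → x ≤ 1 →
    4096000000 * D a b x ≤ (1 - x) * ((bndF tab a b X).1 : ℝ) + x * ((bndF tab a b X).2 : ℝ)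

/-- length vector with coefficients lam over the generators -/
noncomputable def gval (gens : List (List ℕ)) (lam : ℕ → ℝ) (p : ℕ) : ℝ :=
  ∑ k ∈ Finset.range gens.length, lam k * ((nth 0 (nth [] gens k) p : ℕ) : ℝ)

/-- angles in turns, in cyclic order, position 0 at angle 0 -/
def AngOK (n : ℕ) (U : ℕ → ℝ) : Prop :=
  U 0 = 0 ∧ (∀ p, p + 1 < n → U p ≤ U (p + 1)) ∧ U (n - 1) ≤ 1

/-- distances between positions -/
noncomputable def dd (r U : ℕ → ℝ) (p q : ℕ) : ℝ := D (r p) (r q) (U q - U p)

/-- there is an arrangement of cost at most 0.366 (sum - r pt) -/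
def Good (n pt : ℕ) (r U : ℕ → ℝ) : Prop :=
  ∃ b1 b2 : List ℕ, bsOK n [b1, b2] = true ∧
    bcR (367 / 1000) (dd r U) r b1 + bcR (367 / 1000) (dd r U) r b2 ≤
      366 / 1000 * (∑ p ∈ Finset.range n, r p - r pt)

def CS (n pt : ℕ) (gens : List (List ℕ)) : Prop :=
  ∀ lam : ℕ → ℝ, (∀ k, 0 ≤ lam k) → ∀ U : ℕ → ℝ, AngOK n U → Good n pt (gval gens lam) U

/-- r is nonnegative and ascending along the list of positions ord -/
def Asc (r : ℕ → ℝ) (ord : List ℕ) : Prop :=
  (∀ p ∈ ord, 0 ≤ r p) ∧ ord.Pairwise (fun p q => r p ≤ r q)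

def Pst (n : ℕ) (ord : List ℕ) : Prop :=
  ∀ r U : ℕ → ℝ, Asc r ord → AngOK n U → Good n (ord.getLastD 0) r U

/-- reflected order of positions: p goes to n - p, position 0 is fixed -/
def mir (n : ℕ) (l : List ℕ) : List ℕ := l.map (fun p => n - p)

/-- lower and upper bounds (scale 10^14) of cos (j pi / 24), j = 0..12 -/
def cosB : List (ℤ × ℤ) := [
  (100000000000000, 100000000000000), (99144486137380, 99144486137383), (96592582628905, 96592582628908), (92387953251127, 92387953251130), (86602540378442, 86602540378445), (79335334029122, 79335334029125), (70710678118653, 70710678118656), (60876142900871, 60876142900874), (50000000000000, 50000000000000), (38268343236507, 38268343236510), (25881904510251, 25881904510254), (13052619222004, 13052619222007), (0, 0)]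

/-- quadratic majorant of 1 - cos t, tangent at t0 and exact at 0 -/
def QuadStm : Prop := ∀ t0 t : ℝ, 0 < t0 → t0 ≤ π → 0 ≤ t → t ≤ π →
  1 - Real.cos t ≤ ((2 * (1 - Real.cos t0) - t0 * Real.sin t0) / t0) * t +
    ((Real.cos t0 + t0 * Real.sin t0 - 1) / t0 ^ 2) * t ^ 2

def CosBStm : Prop := ∀ j : ℕ, j ≤ 12 →
  ((nth (0, 0) cosB j).1 : ℝ) ≤ 100000000000000 * Real.cos (j * π / 24) ∧
  100000000000000 * Real.cos (j * π / 24) ≤ ((nth (0, 0) cosB j).2 : ℝ)

def BaseStm : Prop := ∀ k : ℕ, k ≤ 24 → ∀ x : ℝ, 0 ≤ x → x ≤ 1 / 2 →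
  10000000 * (1 - Real.cos (2 * π * x)) ≤
    ((nth (0, 0) base k).1 : ℝ) * x + ((nth (0, 0) base k).2 : ℝ) * x ^ 2

/-! ### trees -/

/-- ordered forests: first tree (root v, children c), remaining trees s -/
inductive Forest (V : Type) : Type
  | nil : Forest V
  | cons (v : V) (c s : Forest V) : Forest V

namespace Forest
variable {V : Type}

/-- the list of top level trees -/
def toL : Forest V → List (V × Forest V)
  | nil => []
  | cons v c s => (v, c) :: toL s

/-- all nodes -/
def nodes : Forest V → List V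
  | nil => []
  | cons v c s => v :: (nodes c ++ nodes s)

/-- parent-child pairs when the top level roots are attached to p -/
def edges (p : V) : Forest V → List (V × V)
  | nil => []
  | cons v c s => (p, v) :: (edges v c ++ edges p s)

/-- total length of the edges when the top level roots are attached to p -/
def wt (d : V → V → ℝ) (p : V) : Forest V → ℝ
  | nil => 0
  | cons v c s => d p v + wt d v c + wt d p s

/-- every node of the forest has at most K children -/
def ok (K : ℕ) : Forest V → Prop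
  | nil => True
  | cons _ c s => c.toL.length ≤ K ∧ ok K c ∧ ok K s

end Forest

/-- nodes of a list of trees -/
def nodesL {V : Type} (L : List (V × Forest V)) : List V := L.flatMap (fun x => x.1 :: x.2.nodes)

/-- bonus term of a host h with the pending items R (attached to the host) -/
noncomputable def bonus (g : ℝ) {α : Type} (e : α → ℝ) : List α → ℝ
  | [a, b] => g * min (e a) (e b)
  | _ => 0

/-- cost of the block with host h and other members R; d = distance, r = distance to the centre -/
noncomputable def bcost (g : ℝ) {α : Type} (d : α → α → ℝ) (r : α → ℝ) (h : α) (R : List α) : ℝ :=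
  (R.map (fun a => d h a - r a)).sum + bonus g (d h) R

/-- the local inequality for the list L of items -/
def Loc (g : ℝ) {α : Type} (d : α → α → ℝ) (r : α → ℝ) (L : List α) : Prop :=
  ∃ (h1 : α) (R1 : List α) (h2 : α) (R2 : List α), (h1 :: R1 ++ h2 :: R2).Perm L ∧
    R1.length ≤ 2 ∧ R2.length ≤ 2 ∧
    ∀ x ∈ L, bcost g d r h1 R1 + bcost g d r h2 R2 ≤ g * ((L.map r).sum - r x)

/-! ### spanning trees of a finite set of points -/

/-- length of an edge -/
noncomputable def elen {V : Type} (d : V → V → ℝ) (hd : ∀ a b, d a b = d b a) (e : Sym2 V) : ℝ :=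
  Sym2.lift ⟨d, hd⟩ e

open Classical in
/-- total length of the edges of a graph -/
noncomputable def gw {V : Type} [Fintype V] (d : V → V → ℝ) (hd : ∀ a b, d a b = d b a)
    (T : SimpleGraph V) : ℝ :=
  ∑ e ∈ Finset.univ.filter (fun e : Sym2 V => e ∈ T.edgeSet), elen d hd e

/-- g = (sqrt 3 - 1) / 2 = 0.36602... -/
noncomputable def gg : ℝ := (Real.sqrt 3 - 1) / 2

end T3
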