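import Mathlib
import Pool.Agent.Lib.MP_675adf_co.RDef

set_option autoImplicit false

open Real

namespace T3

namespace Quad

/-- the key inequality, before the division by `t0 ^ 2` -/
theorem key (t0 t : ℝ) (h0 : 0 < t0) (h1 : t0 ≤ π) (h2 : 0 ≤ t) (h3 : t ≤ π) :
    t0 ^ 2 * cos t0 - t0 ^ 2 * sin t0 * (t - t0) - (t - t0) ^ 2 * (cos t0 + t0 * sin t0 - 1) ≤
      t0 ^ 2 * cos t := by
  set d := t - t0 with hd
  set e : ℝ → ℝ := fun u => -d ^ 2 * (t0 * sin (t0 - u * t0)) - t0 ^ 2 * (d * sin (t0 + u * d))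
    with he
  have ha : ∀ u : ℝ, HasDerivAt (fun u : ℝ => t0 - u * t0) (-t0) u := fun u => by
    simpa using ((hasDerivAt_id u).mul_const t0).const_sub t0
  have hb : ∀ u : ℝ, HasDerivAt (fun u : ℝ => t0 + u * d) d u := fun u => by
    simpa using ((hasDerivAt_id u).mul_const d).const_add t0
  have hed : ∀ u : ℝ, HasDerivAt e
      (d ^ 2 * t0 ^ 2 * (cos (t0 - u * t0) - cos (t0 + u * d))) u := fun u => by
    have h4 := (((ha u).sin.const_mul t0).const_mul (-d ^ 2)).sub
      (((hb u).sin.const_mul d).const_mul (t0 ^ 2))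
    refine h4.congr_deriv ?_
    ring
  have hmono : MonotoneOn e (Set.Icc 0 1) := by
    apply monotoneOn_of_deriv_nonneg (convex_Icc 0 1)
    · exact fun u _ => (hed u).continuousAt.continuousWithinAt
    · exact fun u _ => (hed u).differentiableAt.differentiableWithinAt
    · intro u hu
      rw [interior_Icc, Set.mem_Ioo] at hu
      rw [(hed u).deriv]
      have h5 : cos (t0 + u * d) ≤ cos (t0 - u * t0) := by
        apply Real.cos_le_cos_of_nonneg_of_le_pi
        · nlinarith
        · have : t0 + u * d = (1 - u) * t0 + u * t := by rw [hd]; ring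
          rw [this]
          nlinarith
        · have : t0 + u * d = (1 - u) * t0 + u * t := by rw [hd]; ring
          rw [this]
          nlinarith
      have h6 : 0 ≤ d ^ 2 * t0 ^ 2 := by positivity
      exact mul_nonneg h6 (by linarith)
  set phi : ℝ → ℝ := fun u =>
    (-d ^ 2 * cos (t0 - u * t0) + t0 ^ 2 * cos (t0 + u * d)) - e 0 * u with hphi
  have hpd : ∀ u : ℝ, HasDerivAt phi (e u - e 0) u := fun u => by
    have h4 := (((ha u).cos.const_mul (-d ^ 2)).add ((hb u).cos.const_mul (t0 ^ 2))).sub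
      ((hasDerivAt_id u).const_mul (e 0))
    refine h4.congr_deriv ?_
    simp only [he]
    ring
  have hpm : MonotoneOn phi (Set.Icc 0 1) := by
    apply monotoneOn_of_deriv_nonneg (convex_Icc 0 1)
    · exact fun u _ => (hpd u).continuousAt.continuousWithinAt
    · exact fun u _ => (hpd u).differentiableAt.differentiableWithinAt
    · intro u hu
      rw [interior_Icc, Set.mem_Ioo] at hu
      rw [(hpd u).deriv]
      have h5 := hmono (Set.mem_Icc.mpr ⟨le_refl 0, zero_le_one⟩)
        (Set.mem_Icc.mpr ⟨hu.1.le, hu.2.le⟩) hu.1.le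
      linarith
  have h7 := hpm (Set.mem_Icc.mpr ⟨le_refl 0, zero_le_one⟩)
    (Set.mem_Icc.mpr ⟨zero_le_one, le_refl 1⟩) zero_le_one
  have e1 : t0 + d = t := by rw [hd]; ring
  simp only [hphi, he, zero_mul, sub_zero, add_zero, one_mul, mul_zero, mul_one, sub_self,
    cos_zero, e1] at h7
  nlinarith [h7]

end Quad

theorem quad_lemma : QuadStm := by
  intro t0 t h0 h1 h2 h3
  have h := Quad.key t0 t h0 h1 h2 h3
  have h5 : (2 * (1 - cos t0) - t0 * sin t0) / t0 * t +
      (cos t0 + t0 * sin t0 - 1) / t0 ^ 2 * t ^ 2 =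
      (t0 * (2 * (1 - cos t0) - t0 * sin t0) * t + (cos t0 + t0 * sin t0 - 1) * t ^ 2) /
        t0 ^ 2 := by
    field_simp
  rw [h5, le_div_iff₀ (by positivity)]
  nlinarith [h]

end T3
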