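import Pool.Agent.Lib.MP_675adf_co.Line
import Pool.Agent.Lib.MP_675adf_co.Base
import Pool.Agent.Lib.MP_675adf_co.CosB
import Pool.Agent.Lib.MP_675adf_co.Quad
import Pool.Agent.Lib.MP_675adf_co.Bnd
import Pool.Agent.Lib.MP_675adf_co.Chk
import Pool.Agent.Lib.MP_675adf_co.Cone
import Pool.Agent.Lib.MP_675adf_co.Mir
import Pool.Agent.Lib.MP_675adf_co.Cert4
import Pool.Agent.Lib.MP_675adf_co.Cert5
import Pool.Agent.Lib.MP_675adf_co.Cert6A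
import Pool.Agent.Lib.MP_675adf_co.Cert6B
import Pool.Agent.Lib.MP_675adf_co.Cert6C
import Pool.Agent.Lib.MP_675adf_co.Cert6D
import Pool.Agent.Lib.MP_675adf_co.Cert6E
import Pool.Agent.Lib.MP_675adf_co.Cert6F
import Pool.Agent.Lib.MP_675adf_co.Cert6G
import Pool.Agent.Lib.MP_675adf_co.Cert6H
import Pool.Agent.Lib.MP_675adf_co.Cert6I
import Pool.Agent.Lib.MP_675adf_co.Cert6J
import Pool.Agent.Lib.MP_675adf_co.Cert6K
import Pool.Agent.Lib.MP_675adf_co.Cert6L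
import Pool.Agent.Lib.MP_675adf_co.Cert6M
import Pool.Agent.Lib.MP_675adf_co.Cert6N

/-! The local inequality for all orders of the lengths, n = 4, 5, 6 (up to reflection one
certificate per order). -/

open Real

set_option maxRecDepth 100000

namespace T3

theorem bnd_tab : BndSound tab := bnd_sound (tab_sound (base_ok quad_lemma cosB_ok))

theorem pst_of_chk {n : ℕ} {ord : List ℕ} (hn : 1 ≤ n) (hord : ord.Perm (List.range n)) (c : Cert)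
    (h : chk tab n (ord.getLastD 0) c (ginit n ord) = true) : Pst n ord := by
  have hne : ord ≠ [] := by
    rintro rfl
    have := hord.length_eq
    simp at this
    omega
  have hpt : ord.getLastD 0 < n := by
    rw [List.getLastD_eq_getLast?, List.getLast?_eq_some_getLast hne]
    exact List.mem_range.mp (hord.mem_iff.mp (List.getLast_mem hne))
  refine cone_sound hn hord (chk_sound bnd_tab hn hpt c (ginit n ord) ?_ h)
  intro G hG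
  unfold ginit at hG
  simp only [List.mem_map, List.mem_range] at hG
  obtain ⟨i, -, rfl⟩ := hG
  simp

theorem mir_mir {n : ℕ} {l : List ℕ} (hl : l.Perm (List.range n).tail) : mir n (mir n l) = l := by
  unfold mir
  rw [List.map_map]
  refine (List.map_congr_left ?_).trans (List.map_id l)
  intro p hp
  have : p ∈ List.range n := List.mem_of_mem_tail (hl.mem_iff.mp hp)
  have := List.mem_range.mp this
  simp only [Function.comp, id]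
  omega

theorem pst_cover {n : ℕ} (hn : 2 ≤ n) {keys : List (List ℕ)} (hk : ∀ l ∈ keys, Pst n (0 :: l))
    (hc : ∀ l ∈ ((List.range n).tail).permutations', l ∈ keys ∨
      (mir n l ∈ keys ∧ (mir n l).Perm (List.range n).tail))
    (l : List ℕ) (hl : l.Perm (List.range n).tail) : Pst n (0 :: l) := by
  rcases hc l (List.mem_permutations'.mpr hl) with h | ⟨h, h'⟩
  · exact hk l h
  · have := mir_sound hn h' (hk _ h)
    rwa [mir_mir hl] at this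

theorem p4_1 : Pst 4 [0, 1, 2, 3] := pst_of_chk (by norm_num) (by decide) c4_1 c4_1_ok
theorem p4_2 : Pst 4 [0, 1, 3, 2] := pst_of_chk (by norm_num) (by decide) c4_2 c4_2_ok
theorem p4_3 : Pst 4 [0, 2, 1, 3] := pst_of_chk (by norm_num) (by decide) c4_3 c4_3_ok

def keys4 : List (List ℕ) := [
  [1, 2, 3],
  [1, 3, 2],
  [2, 1, 3]]

theorem keys4_ok : ∀ l ∈ keys4, Pst 4 (0 :: l) := by
  simp only [keys4, List.forall_mem_cons]
  exact ⟨p4_1, p4_2, p4_3, fun _ h => absurd h List.not_mem_nil⟩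

theorem pst4 (l : List ℕ) (hl : l.Perm (List.range 4).tail) : Pst 4 (0 :: l) :=
  pst_cover (by norm_num) keys4_ok (by decide +kernel) l hl

theorem p5_1 : Pst 5 [0, 1, 2, 3, 4] := pst_of_chk (by norm_num) (by decide) c5_1 c5_1_ok
theorem p5_2 : Pst 5 [0, 1, 2, 4, 3] := pst_of_chk (by norm_num) (by decide) c5_2 c5_2_ok
theorem p5_3 : Pst 5 [0, 1, 3, 2, 4] := pst_of_chk (by norm_num) (by decide) c5_3 c5_3_ok
theorem p5_4 : Pst 5 [0, 1, 4, 2, 3] := pst_of_chk (by norm_num) (by decide) c5_4 c5_4_ok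
theorem p5_5 : Pst 5 [0, 1, 3, 4, 2] := pst_of_chk (by norm_num) (by decide) c5_5 c5_5_ok
theorem p5_6 : Pst 5 [0, 1, 4, 3, 2] := pst_of_chk (by norm_num) (by decide) c5_6 c5_6_ok
theorem p5_7 : Pst 5 [0, 2, 1, 3, 4] := pst_of_chk (by norm_num) (by decide) c5_7 c5_7_ok
theorem p5_8 : Pst 5 [0, 2, 1, 4, 3] := pst_of_chk (by norm_num) (by decide) c5_8 c5_8_ok
theorem p5_9 : Pst 5 [0, 3, 1, 2, 4] := pst_of_chk (by norm_num) (by decide) c5_9 c5_9_ok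
theorem p5_10 : Pst 5 [0, 3, 1, 4, 2] := pst_of_chk (by norm_num) (by decide) c5_10 c5_10_ok
theorem p5_11 : Pst 5 [0, 2, 3, 1, 4] := pst_of_chk (by norm_num) (by decide) c5_11 c5_11_ok
theorem p5_12 : Pst 5 [0, 3, 2, 1, 4] := pst_of_chk (by norm_num) (by decide) c5_12 c5_12_ok

def keys5 : List (List ℕ) := [
  [1, 2, 3, 4],
  [1, 2, 4, 3],
  [1, 3, 2, 4],
  [1, 4, 2, 3],
  [1, 3, 4, 2],
  [1, 4, 3, 2],
  [2, 1, 3, 4],
  [2, 1, 4, 3],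
  [3, 1, 2, 4],
  [3, 1, 4, 2],
  [2, 3, 1, 4],
  [3, 2, 1, 4]]

theorem keys5_ok : ∀ l ∈ keys5, Pst 5 (0 :: l) := by
  simp only [keys5, List.forall_mem_cons]
  exact ⟨p5_1, p5_2, p5_3, p5_4, p5_5, p5_6, p5_7, p5_8, p5_9, p5_10, p5_11, p5_12, fun _ h => absurd h List.not_mem_nil⟩

theorem pst5 (l : List ℕ) (hl : l.Perm (List.range 5).tail) : Pst 5 (0 :: l) :=
  pst_cover (by norm_num) keys5_ok (by decide +kernel) l hl

theorem p6_1 : Pst 6 [0, 1, 2, 3, 4, 5] := pst_of_chk (by norm_num) (by decide) c6_1 c6_1_ok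
theorem p6_2 : Pst 6 [0, 1, 2, 3, 5, 4] := pst_of_chk (by norm_num) (by decide) c6_2 c6_2_ok
theorem p6_3 : Pst 6 [0, 1, 2, 4, 3, 5] := pst_of_chk (by norm_num) (by decide) c6_3 c6_3_ok
theorem p6_4 : Pst 6 [0, 1, 2, 5, 3, 4] := pst_of_chk (by norm_num) (by decide) c6_4 c6_4_ok
theorem p6_5 : Pst 6 [0, 1, 2, 4, 5, 3] := pst_of_chk (by norm_num) (by decide) c6_5 c6_5_ok
theorem p6_6 : Pst 6 [0, 1, 2, 5, 4, 3] := pst_of_chk (by norm_num) (by decide) c6_6 c6_6_ok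
theorem p6_7 : Pst 6 [0, 1, 3, 2, 4, 5] := pst_of_chk (by norm_num) (by decide) c6_7 c6_7_ok
theorem p6_8 : Pst 6 [0, 1, 3, 2, 5, 4] := pst_of_chk (by norm_num) (by decide) c6_8 c6_8_ok
theorem p6_9 : Pst 6 [0, 1, 4, 2, 3, 5] := pst_of_chk (by norm_num) (by decide) c6_9 c6_9_ok
theorem p6_10 : Pst 6 [0, 1, 5, 2, 3, 4] := pst_of_chk (by norm_num) (by decide) c6_10 c6_10_ok
theorem p6_11 : Pst 6 [0, 1, 4, 2, 5, 3] := pst_of_chk (by norm_num) (by decide) c6_11 c6_11_ok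
theorem p6_12 : Pst 6 [0, 1, 5, 2, 4, 3] := pst_of_chk (by norm_num) (by decide) c6_12 c6_12_ok
theorem p6_13 : Pst 6 [0, 1, 3, 4, 2, 5] := pst_of_chk (by norm_num) (by decide) c6_13 c6_13_ok
theorem p6_14 : Pst 6 [0, 1, 3, 5, 2, 4] := pst_of_chk (by norm_num) (by decide) c6_14 c6_14_ok
theorem p6_15 : Pst 6 [0, 1, 4, 3, 2, 5] := pst_of_chk (by norm_num) (by decide) c6_15 c6_15_ok
theorem p6_16 : Pst 6 [0, 1, 5, 3, 2, 4] := pst_of_chk (by norm_num) (by decide) c6_16 c6_16_ok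
theorem p6_17 : Pst 6 [0, 1, 4, 5, 2, 3] := pst_of_chk (by norm_num) (by decide) c6_17 c6_17_ok
theorem p6_18 : Pst 6 [0, 1, 5, 4, 2, 3] := pst_of_chk (by norm_num) (by decide) c6_18 c6_18_ok
theorem p6_19 : Pst 6 [0, 1, 3, 4, 5, 2] := pst_of_chk (by norm_num) (by decide) c6_19 c6_19_ok
theorem p6_20 : Pst 6 [0, 1, 3, 5, 4, 2] := pst_of_chk (by norm_num) (by decide) c6_20 c6_20_ok
theorem p6_21 : Pst 6 [0, 1, 4, 3, 5, 2] := pst_of_chk (by norm_num) (by decide) c6_21 c6_21_ok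
theorem p6_22 : Pst 6 [0, 1, 5, 3, 4, 2] := pst_of_chk (by norm_num) (by decide) c6_22 c6_22_ok
theorem p6_23 : Pst 6 [0, 1, 4, 5, 3, 2] := pst_of_chk (by norm_num) (by decide) c6_23 c6_23_ok
theorem p6_24 : Pst 6 [0, 1, 5, 4, 3, 2] := pst_of_chk (by norm_num) (by decide) c6_24 c6_24_ok
theorem p6_25 : Pst 6 [0, 2, 1, 3, 4, 5] := pst_of_chk (by norm_num) (by decide) c6_25 c6_25_ok
theorem p6_26 : Pst 6 [0, 2, 1, 3, 5, 4] := pst_of_chk (by norm_num) (by decide) c6_26 c6_26_ok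
theorem p6_27 : Pst 6 [0, 2, 1, 4, 3, 5] := pst_of_chk (by norm_num) (by decide) c6_27 c6_27_ok
theorem p6_28 : Pst 6 [0, 2, 1, 5, 3, 4] := pst_of_chk (by norm_num) (by decide) c6_28 c6_28_ok
theorem p6_29 : Pst 6 [0, 2, 1, 4, 5, 3] := pst_of_chk (by norm_num) (by decide) c6_29 c6_29_ok
theorem p6_30 : Pst 6 [0, 2, 1, 5, 4, 3] := pst_of_chk (by norm_num) (by decide) c6_30 c6_30_ok
theorem p6_31 : Pst 6 [0, 3, 1, 2, 4, 5] := pst_of_chk (by norm_num) (by decide) c6_31 c6_31_ok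
theorem p6_32 : Pst 6 [0, 3, 1, 2, 5, 4] := pst_of_chk (by norm_num) (by decide) c6_32 c6_32_ok
theorem p6_33 : Pst 6 [0, 4, 1, 2, 3, 5] := pst_of_chk (by norm_num) (by decide) c6_33 c6_33_ok
theorem p6_34 : Pst 6 [0, 4, 1, 2, 5, 3] := pst_of_chk (by norm_num) (by decide) c6_34 c6_34_ok
theorem p6_35 : Pst 6 [0, 3, 1, 4, 2, 5] := pst_of_chk (by norm_num) (by decide) c6_35 c6_35_ok
theorem p6_36 : Pst 6 [0, 3, 1, 5, 2, 4] := pst_of_chk (by norm_num) (by decide) c6_36 c6_36_ok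
theorem p6_37 : Pst 6 [0, 4, 1, 3, 2, 5] := pst_of_chk (by norm_num) (by decide) c6_37 c6_37_ok
theorem p6_38 : Pst 6 [0, 4, 1, 5, 2, 3] := pst_of_chk (by norm_num) (by decide) c6_38 c6_38_ok
theorem p6_39 : Pst 6 [0, 3, 1, 4, 5, 2] := pst_of_chk (by norm_num) (by decide) c6_39 c6_39_ok
theorem p6_40 : Pst 6 [0, 3, 1, 5, 4, 2] := pst_of_chk (by norm_num) (by decide) c6_40 c6_40_ok
theorem p6_41 : Pst 6 [0, 4, 1, 3, 5, 2] := pst_of_chk (by norm_num) (by decide) c6_41 c6_41_ok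
theorem p6_42 : Pst 6 [0, 4, 1, 5, 3, 2] := pst_of_chk (by norm_num) (by decide) c6_42 c6_42_ok
theorem p6_43 : Pst 6 [0, 2, 3, 1, 4, 5] := pst_of_chk (by norm_num) (by decide) c6_43 c6_43_ok
theorem p6_44 : Pst 6 [0, 2, 3, 1, 5, 4] := pst_of_chk (by norm_num) (by decide) c6_44 c6_44_ok
theorem p6_45 : Pst 6 [0, 2, 4, 1, 3, 5] := pst_of_chk (by norm_num) (by decide) c6_45 c6_45_ok
theorem p6_46 : Pst 6 [0, 2, 4, 1, 5, 3] := pst_of_chk (by norm_num) (by decide) c6_46 c6_46_ok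
theorem p6_47 : Pst 6 [0, 3, 2, 1, 4, 5] := pst_of_chk (by norm_num) (by decide) c6_47 c6_47_ok
theorem p6_48 : Pst 6 [0, 3, 2, 1, 5, 4] := pst_of_chk (by norm_num) (by decide) c6_48 c6_48_ok
theorem p6_49 : Pst 6 [0, 4, 2, 1, 3, 5] := pst_of_chk (by norm_num) (by decide) c6_49 c6_49_ok
theorem p6_50 : Pst 6 [0, 4, 2, 1, 5, 3] := pst_of_chk (by norm_num) (by decide) c6_50 c6_50_ok
theorem p6_51 : Pst 6 [0, 3, 4, 1, 2, 5] := pst_of_chk (by norm_num) (by decide) c6_51 c6_51_ok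
theorem p6_52 : Pst 6 [0, 4, 3, 1, 2, 5] := pst_of_chk (by norm_num) (by decide) c6_52 c6_52_ok
theorem p6_53 : Pst 6 [0, 3, 4, 1, 5, 2] := pst_of_chk (by norm_num) (by decide) c6_53 c6_53_ok
theorem p6_54 : Pst 6 [0, 4, 3, 1, 5, 2] := pst_of_chk (by norm_num) (by decide) c6_54 c6_54_ok
theorem p6_55 : Pst 6 [0, 2, 3, 4, 1, 5] := pst_of_chk (by norm_num) (by decide) c6_55 c6_55_ok
theorem p6_56 : Pst 6 [0, 2, 4, 3, 1, 5] := pst_of_chk (by norm_num) (by decide) c6_56 c6_56_ok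
theorem p6_57 : Pst 6 [0, 3, 2, 4, 1, 5] := pst_of_chk (by norm_num) (by decide) c6_57 c6_57_ok
theorem p6_58 : Pst 6 [0, 4, 2, 3, 1, 5] := pst_of_chk (by norm_num) (by decide) c6_58 c6_58_ok
theorem p6_59 : Pst 6 [0, 3, 4, 2, 1, 5] := pst_of_chk (by norm_num) (by decide) c6_59 c6_59_ok
theorem p6_60 : Pst 6 [0, 4, 3, 2, 1, 5] := pst_of_chk (by norm_num) (by decide) c6_60 c6_60_ok

def keys6 : List (List ℕ) := [
  [1, 2, 3, 4, 5],
  [1, 2, 3, 5, 4],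
  [1, 2, 4, 3, 5],
  [1, 2, 5, 3, 4],
  [1, 2, 4, 5, 3],
  [1, 2, 5, 4, 3],
  [1, 3, 2, 4, 5],
  [1, 3, 2, 5, 4],
  [1, 4, 2, 3, 5],
  [1, 5, 2, 3, 4],
  [1, 4, 2, 5, 3],
  [1, 5, 2, 4, 3],
  [1, 3, 4, 2, 5],
  [1, 3, 5, 2, 4],
  [1, 4, 3, 2, 5],
  [1, 5, 3, 2, 4],
  [1, 4, 5, 2, 3],
  [1, 5, 4, 2, 3],
  [1, 3, 4, 5, 2],
  [1, 3, 5, 4, 2],
  [1, 4, 3, 5, 2],
  [1, 5, 3, 4, 2],
  [1, 4, 5, 3, 2],
  [1, 5, 4, 3, 2],
  [2, 1, 3, 4, 5],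
  [2, 1, 3, 5, 4],
  [2, 1, 4, 3, 5],
  [2, 1, 5, 3, 4],
  [2, 1, 4, 5, 3],
  [2, 1, 5, 4, 3],
  [3, 1, 2, 4, 5],
  [3, 1, 2, 5, 4],
  [4, 1, 2, 3, 5],
  [4, 1, 2, 5, 3],
  [3, 1, 4, 2, 5],
  [3, 1, 5, 2, 4],
  [4, 1, 3, 2, 5],
  [4, 1, 5, 2, 3],
  [3, 1, 4, 5, 2],
  [3, 1, 5, 4, 2],
  [4, 1, 3, 5, 2],
  [4, 1, 5, 3, 2],
  [2, 3, 1, 4, 5],
  [2, 3, 1, 5, 4],
  [2, 4, 1, 3, 5],
  [2, 4, 1, 5, 3],
  [3, 2, 1, 4, 5],
  [3, 2, 1, 5, 4],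
  [4, 2, 1, 3, 5],
  [4, 2, 1, 5, 3],
  [3, 4, 1, 2, 5],
  [4, 3, 1, 2, 5],
  [3, 4, 1, 5, 2],
  [4, 3, 1, 5, 2],
  [2, 3, 4, 1, 5],
  [2, 4, 3, 1, 5],
  [3, 2, 4, 1, 5],
  [4, 2, 3, 1, 5],
  [3, 4, 2, 1, 5],
  [4, 3, 2, 1, 5]]

theorem keys6_ok : ∀ l ∈ keys6, Pst 6 (0 :: l) := by
  simp only [keys6, List.forall_mem_cons]
  exact ⟨p6_1, p6_2, p6_3, p6_4, p6_5, p6_6, p6_7, p6_8, p6_9, p6_10, p6_11, p6_12, p6_13, p6_14, p6_15, p6_16, p6_17, p6_18, p6_19, p6_20, p6_21, p6_22, p6_23, p6_24, p6_25, p6_26, p6_27, p6_28, p6_29, p6_30, p6_31, p6_32, p6_33, p6_34, p6_35, p6_36, p6_37, p6_38, p6_39, p6_40, p6_41, p6_42, p6_43, p6_44, p6_45, p6_46, p6_47, p6_48, p6_49, p6_50, p6_51, p6_52, p6_53, p6_54, p6_55, p6_56, p6_57, p6_58, p6_59, p6_60, fun _ h => absurd h List.not_mem_nil⟩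

theorem pst6 (l : List ℕ) (hl : l.Perm (List.range 6).tail) : Pst 6 (0 :: l) :=
  pst_cover (by norm_num) keys6_ok (by decide +kernel) l hl

end T3
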