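import Pool.Agent.Lib.MP_675adf_co.RDef

/-! Degree 3 spanning trees: the local inequality for three items. -/

open Real

namespace T3

namespace L3

theorem unit_exists (X : ℂ) : ∃ u : ℂ, ‖u‖ = 1 ∧ X = (‖X‖ : ℂ) * u := by
  by_cases h : X = 0
  · exact ⟨1, norm_one, by simp [h]⟩
  · have hn : ‖X‖ ≠ 0 := norm_ne_zero_iff.mpr h
    refine ⟨X / (‖X‖ : ℂ), ?_, ?_⟩
    · rw [norm_div, Complex.norm_real, norm_norm, div_self hn]
    · have : (‖X‖ : ℂ) ≠ 0 := by exact_mod_cast hn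
      field_simp

theorem sum_sq (u v w : ℂ) (hu : ‖u‖ = 1) (hv : ‖v‖ = 1) (hw : ‖w‖ = 1) :
    ‖u - v‖ ^ 2 + ‖u - w‖ ^ 2 + ‖v - w‖ ^ 2 ≤ 9 := by
  have h1 : ‖u - v‖ ^ 2 + ‖u - w‖ ^ 2 + ‖v - w‖ ^ 2 + ‖u + v + w‖ ^ 2 =
      3 * (‖u‖ ^ 2 + ‖v‖ ^ 2 + ‖w‖ ^ 2) := by
    simp only [Complex.sq_norm, Complex.normSq_apply, Complex.sub_re, Complex.sub_im,
      Complex.add_re, Complex.add_im]
    ring
  rw [hu, hv, hw] at h1
  nlinarith [sq_nonneg ‖u + v + w‖]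

theorem sum_le (u v w : ℂ) (hu : ‖u‖ = 1) (hv : ‖v‖ = 1) (hw : ‖w‖ = 1) :
    ‖u - v‖ + ‖u - w‖ + ‖v - w‖ ≤ 3 * Real.sqrt 3 := by
  have h1 := sum_sq u v w hu hv hw
  have h3 : Real.sqrt 3 ^ 2 = 3 := Real.sq_sqrt (by norm_num)
  have h0 : 0 ≤ Real.sqrt 3 := Real.sqrt_nonneg 3
  apply abs_le_of_sq_le_sq' _ (by positivity) |>.2
  nlinarith [sq_nonneg (‖u - v‖ - ‖u - w‖), sq_nonneg (‖u - v‖ - ‖v - w‖),
    sq_nonneg (‖u - w‖ - ‖v - w‖)]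

theorem lip (a b : ℝ) (ha : 0 ≤ a) (hab : a ≤ b) (u v : ℂ) (hv : ‖v‖ = 1) :
    ‖(a : ℂ) * u - (b : ℂ) * v‖ ≤ a * ‖u - v‖ + (b - a) := by
  have h1 : (a : ℂ) * u - (b : ℂ) * v = (a : ℂ) * (u - v) - ((b - a : ℝ) : ℂ) * v := by
    push_cast
    ring
  rw [h1]
  refine (norm_sub_le _ _).trans ?_
  rw [norm_mul, norm_mul, Complex.norm_real, Complex.norm_real, hv, Real.norm_of_nonneg ha,
    Real.norm_of_nonneg (by linarith), mul_one]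

/-- the sum of the costs of the three arrangements -/
theorem key (X Y Z : ℂ) (h1 : ‖X‖ ≤ ‖Y‖) (h2 : ‖Y‖ ≤ ‖Z‖) :
    (‖X - Y‖ - ‖Y‖) + (‖X - Z‖ - ‖Z‖) + (‖Y - Z‖ - ‖Z‖) ≤
      (3 * Real.sqrt 3 - 4) * ‖X‖ + ‖Y‖ := by
  obtain ⟨u, hu, hX⟩ := unit_exists X
  obtain ⟨v, hv, hY⟩ := unit_exists Y
  obtain ⟨w, hw, hZ⟩ := unit_exists Z
  have ha : 0 ≤ ‖X‖ := norm_nonneg X
  have hb : 0 ≤ ‖Y‖ := norm_nonneg Y
  have e1 : ‖X - Y‖ ≤ ‖X‖ * ‖u - v‖ + (‖Y‖ - ‖X‖) := by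
    conv_lhs => rw [hX, hY]
    exact lip _ _ ha h1 u v hv
  have e2 : ‖X - Z‖ ≤ ‖X‖ * ‖u - w‖ + (‖Z‖ - ‖X‖) := by
    conv_lhs => rw [hX, hZ]
    exact lip _ _ ha (h1.trans h2) u w hw
  have e3 : ‖Y - Z‖ ≤ ‖Y‖ * ‖v - w‖ + (‖Z‖ - ‖Y‖) := by
    conv_lhs => rw [hY, hZ]
    exact lip _ _ hb h2 v w hw
  have e4 : ‖v - w‖ ≤ 2 := by
    calc ‖v - w‖ ≤ ‖v‖ + ‖w‖ := norm_sub_le v w
      _ = 2 := by rw [hv, hw]; norm_num
  have e5 := sum_le u v w hu hv hw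
  have e6 : ‖X‖ * (‖u - v‖ + ‖u - w‖ + ‖v - w‖) ≤ ‖X‖ * (3 * Real.sqrt 3) :=
    mul_le_mul_of_nonneg_left e5 ha
  have e7 : (‖Y‖ - ‖X‖) * ‖v - w‖ ≤ (‖Y‖ - ‖X‖) * 2 :=
    mul_le_mul_of_nonneg_left e4 (by linarith)
  nlinarith

theorem gg_ge (a b s : ℝ) (hab : a ≤ b)
    (hs : 3 * s ≤ (3 * Real.sqrt 3 - 4) * a + b) : s ≤ gg * (a + b) := by
  have h3 : (5 : ℝ) / 3 ≤ Real.sqrt 3 := by
    apply Real.le_sqrt_of_sq_le
    norm_num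
  unfold gg
  nlinarith [mul_nonneg (sub_nonneg.mpr hab) (sub_nonneg.mpr h3)]

/-- the best of the three arrangements -/
theorem best {α : Type} (f : α → ℂ) (x y z : α) (h1 : ‖f x‖ ≤ ‖f y‖) (h2 : ‖f y‖ ≤ ‖f z‖) :
    ∃ (p q s : α), [p, q, s].Perm [x, y, z] ∧
      bcost gg (fun a b => ‖f a - f b‖) (fun a => ‖f a‖) p [q] +
        bcost gg (fun a b => ‖f a - f b‖) (fun a => ‖f a‖) s [] ≤ gg * (‖f x‖ + ‖f y‖) := by
  have hk := key (f x) (f y) (f z) h1 h2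
  have hb : ∀ p q s : α, bcost gg (fun a b => ‖f a - f b‖) (fun a => ‖f a‖) p [q] +
      bcost gg (fun a b => ‖f a - f b‖) (fun a => ‖f a‖) s [] = ‖f p - f q‖ - ‖f q‖ := by
    intro p q s
    simp [bcost, bonus]
  by_cases c1 : 3 * (‖f x - f y‖ - ‖f y‖) ≤ (3 * Real.sqrt 3 - 4) * ‖f x‖ + ‖f y‖
  · refine ⟨x, y, z, List.Perm.refl _, ?_⟩
    rw [hb]
    exact gg_ge _ _ _ h1 c1
  by_cases c2 : 3 * (‖f x - f z‖ - ‖f z‖) ≤ (3 * Real.sqrt 3 - 4) * ‖f x‖ + ‖f y‖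
  · refine ⟨x, z, y, ?_, ?_⟩
    · exact (List.Perm.swap y z []).cons x
    · rw [hb]
      exact gg_ge _ _ _ h1 c2
  · refine ⟨y, z, x, ?_, ?_⟩
    · exact ((List.Perm.swap x z []).cons y).trans (List.Perm.swap x y [z])
    · rw [hb]
      apply gg_ge _ _ _ h1
      push Not at c1 c2
      linarith

end L3

open L3 in
theorem loc3 {α : Type} (f : α → ℂ) (L : List α) (hL : L.length = 3) :
    Loc gg (fun a b => ‖f a - f b‖) (fun a => ‖f a‖) L := by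
  -- a sorted permutation
  obtain ⟨x, y, z, hp, h1, h2⟩ : ∃ x y z : α, [x, y, z].Perm L ∧ ‖f x‖ ≤ ‖f y‖ ∧ ‖f y‖ ≤ ‖f z‖ := by
    match L, hL with
    | [p, q, s], _ =>
      rcases le_total ‖f p‖ ‖f q‖ with h1 | h1 <;> rcases le_total ‖f q‖ ‖f s‖ with h2 | h2 <;>
        rcases le_total ‖f p‖ ‖f s‖ with h3 | h3
      · exact ⟨p, q, s, List.Perm.refl _, h1, h2⟩
      · exact ⟨p, q, s, List.Perm.refl _, h1, h2⟩
      · exact ⟨p, s, q, (List.Perm.swap q s []).cons p, h3, h2⟩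
      · exact ⟨s, p, q, ((List.Perm.swap p s [q])).trans ((List.Perm.swap q s []).cons p),
          h3, h1⟩
      · exact ⟨q, p, s, List.Perm.swap p q [s], h1, h3⟩
      · exact ⟨q, s, p, ((List.Perm.swap p s []).cons q).trans (List.Perm.swap p q [s]),
          h2, h3⟩
      · exact ⟨s, q, p, ((List.Perm.swap q s [p])).trans
          (((List.Perm.swap p s []).cons q).trans (List.Perm.swap p q [s])), h2, h1⟩
      · exact ⟨s, q, p, ((List.Perm.swap q s [p])).trans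
          (((List.Perm.swap p s []).cons q).trans (List.Perm.swap p q [s])), h2, h1⟩
  obtain ⟨p, q, s, hpq, hcost⟩ := best f x y z h1 h2
  refine ⟨p, [q], s, [], hpq.trans hp, by simp, by simp, ?_⟩
  intro t ht
  have hsum : (L.map (fun a => ‖f a‖)).sum = ‖f x‖ + ‖f y‖ + ‖f z‖ := by
    rw [← (hp.map (fun a => ‖f a‖)).sum_eq]
    simp
    ring
  have ht' : t ∈ [x, y, z] := hp.mem_iff.mpr ht
  have htz : ‖f t‖ ≤ ‖f z‖ := by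
    simp only [List.mem_cons, List.not_mem_nil, or_false] at ht'
    rcases ht' with rfl | rfl | rfl
    · exact h1.trans h2
    · exact h2
    · exact le_refl _
  have hg : 0 ≤ gg := by
    unfold gg
    have h3 : (1 : ℝ) ≤ Real.sqrt 3 := by
      apply Real.le_sqrt_of_sq_le
      norm_num
    linarith
  refine hcost.trans ?_
  apply mul_le_mul_of_nonneg_left _ hg
  rw [hsum]
  linarith

end T3
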