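import Pool.Agent.Lib.MP_675adf_co.Api

/-! The stored lines bound the distance function from above. -/

open Real

namespace T3

namespace Line

/-- the mixture of two neighbouring base quadratics -/
theorem mix (hb : BaseStm) {k l : ℕ} (hl : l ≤ 64) (hk : k < 24 ∨ k = 24 ∧ l = 0) (x : ℝ)
    (h0 : 0 ≤ x) (h1 : x ≤ 1 / 2) :
    640000000 * (1 - Real.cos (2 * π * x)) ≤
      ((((64 - (l : ℤ)) * (nth (0, 0) base k).1 + l * (nth (0, 0) base (k + 1)).1 : ℤ)) : ℝ) * x +
      ((((64 - (l : ℤ)) * (nth (0, 0) base k).2 + l * (nth (0, 0) base (k + 1)).2 : ℤ)) : ℝ) *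
        x ^ 2 := by
  push_cast
  have hl' : (0 : ℝ) ≤ 64 - (l : ℝ) := by
    have : (l : ℝ) ≤ 64 := by exact_mod_cast hl
    linarith
  rcases hk with hk | ⟨hk, rfl⟩
  · have e1 := mul_le_mul_of_nonneg_left (hb k (by omega) x h0 h1) hl'
    have e2 := mul_le_mul_of_nonneg_left (hb (k + 1) (by omega) x h0 h1) (Nat.cast_nonneg (α := ℝ) l)
    linarith
  · have e1 := hb k (by omega) x h0 h1
    push_cast
    linarith

theorem quad_nonneg {p0 p1 p2 x : ℝ} (h0 : 0 ≤ p0) (h2 : 0 ≤ p2) (h : 0 ≤ p1 ∨ p1 * p1 ≤ 4 * p0 * p2)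
    (hx : 0 ≤ x) : 0 ≤ p0 + p1 * x + p2 * x ^ 2 := by
  rcases h with h | h
  · positivity
  · rcases h2.eq_or_lt with h3 | h3
    · rw [← h3, mul_zero] at h
      have h4 : p1 = 0 := by nlinarith
      rw [h4, ← h3]
      linarith
    · have h4 : 0 ≤ 4 * p2 * (p0 + p1 * x + p2 * x ^ 2) := by
        have h5 : 4 * p2 * (p0 + p1 * x + p2 * x ^ 2) =
            (2 * p2 * x + p1) ^ 2 + (4 * p0 * p2 - p1 * p1) := by ring
        rw [h5]
        have := sq_nonneg (2 * p2 * x + p1)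
        linarith
      by_contra h5
      have h6 : 4 * p2 * (p0 + p1 * x + p2 * x ^ 2) < 0 :=
        mul_neg_of_pos_of_neg (by linarith) (not_le.1 h5)
      linarith

theorem half (hb : BaseStm) {m q A V k l : ℕ} (h : lineOK m q A V k l = true)
    (x : ℝ) (h0 : 0 ≤ x) (h1 : x ≤ 1 / 2) :
    A ≤ V ∧ 1000000 * D m q x ≤ (A : ℝ) + x * ((V : ℝ) - A) := by
  simp only [lineOK, Bool.and_eq_true, Bool.or_eq_true, decide_eq_true_eq] at h
  obtain ⟨⟨⟨⟨⟨hAV, hl⟩, hk⟩, hp0⟩, hp2⟩, hp1⟩ := h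
  have hmix := mix hb hl hk x h0 h1
  set al : ℤ := (64 - (l : ℤ)) * (nth (0, 0) base k).1 + l * (nth (0, 0) base (k + 1)).1 with hal
  set be : ℤ := (64 - (l : ℤ)) * (nth (0, 0) base k).2 + l * (nth (0, 0) base (k + 1)).2 with hbe
  have hB : (0 : ℝ) ≤ (V : ℝ) - A := by
    have : (A : ℝ) ≤ V := by exact_mod_cast hAV
    linarith
  have hquad := quad_nonneg
    (p0 := ((640000000 * ((A : ℤ) * A - ((q : ℤ) - m) * ((q : ℤ) - m) * 1000000000000) : ℤ) : ℝ))
    (p1 := ((640000000 * (2 * (A : ℤ) * ((V : ℤ) - A)) - 2 * m * q * 1000000000000 * al : ℤ) : ℝ))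
    (p2 := ((640000000 * (((V : ℤ) - A) * ((V : ℤ) - A)) - 2 * m * q * 1000000000000 * be : ℤ) : ℝ))
    (by exact_mod_cast hp0) (by exact_mod_cast hp2)
    (by
      rcases hp1 with hp1 | hp1
      · exact Or.inl (by exact_mod_cast hp1)
      · exact Or.inr (by exact_mod_cast hp1)) h0
  push_cast at hquad
  have hD := D_sq (m : ℝ) (q : ℝ) x (Nat.cast_nonneg m) (Nat.cast_nonneg q)
  have hmq : (0 : ℝ) ≤ 2 * m * q * 1000000000000 := by positivity
  have h2 := mul_le_mul_of_nonneg_left hmix hmq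
  refine ⟨hAV, ?_⟩
  have hR : 0 ≤ (A : ℝ) + x * ((V : ℝ) - A) := by positivity
  refine le_of_sq_le_sq (α := ℝ) ?_ hR
  have h3 : (1000000 * D m q x) ^ 2 = 1000000000000 * D m q x ^ 2 := by ring
  rw [h3, hD]
  have h4 : 640000000 * (1000000000000 *
      (((m : ℝ) - q) ^ 2 + 2 * m * q * (1 - Real.cos (2 * π * x)))) ≤
      640000000 * ((A : ℝ) + x * ((V : ℝ) - A)) ^ 2 := by
    nlinarith [hquad, h2]
  linarith

end Line

theorem lineOK_sound (hb : BaseStm) {m q A V k l : ℕ} (hm : 0 < m) (hq : 0 < q) (h : lineOK m q A V k l = true)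
    (x : ℝ) (h0 : 0 ≤ x) (h1 : x ≤ 1) :
    1000000 * D m q x ≤ (1 - x) * (A : ℝ) + x * (V : ℝ) := by
  rcases le_total x (1 / 2) with hx | hx
  · have := (Line.half hb h x h0 hx).2
    linarith
  · obtain ⟨hAV, h2⟩ := Line.half hb h (1 - x) (by linarith) (by linarith)
    rw [D_one_sub] at h2
    have hB : (0 : ℝ) ≤ (V : ℝ) - A := by
      have : (A : ℝ) ≤ V := by exact_mod_cast hAV
      linarith
    nlinarith [mul_nonneg hB (by linarith : (0 : ℝ) ≤ 2 * x - 1)]

namespace Line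

set_option maxRecDepth 100000 in
theorem tab_ok : tabOK tab hint = true := by decide +kernel

theorem entry (hb : BaseStm) {a d k : ℕ} (ha : a < tab.length) (hd : d < (nth [] tab a).length)
    (hk : k < (nth [] (nth [] tab a) d).length) (x : ℝ) (h0 : 0 ≤ x) (h1 : x ≤ 1) :
    1000000 * D a ((a + d : ℕ) : ℝ) x ≤
      (1 - x) * ((nth (0, 0) (nth [] (nth [] tab a) d) k).1 : ℝ) +
        x * ((nth (0, 0) (nth [] (nth [] tab a) d) k).2 : ℝ) := by
  have h := tab_ok
  simp only [tabOK, List.all_eq_true, List.mem_range] at h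
  have h2 := h a ha d hd
  simp only [rowOK, List.all_eq_true, List.mem_range] at h2
  have h3 := h2 k hk
  unfold entryOK at h3
  by_cases hm : a = 0
  · rw [if_pos hm] at h3
    simp only [Bool.and_eq_true, decide_eq_true_eq] at h3
    have e1 : (((a + d : ℕ) : ℝ)) * 1000000 ≤
        ((nth (0, 0) (nth [] (nth [] tab a) d) k).1 : ℝ) := by exact_mod_cast h3.1
    have e2 : (((a + d : ℕ) : ℝ)) * 1000000 ≤
        ((nth (0, 0) (nth [] (nth [] tab a) d) k).2 : ℝ) := by exact_mod_cast h3.2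
    have e3 : D (a : ℝ) ((a + d : ℕ) : ℝ) x = ((a + d : ℕ) : ℝ) := by
      rw [hm, Nat.cast_zero]
      exact D_zero _ _ (Nat.cast_nonneg _)
    rw [e3]
    have e4 := mul_le_mul_of_nonneg_left e1 (by linarith : 0 ≤ 1 - x)
    have e5 := mul_le_mul_of_nonneg_left e2 h0
    linarith
  · rw [if_neg hm] at h3
    have hpos : 0 < a := Nat.pos_of_ne_zero hm
    split_ifs at h3 with h4
    · exact lineOK_sound hb hpos (by omega) h3 x h0 h1
    · exact lineOK_sound hb hpos (by omega) h3 x h0 h1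

theorem row (hb : BaseStm) {a b : ℕ} (hab : a ≤ b) (ln : ℕ × ℕ)
    (hln : ln ∈ nth [] (nth [] tab a) (b - a)) (x : ℝ) (h0 : 0 ≤ x) (h1 : x ≤ 1) :
    1000000 * D a b x ≤ (1 - x) * (ln.1 : ℝ) + x * (ln.2 : ℝ) := by
  have ha : a < tab.length := by
    by_contra h
    rw [nth_ge [] (not_lt.1 h)] at hln
    simp at hln
  have hd : b - a < (nth [] tab a).length := by
    by_contra h
    rw [nth_ge [] (not_lt.1 h)] at hln
    simp at hln
  obtain ⟨k, hk, rfl⟩ := List.mem_iff_getElem.1 hln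
  have h2 := entry hb ha hd hk x h0 h1
  rw [nth_eq (0, 0), List.getD_eq_getElem _ _ hk, Nat.add_sub_cancel' hab] at h2
  exact h2

end Line

theorem tab_sound (hb : BaseStm) : TabSound tab := by
  intro a b ln hln x h0 h1
  have hl : look tab a b = cond (Nat.ble a b) (nth [] (nth [] tab a) (b - a))
    (nth [] (nth [] tab b) (a - b)) := rfl
  rcases le_or_gt a b with hab | hab
  · have h2 : Nat.ble a b = true := Nat.ble_eq_true_of_le hab
    rw [hl, h2] at hln
    exact Line.row hb hab ln hln x h0 h1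
  · have h2 : Nat.ble a b = false := by
      rw [Bool.eq_false_iff]
      intro h3
      exact absurd (Nat.le_of_ble_eq_true h3) (not_le.2 hab)
    rw [hl, h2] at hln
    rw [D_comm]
    exact Line.row hb hab.le ln hln x h0 h1

end T3
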