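import Pool.Agent.Lib.MP_675adf_co.Tab

/-! The Boolean check of the table of lines (integer arithmetic). -/

namespace T3

/-- the line with values A at 0 and V at 1 (scale 10^6) lies above D m q on [0, 1], by the mixture
(64 - l) * base k + l * base (k + 1) of quadratic majorants (scale 10^7) -/
def lineOK (m q A V k l : ℕ) : Bool :=
  let B : ℤ := (V : ℤ) - A
  let d : ℤ := (q : ℤ) - m
  let al : ℤ := (64 - (l : ℤ)) * (nth (0, 0) base k).1 + l * (nth (0, 0) base (k + 1)).1
  let be : ℤ := (64 - (l : ℤ)) * (nth (0, 0) base k).2 + l * (nth (0, 0) base (k + 1)).2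
  let p0 : ℤ := 640000000 * ((A : ℤ) * A - d * d * 1000000000000)
  let p1 : ℤ := 640000000 * (2 * A * B) - 2 * m * q * 1000000000000 * al
  let p2 : ℤ := 640000000 * (B * B) - 2 * m * q * 1000000000000 * be
  decide (A ≤ V) && decide (l ≤ 64) && (decide (k < 24) || (decide (k = 24) && decide (l = 0))) &&
    decide (0 ≤ p0) && decide (0 ≤ p2) && (decide (0 ≤ p1) || decide (p1 * p1 ≤ 4 * p0 * p2))

/-- check of the k-th line of the row (m, q) -/
def entryOK (m q : ℕ) (h : ℕ × ℕ × ℕ) (k : ℕ) (ln : ℕ × ℕ) : Bool :=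
  if m = 0 then decide (q * 1000000 ≤ ln.1) && decide (q * 1000000 ≤ ln.2)
  else if h.1 ≤ k then lineOK m q ln.1 ln.2 k 0 else lineOK m q ln.1 ln.2 h.2.1 h.2.2

def rowOK (m q : ℕ) (h : ℕ × ℕ × ℕ) (row : List (ℕ × ℕ)) : Bool :=
  (List.range row.length).all (fun k => entryOK m q h k (nth (0, 0) row k))

def tabOK (tab : List (List (List (ℕ × ℕ)))) (hint : List (List (ℕ × ℕ × ℕ))) : Bool :=
  (List.range tab.length).all (fun a => (List.range (nth [] tab a).length).all (fun d =>
    rowOK a (a + d) (nth (0, 0, 0) (nth [] hint a) d) (nth [] (nth [] tab a) d)))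

end T3
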