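import Pool.Agent.Lib.MP_675adf_co.RDef

/-! Swapping the edge v a for the edge a b in a tree in which v is adjacent to a and b. -/

open Real

namespace T3

theorem not_adj_of_two {V : Type} (T : SimpleGraph V) (hT : T.IsTree) {v a b : V}
    (hva : T.Adj v a) (hvb : T.Adj v b) (hab : a ≠ b) : ¬ T.Adj a b := by
  intro h
  have p1 : (SimpleGraph.Walk.cons h SimpleGraph.Walk.nil : T.Walk a b).IsPath := by
    simp [SimpleGraph.Walk.cons_isPath_iff, hab]
  have p2 : (SimpleGraph.Walk.cons hva.symm (SimpleGraph.Walk.cons hvb SimpleGraph.Walk.nil) :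
      T.Walk a b).IsPath := by
    simp [SimpleGraph.Walk.cons_isPath_iff, hab, hva.ne', hvb.ne]
  have := hT.isAcyclic.path_unique ⟨_, p1⟩ ⟨_, p2⟩
  have h2 := congrArg (fun p : T.Path a b => p.1.length) this
  simp at h2

theorem swap_tree {V : Type} [Fintype V] (T : SimpleGraph V) (hT : T.IsTree) {v a b : V}
    (hva : T.Adj v a) (hvb : T.Adj v b) (hab : a ≠ b) :
    ∃ T' : SimpleGraph V, T'.IsTree ∧ ∀ (d : V → V → ℝ) (hd : ∀ a b, d a b = d b a),
      gw d hd T' = gw d hd T - d v a + d a b := by
  classical
  have hnab : ¬ T.Adj a b := not_adj_of_two T hT hva hvb hab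
  set S : Set (Sym2 V) := insert s(a, b) (T.edgeSet \ {s(v, a)}) with hS
  have hes : (SimpleGraph.fromEdgeSet S).edgeSet = S := by
    rw [SimpleGraph.edgeSet_fromEdgeSet]
    ext e
    refine ⟨fun h => h.1, fun h => ⟨h, ?_⟩⟩
    rcases h with rfl | h
    · simpa using hab
    · intro hd
      exact T.not_isDiag_of_mem_edgeSet h.1 hd
  have hnot : s(a, b) ∉ T.edgeSet \ {s(v, a)} := fun h => hnab h.1
  refine ⟨SimpleGraph.fromEdgeSet S, ?_, ?_⟩
  · rw [SimpleGraph.isTree_iff_connected_and_card] at hT ⊢
    obtain ⟨hc, hcard⟩ := hT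
    refine ⟨?_, ?_⟩
    · have := hc.nonempty
      refine ⟨?_⟩
      have hvb' : (SimpleGraph.fromEdgeSet S).Adj v b := by
        rw [SimpleGraph.fromEdgeSet_adj]
        refine ⟨Or.inr ⟨hvb, ?_⟩, hvb.ne⟩
        simp only [Set.mem_singleton_iff, Sym2.eq_iff, not_or, not_and]
        exact ⟨fun _ h => hab h.symm, fun h => absurd h hva.ne⟩
      have hba' : (SimpleGraph.fromEdgeSet S).Adj b a := by
        rw [SimpleGraph.fromEdgeSet_adj]
        refine ⟨Or.inl ?_, hab.symm⟩
        exact Sym2.eq_swap
      have key : ∀ x y : V, T.Adj x y → (SimpleGraph.fromEdgeSet S).Reachable x y := by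
        intro x y hxy
        by_cases he : s(x, y) = s(v, a)
        · rw [Sym2.eq_iff] at he
          rcases he with ⟨rfl, rfl⟩ | ⟨rfl, rfl⟩
          · exact hvb'.reachable.trans hba'.reachable
          · exact (hvb'.reachable.trans hba'.reachable).symm
        · refine SimpleGraph.Adj.reachable ?_
          rw [SimpleGraph.fromEdgeSet_adj]
          exact ⟨Or.inr ⟨hxy, he⟩, hxy.ne⟩
      intro x y
      obtain ⟨p⟩ := hc.preconnected x y
      induction p with
      | nil => exact SimpleGraph.Reachable.refl _
      | cons h _ ih => exact (key _ _ h).trans ih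
    · rw [hes, ← hcard]
      congr 1
      have hfin : (T.edgeSet).Finite := Set.toFinite _
      have h1 : Nat.card S = S.ncard := rfl
      have h2 : Nat.card T.edgeSet = T.edgeSet.ncard := rfl
      rw [h1, h2, hS, Set.ncard_insert_of_notMem hnot (Set.toFinite _)]
      exact Set.ncard_sdiff_singleton_add_one hva
  · intro d hd
    unfold gw
    have hF : (Finset.univ.filter (fun e : Sym2 V => e ∈ (SimpleGraph.fromEdgeSet S).edgeSet)) =
        insert s(a, b) ((Finset.univ.filter (fun e : Sym2 V => e ∈ T.edgeSet)).erase s(v, a)) := by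
      ext e
      simp only [Finset.mem_filter, Finset.mem_univ, true_and, Finset.mem_insert,
        Finset.mem_erase]
      rw [hes]
      simp only [hS, Set.mem_insert_iff, Set.mem_sdiff, Set.mem_singleton_iff]
      constructor
      · rintro (h | ⟨h1, h2⟩)
        · exact Or.inl h
        · exact Or.inr ⟨h2, h1⟩
      · rintro (h | ⟨h1, h2⟩)
        · exact Or.inl h
        · exact Or.inr ⟨h2, h1⟩
    have hn2 : s(a, b) ∉ (Finset.univ.filter (fun e : Sym2 V => e ∈ T.edgeSet)).erase s(v, a) := by
      simp only [Finset.mem_erase, Finset.mem_filter, Finset.mem_univ, true_and, not_and]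
      intro _ h
      exact hnab h
    have hmem : s(v, a) ∈ Finset.univ.filter (fun e : Sym2 V => e ∈ T.edgeSet) := by
      simp only [Finset.mem_filter, Finset.mem_univ, true_and]
      exact hva
    have e1 : elen d hd s(a, b) = d a b := rfl
    have e2 : elen d hd s(v, a) = d v a := rfl
    rw [← Finset.add_sum_erase _ _ hmem, e2]
    have := Finset.sum_insert (f := elen d hd) hn2
    rw [e1] at this
    calc _ = ∑ e ∈ insert s(a, b) ((Finset.univ.filter (fun e : Sym2 V =>
            e ∈ T.edgeSet)).erase s(v, a)), elen d hd e := by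
          refine Finset.sum_congr ?_ (fun _ _ => rfl)
          convert hF
      _ = d a b + ∑ e ∈ (Finset.univ.filter (fun e : Sym2 V =>
            e ∈ T.edgeSet)).erase s(v, a), elen d hd e := this
      _ = _ := by
          have : ∀ x y z : ℝ, x + y = z + y - z + x := by intros; ring
          convert this _ _ _ using 2

end T3
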