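import Pool.Agent.Lib.MP_675adf_co.RDef
import Pool.Agent.Lib.MP_675adf_co.Swap
import Pool.Agent.Lib.MP_675adf_co.Hex

/-! MP_675adf_co, project T3, module Mst: a Euclidean minimum spanning tree of maximal degree 5. -/

open Real

namespace T3

theorem exists_mst5 {V : Type} [Fintype V] [Nonempty V] (pos : V → ℂ)
    (hinj : Function.Injective pos) (hd : ∀ a b, ‖pos a - pos b‖ = ‖pos b - pos a‖) :
    ∃ T : SimpleGraph V, T.IsTree ∧ (∀ v, (T.neighborSet v).ncard ≤ 5) ∧
      ∀ T' : SimpleGraph V, T'.IsTree →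
        gw (fun a b => ‖pos a - pos b‖) hd T ≤ gw (fun a b => ‖pos a - pos b‖) hd T' := by
  classical
  set d : V → V → ℝ := fun a b => ‖pos a - pos b‖ with hdd
  set q : V → V → ℝ := fun a b => (pos a - pos b).re ^ 2 with hqq
  have hq : ∀ a b, q a b = q b a := by
    intro a b
    simp only [hqq, Complex.sub_re]
    ring
  have hd' : ∀ a b, d a b = d b a := hd
  -- trees exist
  obtain ⟨T0, -, hT0⟩ := SimpleGraph.Connected.exists_isTree_le
    (SimpleGraph.connected_top (V := V))
  set S : Finset (SimpleGraph V) := Finset.univ.filter fun T => T.IsTree with hS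
  have hSne : S.Nonempty := ⟨T0, by simp [hS, hT0]⟩
  obtain ⟨T1, hT1S, hT1⟩ := Finset.exists_min_image S (fun T => gw d hd' T) hSne
  set S1 : Finset (SimpleGraph V) := S.filter fun T => gw d hd' T = gw d hd' T1 with hS1
  have hS1ne : S1.Nonempty := ⟨T1, by simp [hS1, hT1S]⟩
  obtain ⟨T, hTS, hT⟩ := Finset.exists_min_image S1 (fun T => gw q hq T) hS1ne
  have hTS' := Finset.mem_filter.1 hTS
  have hTtree : T.IsTree := (Finset.mem_filter.1 hTS'.1).2
  have hmin : ∀ T' : SimpleGraph V, T'.IsTree → gw d hd' T ≤ gw d hd' T' := by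
    intro T' hT'
    rw [hTS'.2]
    exact hT1 T' (by simp [hS, hT'])
  have hlex : ∀ T' : SimpleGraph V, T'.IsTree →
      gw d hd' T < gw d hd' T' ∨ (gw d hd' T = gw d hd' T' ∧ gw q hq T ≤ gw q hq T') := by
    intro T' hT'
    rcases (hmin T' hT').lt_or_eq with h | h
    · exact Or.inl h
    · right
      refine ⟨h, hT T' ?_⟩
      simp only [hS1, hS, Finset.mem_filter, Finset.mem_univ, true_and]
      exact ⟨hT', by rw [← h, hTS'.2]⟩
  refine ⟨T, hTtree, ?_, hmin⟩
  intro v
  by_contra hcon
  have hcon6 : 6 ≤ (T.neighborSet v).ncard := by omega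
  obtain ⟨A, hAsub, hAcard⟩ := Set.exists_subset_card_eq hcon6
  have hAfin : A.Finite := Set.toFinite A
  have hcard : Nat.card A = 6 := by
    rw [Nat.card_coe_set_eq, hAcard]
  have e : Fin 6 ≃ A := (Finite.equivFinOfCardEq hcard).symm
  have hinjA : Function.Injective fun i : Fin 6 => (e i : V) := fun i j h =>
    e.injective (Subtype.ext h)
  have hadj : ∀ i : Fin 6, T.Adj v (e i : V) := fun i => hAsub (e i).2
  apply hex (fun i => pos (e i : V) - pos v)
  · intro i h
    have h1 : pos (e i : V) = pos v := sub_eq_zero.1 h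
    exact (hadj i).ne (hinj h1).symm
  · intro i j hij
    have hne : (e i : V) ≠ (e j : V) := fun h => hij (hinjA h)
    obtain ⟨T', hT', hw⟩ := swap_tree T hTtree (hadj i) (hadj j) hne
    have h1 := hw d hd'
    have h2 := hw q hq
    have e1 : ‖pos (e i : V) - pos v‖ = d v (e i : V) := norm_sub_rev _ _
    have e2 : (pos (e i : V) - pos v) - (pos (e j : V) - pos v) = pos (e i : V) - pos (e j : V) := by
      ring
    have e3 : (pos (e i : V) - pos v).re ^ 2 = q v (e i : V) := by
      simp only [hqq, Complex.sub_re]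
      ring
    have e4 : ‖pos (e i : V) - pos (e j : V)‖ = d (e i : V) (e j : V) := rfl
    have e5 : (pos (e i : V) - pos (e j : V)).re ^ 2 = q (e i : V) (e j : V) := rfl
    rw [e2, e1, e3, e4, e5]
    rcases hlex T' hT' with h | ⟨h, h'⟩
    · left
      linarith
    · right
      constructor
      · linarith
      · linarith

end T3
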