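import Pool.Agent.Lib.MP_675adf_co.RDef

/-! Project T3 (MP_675adf_co), module Rec: the recursion that turns a forest with at most four
children everywhere into a binary forest, given the local inequality. -/

open Real

namespace T3

theorem nodes_eq_nodesL {V : Type} (F : Forest V) : F.nodes = nodesL F.toL := by
  induction F with
  | nil => rfl
  | cons v c s ihc ihs =>
    simp [Forest.nodes, Forest.toL, nodesL] at ihs ⊢
    rw [ihs]

theorem wt_eq_sum {V : Type} (d : V → V → ℝ) (F : Forest V) (v : V) :
    F.wt d v = (F.toL.map (fun x => d v x.1 + x.2.wt d x.1)).sum := by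
  induction F with
  | nil => rfl
  | cons w c s ihc ihs =>
    simp only [Forest.wt, Forest.toL, List.map_cons, List.sum_cons]
    rw [ihs]

theorem ok_mem {V : Type} {K : ℕ} (F : Forest V) (h : F.ok K) :
    ∀ x ∈ F.toL, x.2.toL.length ≤ K ∧ x.2.ok K := by
  induction F with
  | nil => intro x hx; simp [Forest.toL] at hx
  | cons w c s ihc ihs =>
    intro x hx
    simp only [Forest.toL, List.mem_cons] at hx
    obtain ⟨h1, h2, h3⟩ := h
    rcases hx with rfl | hx
    · exact ⟨h1, h2⟩
    · exact ihs h3 x hx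

theorem nodesL_append {V : Type} (A B : List (V × Forest V)) :
    nodesL (A ++ B) = nodesL A ++ nodesL B := by
  simp [nodesL]

theorem nodesL_cons {V : Type} (x : V × Forest V) (B : List (V × Forest V)) :
    nodesL (x :: B) = x.1 :: (x.2.nodes ++ nodesL B) := by
  simp [nodesL]

theorem nodesL_perm {V : Type} {A B : List (V × Forest V)} (h : A.Perm B) :
    (nodesL A).Perm (nodesL B) := by
  unfold nodesL
  exact h.flatMap_right _

theorem sum_map_nonneg' {α : Type} (f : α → ℝ) (L : List α) (h : ∀ x ∈ L, 0 ≤ f x) :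
    0 ≤ (L.map f).sum := by
  apply List.sum_nonneg
  intro y hy
  obtain ⟨x, hx, rfl⟩ := List.mem_map.mp hy
  exact h x hx

theorem sum_map_add' {α : Type} (f h : α → ℝ) (L : List α) :
    (L.map (fun x => f x + h x)).sum = (L.map f).sum + (L.map h).sum := by
  induction L with
  | nil => simp
  | cons a L ih => simp only [List.map_cons, List.sum_cons, ih]; ring

theorem sum_map_sub' {α : Type} (f h : α → ℝ) (L : List α) :
    (L.map (fun x => f x - h x)).sum = (L.map f).sum - (L.map h).sum := by
  induction L with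
  | nil => simp
  | cons a L ih => simp only [List.map_cons, List.sum_cons, ih]; ring

theorem bonus_nonneg {g : ℝ} (hg : 0 ≤ g) {α : Type} (e : α → ℝ) (he : ∀ a, 0 ≤ e a)
    (R : List α) : 0 ≤ bonus g e R := by
  unfold bonus
  split
  · exact mul_nonneg hg (le_min (he _) (he _))
  · exact le_rfl

theorem rec_main {V : Type} (d : V → V → ℝ) (hd0 : ∀ a b, 0 ≤ d a b) {g : ℝ} (hg : 0 ≤ g)
    (hL : ∀ (v : V) (L : List (V × Forest V)), 3 ≤ L.length → L.length ≤ 6 →
      Loc g (fun a b => d a.1 b.1) (fun a => d v a.1) L) :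
    ∀ (v : V) (C Y : List (V × Forest V)), C.length ≤ 5 → Y.length ≤ 2 →
      (Y = [] ∨ C.length ≤ 4) → (∀ x ∈ C ++ Y, x.2.toL.length ≤ 4 ∧ x.2.ok 4) →
      ∃ B : Forest V, B.toL.length ≤ 2 ∧ B.ok 2 ∧ B.nodes.Perm (nodesL (C ++ Y)) ∧
        B.wt d v ≤ (1 + g) * ((C.map (fun x => d v x.1 + x.2.wt d x.1)).sum +
            (Y.map (fun x => x.2.wt d x.1)).sum) +
          (Y.map (fun x => d v x.1)).sum + bonus g (fun x : V × Forest V => d v x.1) Y := by
  intro v C Y
  induction hN : (nodesL (C ++ Y)).length using Nat.strong_induction_on generalizing v C Y with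
  | _ N IH =>
  intro hC hY hor hok
  -- a block
  have hblk : ∀ (h : V × Forest V) (R : List (V × Forest V)), R.length ≤ 2 →
      (∀ x ∈ h :: R, x.2.toL.length ≤ 4 ∧ x.2.ok 4) → (nodesL (h :: R)).length ≤ N →
      ∃ B : Forest V, B.toL.length ≤ 2 ∧ B.ok 2 ∧
        (h.1 :: B.nodes).Perm (nodesL (h :: R)) ∧
        d v h.1 + B.wt d h.1 ≤ (1 + g) * (((h :: R).map (fun x => x.2.wt d x.1)).sum) +
          ((h :: R).map (fun x => d v x.1)).sum +
          bcost g (fun a b : V × Forest V => d a.1 b.1) (fun a => d v a.1) h R := by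
    intro h R hR hok' hlen
    have hh := hok' h (by simp)
    have hnum : (nodesL (h.2.toL ++ R)).length < N := by
      rw [nodesL_cons, nodes_eq_nodesL, ← nodesL_append] at hlen
      simpa [Nat.succ_le_iff] using hlen
    obtain ⟨B, hB1, hB2, hB3, hB4⟩ := IH _ hnum h.1 h.2.toL R rfl (by omega) hR
      (Or.inr hh.1) (by
        intro x hx
        rcases List.mem_append.mp hx with hx | hx
        · exact ok_mem h.2 hh.2 x hx
        · exact hok' x (List.mem_cons_of_mem _ hx))
    refine ⟨B, hB1, hB2, ?_, ?_⟩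
    · rw [nodesL_cons, nodes_eq_nodesL h.2, ← nodesL_append]
      exact hB3.cons _
    · rw [← wt_eq_sum] at hB4
      unfold bcost
      simp only [List.map_cons, List.sum_cons]
      rw [sum_map_sub' (fun a : V × Forest V => d h.1 a.1) (fun a => d v a.1) R]
      have e1 : (fun x : V × Forest V => d h.1 x.1) = (fun b : V × Forest V => (fun a b : V × Forest V => d a.1 b.1) h b) := rfl
      have e2 : bonus g (fun x : V × Forest V => d h.1 x.1) R = bonus g ((fun a b : V × Forest V => d a.1 b.1) h) R := rfl
      rw [← e2]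
      linarith
  -- nonnegativity of the sums
  have hrC : 0 ≤ (C.map (fun x : V × Forest V => d v x.1)).sum :=
    sum_map_nonneg' _ _ (fun x _ => hd0 _ _)
  have hbon : 0 ≤ bonus g (fun x : V × Forest V => d v x.1) Y :=
    bonus_nonneg hg _ (fun a => hd0 _ _) Y
  -- it suffices to have a good total
  have hgoal : ∀ (B : Forest V) (cost : ℝ), B.toL.length ≤ 2 → B.ok 2 →
      B.nodes.Perm (nodesL (C ++ Y)) →
      B.wt d v ≤ (1 + g) * (((C ++ Y).map (fun x => x.2.wt d x.1)).sum) +
        ((C ++ Y).map (fun x : V × Forest V => d v x.1)).sum + cost →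
      cost ≤ g * (C.map (fun x : V × Forest V => d v x.1)).sum +
        bonus g (fun x : V × Forest V => d v x.1) Y →
      ∃ B : Forest V, B.toL.length ≤ 2 ∧ B.ok 2 ∧ B.nodes.Perm (nodesL (C ++ Y)) ∧
        B.wt d v ≤ (1 + g) * ((C.map (fun x => d v x.1 + x.2.wt d x.1)).sum +
            (Y.map (fun x => x.2.wt d x.1)).sum) +
          (Y.map (fun x => d v x.1)).sum + bonus g (fun x : V × Forest V => d v x.1) Y := by
    intro B cost h1 h2 h3 h4 h5
    refine ⟨B, h1, h2, h3, ?_⟩
    rw [List.map_append, List.map_append, List.sum_append, List.sum_append] at h4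
    rw [sum_map_add' (fun x : V × Forest V => d v x.1) (fun x => x.2.wt d x.1) C]
    nlinarith
  -- two blocks
  have htwo : ∀ (h1 : V × Forest V) (R1 : List (V × Forest V)) (h2 : V × Forest V)
      (R2 : List (V × Forest V)), (h1 :: R1 ++ h2 :: R2).Perm (C ++ Y) →
      R1.length ≤ 2 → R2.length ≤ 2 →
      ∃ B : Forest V, B.toL.length ≤ 2 ∧ B.ok 2 ∧ B.nodes.Perm (nodesL (C ++ Y)) ∧
        B.wt d v ≤ (1 + g) * (((C ++ Y).map (fun x => x.2.wt d x.1)).sum) +
          ((C ++ Y).map (fun x : V × Forest V => d v x.1)).sum +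
          (bcost g (fun a b : V × Forest V => d a.1 b.1) (fun a => d v a.1) h1 R1 +
          bcost g (fun a b : V × Forest V => d a.1 b.1) (fun a => d v a.1) h2 R2) := by
    intro h1 R1 h2 R2 hp hR1 hR2
    have hlen := (nodesL_perm hp).length_eq
    rw [nodesL_append, List.length_append, hN] at hlen
    obtain ⟨B1, a1, a2, a3, a4⟩ := hblk h1 R1 hR1
      (fun x hx => hok x (hp.mem_iff.mp (List.mem_append_left _ hx))) (by omega)
    obtain ⟨B2, b1, b2, b3, b4⟩ := hblk h2 R2 hR2
      (fun x hx => hok x (hp.mem_iff.mp (List.mem_append_right _ hx))) (by omega)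
    refine ⟨Forest.cons h1.1 B1 (Forest.cons h2.1 B2 Forest.nil), by simp [Forest.toL],
      ⟨a1, a2, b1, b2, trivial⟩, ?_, ?_⟩
    · refine List.Perm.trans ?_ (nodesL_perm hp)
      rw [nodesL_append]
      have : (Forest.cons h1.1 B1 (Forest.cons h2.1 B2 Forest.nil)).nodes =
          (h1.1 :: B1.nodes) ++ (h2.1 :: B2.nodes) := by simp [Forest.nodes]
      rw [this]
      exact a3.append b3
    · have e1 := ((hp.map (fun x : V × Forest V => x.2.wt d x.1))).sum_eq
      have e2 := ((hp.map (fun x : V × Forest V => d v x.1))).sum_eq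
      rw [List.map_append, List.sum_append] at e1 e2
      simp only [Forest.wt]
      rw [← e1, ← e2]
      linarith
  by_cases h3 : 3 ≤ (C ++ Y).length
  · -- local inequality
    have h6 : (C ++ Y).length ≤ 6 := by
      rw [List.length_append]
      rcases hor with rfl | h
      · simp; omega
      · omega
    obtain ⟨h1, R1, h2, R2, hp, hR1, hR2, hc⟩ := hL v (C ++ Y) h3 h6
    obtain ⟨B, c1, c2, c3, c4⟩ := htwo h1 R1 h2 R2 hp hR1 hR2
    refine hgoal B _ c1 c2 c3 c4 ?_
    have hsum : ((C ++ Y).map (fun x : V × Forest V => d v x.1)).sum =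
        (C.map (fun x : V × Forest V => d v x.1)).sum +
        (Y.map (fun x : V × Forest V => d v x.1)).sum := by
      rw [List.map_append, List.sum_append]
    match Y, hY, hbon, hc, hsum, h3 with
    | [], _, hbon, hc, hsum, h3 =>
      obtain ⟨x, hx⟩ : ∃ x, x ∈ C ++ ([] : List (V × Forest V)) := by
        cases hCC : C ++ ([] : List (V × Forest V)) with
        | nil => rw [hCC] at h3; simp at h3
        | cons a l => exact ⟨a, by simp⟩
      have := hc x hx
      rw [hsum] at this
      simp only [List.map_nil, List.sum_nil, add_zero] at this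
      have hx0 := hd0 v x.1
      nlinarith
    | [y], _, hbon, hc, hsum, h3 =>
      have := hc y (by simp)
      rw [hsum] at this
      simp only [List.map_cons, List.map_nil, List.sum_cons, List.sum_nil, add_zero] at this
      nlinarith
    | [y1, y2], _, hbon, hc, hsum, h3 =>
      have hb : bonus g (fun x : V × Forest V => d v x.1) [y1, y2] =
        g * min (d v y1.1) (d v y2.1) := rfl
      rw [hb]
      rcases le_total (d v y1.1) (d v y2.1) with hle | hle
      · have := hc y2 (by simp)
        rw [hsum] at this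
        simp only [List.map_cons, List.map_nil, List.sum_cons, List.sum_nil, add_zero] at this
        rw [min_eq_left hle]
        nlinarith
      · have := hc y1 (by simp)
        rw [hsum] at this
        simp only [List.map_cons, List.map_nil, List.sum_cons, List.sum_nil, add_zero] at this
        rw [min_eq_right hle]
        nlinarith
    | y1 :: y2 :: y3 :: l, hY, _, _, _, _ => exact absurd hY (by simp)
  · -- at most two items
    have hcost0 : (0 : ℝ) ≤ g * (C.map (fun x : V × Forest V => d v x.1)).sum +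
        bonus g (fun x : V × Forest V => d v x.1) Y := add_nonneg (mul_nonneg hg hrC) hbon
    obtain ⟨L0, hCY⟩ : ∃ L0, L0 = C ++ Y := ⟨_, rfl⟩
    rw [← hCY] at h3
    match L0, hCY, h3 with
    | [], hCY, _ =>
      refine hgoal Forest.nil 0 (by simp [Forest.toL]) trivial ?_ ?_ hcost0
      · rw [← hCY]; exact List.Perm.refl _
      · rw [← hCY]; simp [Forest.wt]
    | [h], hCY, _ =>
      obtain ⟨B, b1, b2, b3, b4⟩ := hblk h [] (by simp)
        (fun x hx => hok x (by rw [← hCY]; exact hx)) (by rw [← hN, ← hCY])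
      refine hgoal (Forest.cons h.1 B Forest.nil) 0 (by simp [Forest.toL])
        ⟨b1, b2, trivial⟩ ?_ ?_ hcost0
      · rw [← hCY]
        simpa [Forest.nodes] using b3
      · rw [← hCY]
        have hb0 : bcost g (fun a b : V × Forest V => d a.1 b.1) (fun a => d v a.1) h [] = 0 := by
          simp [bcost, bonus]
        rw [hb0] at b4
        simp only [Forest.wt]
        linarith
    | [h1, h2], hCY, _ =>
      obtain ⟨B, c1, c2, c3, c4⟩ := htwo h1 [] h2 [] (by rw [← hCY]; exact List.Perm.refl _)
        (by simp) (by simp)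
      refine hgoal B _ c1 c2 c3 c4 ?_
      have hb0 : ∀ h : V × Forest V,
          bcost g (fun a b : V × Forest V => d a.1 b.1) (fun a => d v a.1) h [] = 0 := by
        intro h
        simp [bcost, bonus]
      rw [hb0, hb0, add_zero]
      exact hcost0
    | a :: b :: c :: l, _, h => exact absurd (by simp) h

theorem rec_forest {V : Type} (d : V → V → ℝ) (hd0 : ∀ a b, 0 ≤ d a b) {g : ℝ} (hg : 0 ≤ g)
    (hL : ∀ (v : V) (L : List (V × Forest V)), 3 ≤ L.length → L.length ≤ 6 →
      Loc g (fun a b => d a.1 b.1) (fun a => d v a.1) L)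
    (v : V) (F : Forest V) (h5 : F.toL.length ≤ 5) (h4 : F.ok 4) :
    ∃ B : Forest V, B.toL.length ≤ 2 ∧ B.ok 2 ∧ B.nodes.Perm F.nodes ∧
      B.wt d v ≤ (1 + g) * F.wt d v := by
  obtain ⟨B, h1, h2, h3, h4'⟩ := rec_main d hd0 hg hL v F.toL [] h5 (by simp) (Or.inl rfl)
    (by
      intro x hx
      rw [List.append_nil] at hx
      exact ok_mem F h4 x hx)
  refine ⟨B, h1, h2, ?_, ?_⟩
  · rw [List.append_nil, ← nodes_eq_nodesL] at h3
    exact h3
  · rw [← wt_eq_sum] at h4'
    simpa [bonus] using h4'

end T3
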