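import Pool.Agent.Lib.MP_675adf_co.RDef

/-! Degree 3 spanning trees: from a tree to an ordered forest. -/

open Real

namespace T3

namespace ToF

variable {V : Type}

/-- every parent-child pair of the forest is an edge of `T` -/
def AdjF (T : SimpleGraph V) : V → Forest V → Prop
  | _, .nil => True
  | p, .cons v c s => T.Adj p v ∧ AdjF T v c ∧ AdjF T p s

open Classical in
/-- attach the new leaf `y` as a child of the node `x` -/
noncomputable def ins (x y : V) : V → Forest V → Forest V
  | p, .nil => if p = x then .cons y .nil .nil else .nil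
  | p, .cons v c s => if p = x then .cons y .nil (.cons v c s) else
      if v = x ∨ x ∈ c.nodes then .cons v (ins x y v c) s else .cons v c (ins x y p s)

theorem ins_nodes (x y : V) (F : Forest V) :
    ∀ p : V, x ∈ p :: F.nodes → (ins x y p F).nodes.Perm (y :: F.nodes) := by
  induction F with
  | nil =>
    intro p hx
    have h : x = p := by simpa [Forest.nodes] using hx
    rw [ins, if_pos h.symm]
    simp [Forest.nodes]
  | cons v c s ihc ihs =>
    intro p hx
    rw [ins]
    by_cases hp : p = x
    · rw [if_pos hp]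
      simp [Forest.nodes]
    · rw [if_neg hp]
      have hx2 : x = p ∨ x = v ∨ x ∈ c.nodes ∨ x ∈ s.nodes := by
        simpa [Forest.nodes] using hx
      by_cases hv : v = x ∨ x ∈ c.nodes
      · rw [if_pos hv]
        have h1 : x ∈ v :: c.nodes := by
          rcases hv with h | h
          · simp [h]
          · simp [h]
        have h2 := ihc v h1
        show (v :: ((ins x y v c).nodes ++ s.nodes)).Perm (y :: v :: (c.nodes ++ s.nodes))
        have h3 : ((ins x y v c).nodes ++ s.nodes).Perm (y :: (c.nodes ++ s.nodes)) :=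
          h2.append_right s.nodes
        exact (h3.cons v).trans (List.Perm.swap y v _)
      · rw [if_neg hv]
        have h1 : x ∈ s.nodes := by
          rcases hx2 with h | h | h | h
          · exact absurd h.symm hp
          · exact absurd (Or.inl h.symm) hv
          · exact absurd (Or.inr h) hv
          · exact h
        have h2 := ihs p (List.mem_cons_of_mem _ h1)
        show (v :: (c.nodes ++ (ins x y p s).nodes)).Perm (y :: v :: (c.nodes ++ s.nodes))
        have h3 : (c.nodes ++ (ins x y p s).nodes).Perm (y :: (c.nodes ++ s.nodes)) :=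
          (h2.append_left c.nodes).trans List.perm_middle
        exact (h3.cons v).trans (List.Perm.swap y v _)

theorem ins_adj (T : SimpleGraph V) (x y : V) (hxy : T.Adj x y) (F : Forest V) :
    ∀ p : V, AdjF T p F → AdjF T p (ins x y p F) := by
  induction F with
  | nil =>
    intro p _
    rw [ins]
    split_ifs with h
    · subst h
      exact ⟨hxy, trivial, trivial⟩
    · trivial
  | cons v c s ihc ihs =>
    intro p hF
    rw [ins]
    split_ifs with h h2
    · subst h
      exact ⟨hxy, trivial, hF⟩
    · exact ⟨hF.1, ihc v hF.2.1, hF.2.2⟩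
    · exact ⟨hF.1, hF.2.1, ihs p hF.2.2⟩

/-- growing the forest -/
theorem grow [Fintype V] (T : SimpleGraph V) (hT : T.Connected) (r : V) (k : ℕ) :
    k + 1 ≤ Fintype.card V →
    ∃ F : Forest V, (r :: F.nodes).Nodup ∧ AdjF T r F ∧ F.nodes.length = k := by
  classical
  induction k with
  | zero =>
    intro _
    exact ⟨.nil, by simp [Forest.nodes], trivial, rfl⟩
  | succ k ih =>
    intro hk
    obtain ⟨F, hF1, hF2, hF3⟩ := ih (by omega)
    have hmiss : ∃ w : V, w ∉ r :: F.nodes := by
      by_contra hcon
      push Not at hcon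
      have h1 : (Finset.univ : Finset V) ⊆ (r :: F.nodes).toFinset := by
        intro w _
        exact List.mem_toFinset.2 (hcon w)
      have h2 := Finset.card_le_card h1
      have h3 := List.toFinset_card_le (r :: F.nodes)
      rw [Finset.card_univ] at h2
      simp only [List.length_cons, hF3] at h3
      omega
    obtain ⟨w, hw⟩ := hmiss
    obtain ⟨W⟩ := hT.preconnected r w
    obtain ⟨e, _, he1, he2⟩ := W.exists_boundary_dart {v | v ∈ r :: F.nodes}
      (by simp) hw
    have hx : e.fst ∈ r :: F.nodes := he1
    have hy : e.snd ∉ r :: F.nodes := he2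
    have hperm := ins_nodes e.fst e.snd F r hx
    refine ⟨ins e.fst e.snd r F, ?_, ins_adj T _ _ e.adj F r hF2, ?_⟩
    · have h1 : (r :: (ins e.fst e.snd r F).nodes).Perm (e.snd :: r :: F.nodes) :=
        (hperm.cons r).trans (List.Perm.swap _ _ _)
      exact h1.nodup_iff.2 (List.nodup_cons.2 ⟨hy, hF1⟩)
    · rw [hperm.length_eq, List.length_cons, hF3]

theorem roots_sublist (F : Forest V) : (F.toL.map Prod.fst).Sublist F.nodes := by
  induction F with
  | nil => exact List.Sublist.refl _
  | cons v c s _ ihs =>
    show (v :: s.toL.map Prod.fst).Sublist (v :: (c.nodes ++ s.nodes))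
    exact (ihs.trans (List.sublist_append_right _ _)).cons_cons v

theorem roots_adj (T : SimpleGraph V) (p : V) (F : Forest V) :
    AdjF T p F → ∀ v ∈ F.toL.map Prod.fst, T.Adj p v := by
  induction F with
  | nil =>
    intro _ v hv
    simp [Forest.toL] at hv
  | cons v c s _ ihs =>
    intro hF w hw
    have hw2 : w ∈ v :: s.toL.map Prod.fst := hw
    rcases List.mem_cons.1 hw2 with h | h
    · rw [h]; exact hF.1
    · exact ihs hF.2.2 w h

theorem length_le [Fintype V] (T : SimpleGraph V) (hdeg : ∀ v, (T.neighborSet v).ncard ≤ 5)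
    (p : V) (l : List V) (hl : l.Nodup) (h : ∀ v ∈ l, T.Adj p v) : l.length ≤ 5 := by
  classical
  have h1 : (l.toFinset : Set V) ⊆ T.neighborSet p := by
    intro v hv
    exact h v (by simpa using hv)
  have h2 := Set.ncard_le_ncard h1 (Set.toFinite _)
  rw [Set.ncard_coe_finset, List.toFinset_card_of_nodup hl] at h2
  exact h2.trans (hdeg p)

theorem ok_of [Fintype V] (T : SimpleGraph V) (hdeg : ∀ v, (T.neighborSet v).ncard ≤ 5)
    (G : Forest V) : ∀ p : V, (p :: G.nodes).Nodup → AdjF T p G → G.ok 4 := by
  induction G with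
  | nil => intro p _ _; trivial
  | cons v c s ihc ihs =>
    intro p hn hG
    have hn' : (p :: v :: (c.nodes ++ s.nodes)).Nodup := hn
    rw [List.nodup_cons, List.nodup_cons, List.nodup_append] at hn'
    obtain ⟨hp, hv, hc, hs, hcs⟩ := hn'
    simp only [List.mem_cons, List.mem_append, not_or] at hp hv
    have h1 : (p :: c.toL.map Prod.fst).Nodup := by
      refine List.nodup_cons.2 ⟨fun h => hp.2.1 ((roots_sublist c).subset h),
        (roots_sublist c).nodup hc⟩
    have h2 : (p :: c.toL.map Prod.fst).length ≤ 5 := by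
      refine length_le T hdeg v _ h1 ?_
      intro w hw
      rcases List.mem_cons.1 hw with h | h
      · rw [h]; exact hG.1.symm
      · exact roots_adj T v c hG.2.1 w h
    rw [List.length_cons, List.length_map] at h2
    refine ⟨by omega, ihc v (List.nodup_cons.2 ⟨hv.1, hc⟩) hG.2.1,
      ihs p (List.nodup_cons.2 ⟨hp.2.2, hs⟩) hG.2.2⟩

theorem wt_eq (d : V → V → ℝ) (F : Forest V) :
    ∀ p : V, F.wt d p = ((F.edges p).map (fun e => d e.1 e.2)).sum := by
  induction F with
  | nil => intro p; rfl
  | cons v c s ihc ihs =>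
    intro p
    show d p v + c.wt d v + s.wt d p =
      (((p, v) :: (c.edges v ++ s.edges p)).map (fun e => d e.1 e.2)).sum
    rw [List.map_cons, List.sum_cons, List.map_append, List.sum_append, ← ihc v, ← ihs p]
    ring

theorem edges_mem (F : Forest V) : ∀ p : V, ∀ e ∈ F.edges p,
    e.1 ∈ p :: F.nodes ∧ e.2 ∈ F.nodes := by
  induction F with
  | nil => intro p e he; simp [Forest.edges] at he
  | cons v c s ihc ihs =>
    intro p e he
    have he2 : e ∈ (p, v) :: (c.edges v ++ s.edges p) := he
    show e.1 ∈ p :: v :: (c.nodes ++ s.nodes) ∧ e.2 ∈ v :: (c.nodes ++ s.nodes)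
    rw [List.mem_cons, List.mem_append] at he2
    rcases he2 with h | h | h
    · subst h
      simp
    · obtain ⟨h1, h2⟩ := ihc v e h
      rw [List.mem_cons] at h1
      simp only [List.mem_cons, List.mem_append]
      tauto
    · obtain ⟨h1, h2⟩ := ihs p e h
      rw [List.mem_cons] at h1
      simp only [List.mem_cons, List.mem_append]
      tauto

theorem edges_adj (T : SimpleGraph V) (F : Forest V) : ∀ p : V, AdjF T p F →
    ∀ e ∈ F.edges p, T.Adj e.1 e.2 := by
  induction F with
  | nil => intro p _ e he; simp [Forest.edges] at he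
  | cons v c s ihc ihs =>
    intro p hF e he
    have he2 : e ∈ (p, v) :: (c.edges v ++ s.edges p) := he
    rw [List.mem_cons, List.mem_append] at he2
    rcases he2 with h | h | h
    · subst h
      exact hF.1
    · exact ihc v hF.2.1 e h
    · exact ihs p hF.2.2 e h

theorem edges_nodup (F : Forest V) : ∀ p : V, (p :: F.nodes).Nodup →
    ((F.edges p).map (fun e => s(e.1, e.2))).Nodup := by
  induction F with
  | nil => intro p _; simp [Forest.edges]
  | cons v c s ihc ihs =>
    intro p hn
    have hn' : (p :: v :: (c.nodes ++ s.nodes)).Nodup := hn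
    rw [List.nodup_cons, List.nodup_cons, List.nodup_append] at hn'
    obtain ⟨hp, hv, hc, hs, hcs⟩ := hn'
    simp only [List.mem_cons, List.mem_append, not_or] at hp hv
    show (((p, v) :: (c.edges v ++ s.edges p)).map (fun e => s(e.1, e.2))).Nodup
    rw [List.map_cons, List.map_append, List.nodup_cons, List.nodup_append]
    refine ⟨?_, ihc v (List.nodup_cons.2 ⟨hv.1, hc⟩), ihs p (List.nodup_cons.2 ⟨hp.2.2, hs⟩), ?_⟩
    · intro h
      rw [List.mem_append, List.mem_map, List.mem_map] at h
      rcases h with ⟨e, he, h⟩ | ⟨e, he, h⟩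
      · obtain ⟨h1, h2⟩ := edges_mem c v e he
        rw [List.mem_cons] at h1
        rw [Sym2.eq_iff] at h
        rcases h with ⟨h3, h4⟩ | ⟨h3, h4⟩
        · rw [h3] at h1
          rcases h1 with h1 | h1
          · exact hp.1 h1
          · exact hp.2.1 h1
        · rw [h4] at h2
          exact hp.2.1 h2
      · obtain ⟨h1, h2⟩ := edges_mem s p e he
        rw [List.mem_cons] at h1
        rw [Sym2.eq_iff] at h
        rcases h with ⟨h3, h4⟩ | ⟨h3, h4⟩
        · rw [h4] at h2
          exact hv.2 h2
        · rw [h3] at h1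
          rcases h1 with h1 | h1
          · exact hp.1 h1.symm
          · exact hv.2 h1
    · intro a ha b hb hab
      rw [List.mem_map] at ha hb
      obtain ⟨e, he, rfl⟩ := ha
      obtain ⟨f, hf, rfl⟩ := hb
      obtain ⟨h1, h2⟩ := edges_mem c v e he
      obtain ⟨h3, h4⟩ := edges_mem s p f hf
      rw [List.mem_cons] at h3
      have hab2 : s(e.1, e.2) = s(f.1, f.2) := hab
      rw [Sym2.eq_iff] at hab2
      rcases hab2 with ⟨h5, h6⟩ | ⟨h5, h6⟩
      · rw [h6] at h2
        exact hcs _ h2 _ h4 rfl
      · rw [h6] at h2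
        rcases h3 with h3 | h3
        · rw [h3] at h2
          exact hp.2.1 h2
        · exact hcs _ h2 _ h3 rfl

end ToF

open ToF in
theorem exists_forest {V : Type} [Fintype V] (T : SimpleGraph V) (hT : T.IsTree)
    (hdeg : ∀ v, (T.neighborSet v).ncard ≤ 5) (d : V → V → ℝ) (hd : ∀ a b, d a b = d b a)
    (hd0 : ∀ a b, 0 ≤ d a b) (r : V) :
    ∃ F : Forest V, (r :: F.nodes).Nodup ∧ (∀ v, v ∈ r :: F.nodes) ∧ F.toL.length ≤ 5 ∧
      F.ok 4 ∧ F.wt d r ≤ gw d hd T := by
  classical
  have hcard : 1 ≤ Fintype.card V := Fintype.card_pos_iff.2 ⟨r⟩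
  obtain ⟨F, hF1, hF2, hF3⟩ := grow T hT.connected r (Fintype.card V - 1) (by omega)
  refine ⟨F, hF1, ?_, ?_, ok_of T hdeg F r hF1 hF2, ?_⟩
  · have h1 : (r :: F.nodes).toFinset.card = Fintype.card V := by
      rw [List.toFinset_card_of_nodup hF1, List.length_cons, hF3]
      omega
    have h2 := Finset.eq_univ_of_card _ h1
    intro v
    have h3 : v ∈ (r :: F.nodes).toFinset := by rw [h2]; exact Finset.mem_univ v
    exact List.mem_toFinset.1 h3
  · have h1 := length_le T hdeg r _ ((roots_sublist F).nodup (List.nodup_cons.1 hF1).2)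
      (roots_adj T r F hF2)
    rwa [List.length_map] at h1
  · rw [wt_eq]
    have hL := edges_nodup F r hF1
    have h1 : ((F.edges r).map (fun e => d e.1 e.2)).sum =
        ∑ e ∈ ((F.edges r).map (fun e => s(e.1, e.2))).toFinset, elen d hd e := by
      rw [List.sum_toFinset _ hL, List.map_map]
      rfl
    rw [h1]
    unfold gw
    refine Finset.sum_le_sum_of_subset_of_nonneg ?_ ?_
    · intro e he
      rw [List.mem_toFinset, List.mem_map] at he
      obtain ⟨f, hf, rfl⟩ := he
      rw [Finset.mem_filter]
      exact ⟨Finset.mem_univ _, edges_adj T F r hF2 f hf⟩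
    · intro e _ _
      induction e using Sym2.ind with
      | _ a b => exact hd0 a b

end T3
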