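import Pool.Agent.Lib.MP_675adf_co.RDef

/-! Degree 3 spanning trees: from an ordered forest to a spanning tree of degree at most three. -/

open Real

namespace T3

section ToG

variable {V : Type}

theorem edges_snd (F : Forest V) : ∀ p, (F.edges p).map Prod.snd = F.nodes := by
  induction F with
  | nil => intro p; rfl
  | cons v c s ihc ihs =>
    intro p
    simp only [Forest.edges, Forest.nodes, List.map_cons, List.map_append, ihc, ihs]

theorem edges_fst (F : Forest V) : ∀ p, ∀ e ∈ F.edges p, e.1 ∈ p :: F.nodes := by
  induction F with
  | nil => intro p e he; simp [Forest.edges] at he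
  | cons v c s ihc ihs =>
    intro p e he
    simp only [Forest.edges, List.mem_cons, List.mem_append] at he
    simp only [Forest.nodes, List.mem_cons, List.mem_append]
    rcases he with rfl | he | he
    · exact Or.inl rfl
    · have := ihc v e he
      simp only [List.mem_cons] at this
      tauto
    · have := ihs p e he
      simp only [List.mem_cons] at this
      tauto

theorem wt_eq (d : V → V → ℝ) (F : Forest V) :
    ∀ p, F.wt d p = ((F.edges p).map (fun e => d e.1 e.2)).sum := by
  induction F with
  | nil => intro p; simp [Forest.wt, Forest.edges]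
  | cons v c s ihc ihs =>
    intro p
    simp only [Forest.wt, Forest.edges, List.map_cons, List.map_append, List.sum_cons,
      List.sum_append, ihc v, ihs p]
    ring

theorem reach_nodes (H : SimpleGraph V) (F : Forest V) :
    ∀ p, (∀ e ∈ F.edges p, H.Reachable e.1 e.2) → ∀ x ∈ F.nodes, H.Reachable p x := by
  induction F with
  | nil => intro p _ x hx; simp [Forest.nodes] at hx
  | cons v c s ihc ihs =>
    intro p h x hx
    simp only [Forest.nodes, List.mem_cons, List.mem_append] at hx
    have hpv : H.Reachable p v := h (p, v) (by simp [Forest.edges])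
    rcases hx with rfl | hx | hx
    · exact hpv
    · exact hpv.trans (ihc v (fun e he => h e (by simp [Forest.edges, he])) x hx)
    · exact ihs p (fun e he => h e (by simp [Forest.edges, he])) x hx

open Classical in
theorem countP_zero (F : Forest V) (p x : V) (hx : x ∉ p :: F.nodes) :
    (F.edges p).countP (fun e => decide (e.1 = x)) = 0 := by
  rw [List.countP_eq_zero]
  intro e he h
  simp only [decide_eq_true_eq] at h
  exact hx (h ▸ edges_fst F p e he)

open Classical in
theorem countP_le (F : Forest V) : ∀ p, F.ok 2 → (p :: F.nodes).Nodup →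
    ((F.edges p).countP (fun e => decide (e.1 = p)) ≤ F.toL.length) ∧
    (∀ x ∈ F.nodes, (F.edges p).countP (fun e => decide (e.1 = x)) ≤ 2) := by
  induction F with
  | nil =>
    intro p _ _
    refine ⟨by simp [Forest.edges], ?_⟩
    intro x hx
    simp [Forest.nodes] at hx
  | cons v c s ihc ihs =>
    intro p hok hnd
    obtain ⟨hcl, hc, hs⟩ := hok
    simp only [Forest.nodes, List.nodup_cons, List.mem_cons, List.mem_append, not_or,
      List.nodup_append] at hnd
    obtain ⟨⟨hpv, hpc, hps⟩, ⟨hvc, hvs⟩, hcn, hsn, hcs⟩ := hnd
    have hvcn : (v :: c.nodes).Nodup := List.nodup_cons.mpr ⟨hvc, hcn⟩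
    have hpsn : (p :: s.nodes).Nodup := List.nodup_cons.mpr ⟨hps, hsn⟩
    obtain ⟨c1, c2⟩ := ihc v hc hvcn
    obtain ⟨s1, s2⟩ := ihs p hs hpsn
    constructor
    · simp only [Forest.edges, List.countP_cons, List.countP_append, decide_true, if_true,
        Forest.toL, List.length_cons]
      have h0 := countP_zero c v p (by simp [hpv, hpc])
      omega
    · intro x hx
      simp only [Forest.nodes, List.mem_cons, List.mem_append] at hx
      simp only [Forest.edges, List.countP_cons, List.countP_append]
      rcases hx with rfl | hx | hx
      · have h0 := countP_zero s p x (by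
          simp only [List.mem_cons, not_or]
          exact ⟨fun h => hpv h.symm, hvs⟩)
        have h1 : ¬ (p = x) := hpv
        simp only [decide_eq_true_eq, h1, if_false]
        omega
      · have hxp : ¬ (p = x) := fun h => hpc (h ▸ hx)
        have h0 := countP_zero s p x (by
          simp only [List.mem_cons, not_or]
          exact ⟨fun h => hxp h.symm, fun h => hcs x hx x h rfl⟩)
        have := c2 x hx
        simp only [decide_eq_true_eq, hxp, if_false]
        omega
      · have hxp : ¬ (p = x) := fun h => hps (h ▸ hx)
        have h0 := countP_zero c v x (by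
          simp only [List.mem_cons, not_or]
          exact ⟨fun h => hvs (h ▸ hx), fun h => hcs x h x hx rfl⟩)
        have := s2 x hx
        simp only [decide_eq_true_eq, hxp, if_false]
        omega

theorem sum_toFinset_le {α : Type} [DecidableEq α] (f : α → ℝ) (hf : ∀ a, 0 ≤ f a) (l : List α) :
    ∑ a ∈ l.toFinset, f a ≤ (l.map f).sum := by
  induction l with
  | nil => simp
  | cons a l ih =>
    rw [List.toFinset_cons, List.map_cons, List.sum_cons]
    by_cases h : a ∈ l.toFinset
    · rw [Finset.insert_eq_of_mem h]
      linarith [hf a]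
    · rw [Finset.sum_insert h]
      linarith

theorem exists_graph {V : Type} [Fintype V] (F : Forest V) (r : V)
    (hnd : (r :: F.nodes).Nodup) (hall : ∀ v, v ∈ r :: F.nodes) (h2 : F.toL.length ≤ 2)
    (hok : F.ok 2) (d : V → V → ℝ) (hd : ∀ a b, d a b = d b a) (hd0 : ∀ a b, 0 ≤ d a b) :
    ∃ H : SimpleGraph V, H.IsTree ∧ (∀ v, (H.neighborSet v).ncard ≤ 3) ∧
      gw d hd H ≤ F.wt d r := by
  classical
  set E := F.edges r with hE
  set L : List (Sym2 V) := E.map (fun e => s(e.1, e.2)) with hL
  let H : SimpleGraph V := SimpleGraph.fromEdgeSet {z | z ∈ L}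
  have hadj : ∀ a b, H.Adj a b → (a, b) ∈ E ∨ (b, a) ∈ E := by
    intro a b h
    have h1 : s(a, b) ∈ L := (SimpleGraph.fromEdgeSet_adj _).mp h |>.1
    rw [hL, List.mem_map] at h1
    obtain ⟨e, he, heq⟩ := h1
    rw [Sym2.eq_iff] at heq
    rcases heq with ⟨h3, h4⟩ | ⟨h3, h4⟩
    · left; rw [← h3, ← h4]; exact he
    · right; rw [← h3, ← h4]; exact he
  have hreach : ∀ e ∈ E, H.Reachable e.1 e.2 := by
    intro e he
    by_cases h : e.1 = e.2
    · rw [h]
    · apply SimpleGraph.Adj.reachable
      refine (SimpleGraph.fromEdgeSet_adj _).mpr ⟨?_, h⟩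
      exact List.mem_map.mpr ⟨e, he, rfl⟩
  have hconn : H.Connected := by
    have hr : ∀ x, H.Reachable r x := by
      intro x
      rcases List.mem_cons.mp (hall x) with rfl | hx
      · exact SimpleGraph.Reachable.refl _
      · exact reach_nodes H F r hreach x hx
    have : Nonempty V := ⟨r⟩
    exact SimpleGraph.Connected.mk (fun a b => (hr a).symm.trans (hr b))
  have hsub : ∀ z, z ∈ H.edgeSet → z ∈ L.toFinset := by
    intro z hz
    rw [SimpleGraph.edgeSet_fromEdgeSet] at hz
    exact List.mem_toFinset.mpr hz.1
  have hElen : E.length = F.nodes.length := by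
    rw [← edges_snd F r, List.length_map]
  have hcardV : Nat.card V = E.length + 1 := by
    rw [Nat.card_eq_fintype_card, hElen, ← List.length_cons (a := r),
      ← List.toFinset_card_of_nodup hnd]
    have : (r :: F.nodes).toFinset = Finset.univ := by
      ext v
      simp only [List.mem_toFinset, Finset.mem_univ, iff_true]
      exact hall v
    rw [this, Finset.card_univ]
  have hcardE : Nat.card H.edgeSet ≤ E.length := by
    have h1 : Nat.card H.edgeSet = H.edgeSet.ncard := Nat.card_coe_set_eq _
    rw [h1]
    calc H.edgeSet.ncard ≤ ((L.toFinset : Finset (Sym2 V)) : Set (Sym2 V)).ncard :=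
          Set.ncard_le_ncard (fun z hz => by simpa using hsub z hz) (Finset.finite_toSet _)
      _ = L.toFinset.card := Set.ncard_coe_finset _
      _ ≤ L.length := List.toFinset_card_le L
      _ = E.length := by rw [hL, List.length_map]
  have htree : H.IsTree := by
    rw [SimpleGraph.isTree_iff_connected_and_card]
    refine ⟨hconn, ?_⟩
    have := hconn.card_vert_le_card_edgeSet_add_one
    omega
  refine ⟨H, htree, ?_, ?_⟩
  · intro x
    have hsubn : H.neighborSet x ⊆
        (((E.filter (fun e => decide (e.1 = x))).map Prod.snd).toFinset ∪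
          ((E.filter (fun e => decide (e.2 = x))).map Prod.fst).toFinset : Finset V) := by
      intro b hb
      rw [SimpleGraph.mem_neighborSet] at hb
      simp only [Finset.coe_union, Set.mem_union, Finset.mem_coe, List.mem_toFinset, List.mem_map,
        List.mem_filter, decide_eq_true_eq]
      rcases hadj x b hb with h | h
      · left; exact ⟨(x, b), ⟨h, rfl⟩, rfl⟩
      · right; exact ⟨(b, x), ⟨h, rfl⟩, rfl⟩
    have hc1 : (E.filter (fun e => decide (e.1 = x))).length ≤ 2 := by
      rw [← List.countP_eq_length_filter]
      obtain ⟨q1, q2⟩ := countP_le F r hok hnd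
      rcases List.mem_cons.mp (hall x) with rfl | hx
      · exact q1.trans h2
      · exact q2 x hx
    have hc2 : (E.filter (fun e => decide (e.2 = x))).length ≤ 1 := by
      rw [← List.countP_eq_length_filter]
      have h3 : List.count x (E.map Prod.snd) ≤ 1 := by
        apply List.nodup_iff_count_le_one.mp
        rw [edges_snd F r]
        exact (List.nodup_cons.mp hnd).2
      rw [List.count, List.countP_map] at h3
      refine le_trans (le_of_eq ?_) h3
      apply List.countP_congr
      intro e _
      simp
    calc (H.neighborSet x).ncard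
        ≤ ((((E.filter (fun e => decide (e.1 = x))).map Prod.snd).toFinset ∪
          ((E.filter (fun e => decide (e.2 = x))).map Prod.fst).toFinset : Finset V) :
            Set V).ncard := Set.ncard_le_ncard hsubn (Finset.finite_toSet _)
      _ = _ := Set.ncard_coe_finset _
      _ ≤ _ := Finset.card_union_le _ _
      _ ≤ 2 + 1 := by
          apply Nat.add_le_add
          · refine (List.toFinset_card_le _).trans ?_
            rw [List.length_map]; exact hc1
          · refine (List.toFinset_card_le _).trans ?_
            rw [List.length_map]; exact hc2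
      _ = 3 := rfl
  · have hel : ∀ z : Sym2 V, 0 ≤ elen d hd z := by
      intro z
      induction z using Sym2.ind with
      | _ a b => exact hd0 a b
    unfold gw
    refine le_trans (Finset.sum_le_sum_of_subset_of_nonneg (t := L.toFinset) ?_ ?_) ?_
    · intro z hz
      have hz2 := (@Finset.mem_filter _ _ (_) _ _).mp hz
      exact hsub z hz2.2
    · intro z _ _; exact hel z
    · refine le_trans (sum_toFinset_le _ hel L) (le_of_eq ?_)
      rw [wt_eq, hL, List.map_map]
      rfl

end ToG

end T3
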