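import Pool.Agent.Lib.MP_675adf_co.Keys
import Pool.Agent.Lib.MP_675adf_co.Geo
import Pool.Agent.Lib.MP_675adf_co.L3
import Pool.Agent.Lib.MP_675adf_co.Rec
import Pool.Agent.Lib.MP_675adf_co.ToF
import Pool.Agent.Lib.MP_675adf_co.ToG
import Pool.Agent.Lib.MP_675adf_co.Mst

/-! Assembly: a spanning tree of maximum degree 3 of length at most (1 + sqrt 3)/2 times the length
of any spanning tree, for finitely many distinct points of the complex plane. -/

open Real

namespace T3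

theorem gg_bounds : 366 / 1000 ≤ gg ∧ gg ≤ 367 / 1000 := by
  unfold gg
  have h : Real.sqrt 3 ^ 2 = 3 := Real.sq_sqrt (by norm_num)
  have h0 : 0 ≤ Real.sqrt 3 := Real.sqrt_nonneg 3
  constructor <;> nlinarith

theorem loc_all {α : Type} (f : α → ℂ) (L : List α) (h3 : 3 ≤ L.length) (h6 : L.length ≤ 6) :
    Loc gg (fun a b => ‖f a - f b‖) (fun a => ‖f a‖) L := by
  obtain h | h | h | h : L.length = 3 ∨ L.length = 4 ∨ L.length = 5 ∨ L.length = 6 := by omega
  · exact loc3 f L h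
  · exact loc_of_pst (by norm_num) pst4 gg_bounds.1 gg_bounds.2 f L h
  · exact loc_of_pst (by norm_num) pst5 gg_bounds.1 gg_bounds.2 f L h
  · exact loc_of_pst (by norm_num) pst6 gg_bounds.1 gg_bounds.2 f L h

theorem main_fin {V : Type} [Fintype V] [Nonempty V] (pos : V → ℂ)
    (hinj : Function.Injective pos) (hd : ∀ a b, ‖pos a - pos b‖ = ‖pos b - pos a‖) :
    ∃ H : SimpleGraph V, H.IsTree ∧ (∀ v, (H.neighborSet v).ncard ≤ 3) ∧
      ∀ T' : SimpleGraph V, T'.IsTree → gw (fun a b => ‖pos a - pos b‖) hd H ≤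
        (1 + Real.sqrt 3) / 2 * gw (fun a b => ‖pos a - pos b‖) hd T' := by
  obtain ⟨T, hT, hdeg, hmin⟩ := exists_mst5 pos hinj hd
  obtain ⟨r⟩ := (inferInstance : Nonempty V)
  have hd0 : ∀ a b, 0 ≤ ‖pos a - pos b‖ := fun a b => norm_nonneg _
  obtain ⟨F, hnd, hall, h5, h4, hw⟩ := exists_forest T hT hdeg (fun a b => ‖pos a - pos b‖) hd hd0 r
  have hgg : 0 ≤ gg := le_trans (by norm_num) gg_bounds.1
  obtain ⟨B, hB2, hBok, hBn, hBw⟩ := rec_forest (fun a b => ‖pos a - pos b‖) hd0 hgg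
    (fun v L h3 h6 => by
      have h := loc_all (fun x : V × Forest V => pos x.1 - pos v) L h3 h6
      simpa [sub_sub_sub_cancel_right, norm_sub_rev (pos v)] using h) r F h5 h4
  have hperm : (r :: B.nodes).Perm (r :: F.nodes) := hBn.cons r
  obtain ⟨H, hH, hdegH, hwH⟩ := exists_graph B r (hperm.nodup_iff.mpr hnd)
    (fun v => hperm.mem_iff.mpr (hall v)) hB2 hBok (fun a b => ‖pos a - pos b‖) hd hd0
  refine ⟨H, hH, hdegH, fun T' hT' => ?_⟩
  have h1 := hmin T' hT'
  have h2 : (1 + gg) * F.wt (fun a b => ‖pos a - pos b‖) r ≤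
      (1 + gg) * gw (fun a b => ‖pos a - pos b‖) hd T' :=
    mul_le_mul_of_nonneg_left (le_trans hw h1) (by linarith)
  have h3 : 1 + gg = (1 + Real.sqrt 3) / 2 := by unfold gg; ring
  rw [← h3]
  linarith

end T3
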